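import Pool.Agent.H420_NCF.Spec2

/-!
# Polynomial-time functions with values in, or arguments from, a finite type
-/

set_option linter.unusedSectionVars false

namespace Pool.Agent.H420_NCF.FF

open Pool.Agent.NPC

variable {α β γ : Type} [TEnc α] [TEnc β] [TEnc γ]

/-- Elements of a finite type have bounded size. -/
theorem exists_sz_bound (K : Type) [Finite K] [TEnc K] : ∃ B : ℕ, ∀ a : K, sz a ≤ B := by
  obtain ⟨B, hB⟩ := (Set.finite_range (fun a : K => sz a)).bddAbove
  exact ⟨B, fun a => hB ⟨a, rfl⟩⟩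

/-- The size of a list over a finite type is linear in its length. -/
theorem exists_sz_list (K : Type) [Finite K] [TEnc K] : ∃ B : ℕ, ∀ l : List K,
    sz l ≤ l.length * B + 1 := by
  obtain ⟨B, hB⟩ := exists_sz_bound K
  exact ⟨B + 1, fun l => sz_le_length_mul l B fun a _ => hB a⟩

/-- Every function on a finite type is polynomial-time. -/
theorem Poly_fin {K : Type} [Finite K] [DecidableEq K] [TEnc K] [Nonempty γ] (g : K → γ) :
    Poly g := by
  classical
  obtain ⟨s, hs⟩ : ∃ s : List K, ∀ a : K, a ∈ s := by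
    have := Fintype.ofFinite K
    exact ⟨Finset.univ.toList, fun a => by simp⟩
  have key : ∀ l : List K, ∃ h : K → γ, Poly h ∧ ∀ a ∈ l, h a = g a := by
    intro l
    induction l with
    | nil => exact ⟨fun _ => Classical.arbitrary γ, NPC.Poly.const _, by simp⟩
    | cons c l ih =>
      obtain ⟨h, hh, hh'⟩ := ih
      refine ⟨fun a => if a = c then g c else h a, ?_, ?_⟩
      · exact NPC.Poly.ite (NPC.Poly.decide_eq NPC.Poly.id (NPC.Poly.const c)) (NPC.Poly.const _) hh
      · intro a ha
        change (if a = c then g c else h a) = g a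
        by_cases hac : a = c
        · rw [if_pos hac, hac]
        · rw [if_neg hac]
          exact hh' a (by simpa [hac] using ha)
  obtain ⟨h, hh, hh'⟩ := key s
  exact hh.congr fun a => hh' a (hs a)

/-- Composition with a function on a finite type. -/
theorem Poly_fin1 {K : Type} [Finite K] [DecidableEq K] [TEnc K] [Nonempty γ] (g : K → γ)
    {f : α → K} (hf : Poly f) : Poly (fun a => g (f a)) :=
  NPC.Poly.comp (Poly_fin g) hf

/-- Composition with a function of two arguments on finite types. -/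
theorem Poly_fin2 {K L : Type} [Finite K] [DecidableEq K] [TEnc K] [Finite L] [DecidableEq L]
    [TEnc L] [Nonempty γ] (g : K → L → γ) {f : α → K} {f' : α → L} (hf : Poly f) (hf' : Poly f') :
    Poly (fun a => g (f a) (f' a)) :=
  NPC.Poly.comp (Poly_fin (K := K × L) (fun p => g p.1 p.2)) (NPC.Poly.pair hf hf')

section Field
variable {K : Type} [Field K] [Finite K] [DecidableEq K] [TEnc K]

theorem Poly_addK {f g : α → K} (hf : Poly f) (hg : Poly g) : Poly (fun a => f a + g a) :=
  Poly_fin2 (fun x y => x + y) hf hg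

theorem Poly_subK {f g : α → K} (hf : Poly f) (hg : Poly g) : Poly (fun a => f a - g a) :=
  Poly_fin2 (fun x y => x - y) hf hg

theorem Poly_mulK {f g : α → K} (hf : Poly f) (hg : Poly g) : Poly (fun a => f a * g a) :=
  Poly_fin2 (fun x y => x * y) hf hg

theorem Poly_negK {f : α → K} (hf : Poly f) : Poly (fun a => -(f a)) :=
  Poly_fin1 (fun x => -x) hf

theorem Poly_invK {f : α → K} (hf : Poly f) : Poly (fun a => (f a)⁻¹) :=
  Poly_fin1 (fun x => x⁻¹) hf

theorem Poly_decEqK {f g : α → K} (hf : Poly f) (hg : Poly g) :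
    Poly (fun a => decide (f a = g a)) := NPC.Poly.decide_eq hf hg

/-- Sums of lists. -/
theorem Poly_sumK {l : α → List K} (hl : Poly l) : Poly (fun a => (l a).sum) := by
  obtain ⟨B, hB⟩ := exists_sz_bound K
  have h := NPC.Poly.foldl (l := l) (s := fun _ => (0 : K)) (F := fun (_ : α) s x => s + x) hl
    (NPC.Poly.const _) (Poly_addK (NPC.Poly.fst (NPC.Poly.snd NPC.Poly.id)) (NPC.Poly.snd (NPC.Poly.snd NPC.Poly.id)))
    (Polynomial.C B) (fun a k _ => by rw [Polynomial.eval_C]; exact hB _)
  refine h.congr fun a => ?_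
  rw [List.sum_eq_foldl]

/-- Entries of matrices. -/
theorem Poly_entryK {A : α → List (List K)} {i j : α → ℕ} (hA : Poly A) (hi : Poly i)
    (hj : Poly j) : Poly (fun a => entry (A a) (i a) (j a)) := by
  unfold entry
  exact NPC.Poly.getD (NPC.Poly.getD hA hi (NPC.Poly.const _)) hj (NPC.Poly.const _)

/-- Tables. -/
def tab (m n : ℕ) (f : ℕ → ℕ → K) : List (List K) :=
  (List.range m).map fun i => (List.range n).map fun j => f i j

theorem entry_tab {m n : ℕ} (f : ℕ → ℕ → K) {i j : ℕ} (hi : i < m) (hj : j < n) :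
    entry (tab m n f) i j = f i j := by
  unfold entry tab
  have h1 : ((List.range m).map fun i => (List.range n).map fun j => f i j).getD i [] =
      (List.range n).map fun j => f i j := by
    rw [List.getD_eq_getElem _ _ (by simpa using hi)]
    simp
  rw [h1, List.getD_eq_getElem _ _ (by simpa using hj)]
  simp

theorem isMat_tab (m n : ℕ) (f : ℕ → ℕ → K) : IsMat m n (tab m n f) := by
  refine ⟨by simp [tab], fun v hv => ?_⟩
  simp only [tab, List.mem_map, List.mem_range] at hv
  obtain ⟨i, _, rfl⟩ := hv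
  simp

theorem mq_tab (n : ℕ) (f : ℕ → ℕ → K) : mq n (tab n n f) = fun i j : Fin n => f i j := by
  funext i j
  exact entry_tab f i.2 j.2

theorem Poly_tabK {m n : α → ℕ} {f : α → ℕ → ℕ → K} (hm : UPoly m) (hn : UPoly n)
    (hf : Poly (fun p : (α × ℕ) × ℕ => f p.1.1 p.1.2 p.2)) :
    Poly (fun a => tab (m a) (n a) (f a)) := by
  unfold tab
  refine NPC.Poly.map (F := fun a i => (List.range (n a)).map fun j => f a i j) hm.range ?_
  exact NPC.Poly.map (α := α × ℕ) (F := fun p j => f p.1 p.2 j) (hn.comp (NPC.Poly.fst NPC.Poly.id)).range hf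

/-- The size of a table is bounded by its shape. -/
theorem exists_sz_tab (K : Type) [Field K] [Finite K] [TEnc K] : ∃ B : ℕ, ∀ (m n : ℕ)
    (M : List (List K)), M.length ≤ m → (∀ v ∈ M, v.length ≤ n) → sz M ≤ m * (n * B + 2) + 1 := by
  obtain ⟨B, hB⟩ := exists_sz_list K
  refine ⟨B, fun m n M hM hv => ?_⟩
  refine (sz_le_length_mul M (n * B + 1) fun v hv' => ?_).trans ?_
  · exact (hB v).trans (Nat.add_le_add_right (Nat.mul_le_mul_right _ (hv v hv')) _)
  · exact Nat.add_le_add_right (Nat.mul_le_mul hM (by omega)) _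

/-- Matrix product. -/
def mmul (n : ℕ) (A B : List (List K)) : List (List K) :=
  tab n n fun i j => ((List.range n).map fun k => entry A i k * entry B k j).sum

theorem sum_fin_eq_list {M : Type*} [AddCommMonoid M] (n : ℕ) (f : ℕ → M) :
    ∑ k : Fin n, f k = ((List.range n).map f).sum := by
  rw [Fin.sum_univ_eq_sum_range (fun k => f k) n]
  induction n with
  | zero => simp
  | succ n ih => rw [Finset.sum_range_succ, ih, List.range_succ]; simp

theorem mq_mmul (n : ℕ) (A B : List (List K)) : mq n (mmul n A B) = mq n A * mq n B := by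
  rw [mmul, mq_tab]
  funext i j
  rw [Matrix.mul_apply, ← sum_fin_eq_list n fun k => entry A i k * entry B k j]
  rfl

theorem Poly_mmulK {n : α → ℕ} {A B : α → List (List K)} (hn : UPoly n) (hA : Poly A)
    (hB : Poly B) : Poly (fun a => mmul (n a) (A a) (B a)) := by
  unfold mmul
  refine Poly_tabK (f := fun a i j => ((List.range (n a)).map fun k =>
    entry (A a) i k * entry (B a) k j).sum) hn hn ?_
  refine Poly_sumK ?_
  have h1 : Poly (fun p : (α × ℕ) × ℕ => p.1.1) := NPC.Poly.fst (NPC.Poly.fst NPC.Poly.id)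
  refine NPC.Poly.map (α := (α × ℕ) × ℕ)
    (F := fun p k => entry (A p.1.1) p.1.2 k * entry (B p.1.1) k p.2) (hn.comp h1).range ?_
  have h2 : Poly (fun p : ((α × ℕ) × ℕ) × ℕ => p.1.1.1) :=
    NPC.Poly.fst (NPC.Poly.fst (NPC.Poly.fst NPC.Poly.id))
  have h3 : Poly (fun p : ((α × ℕ) × ℕ) × ℕ => p.1.1.2) :=
    NPC.Poly.snd (NPC.Poly.fst (NPC.Poly.fst NPC.Poly.id))
  have h4 : Poly (fun p : ((α × ℕ) × ℕ) × ℕ => p.1.2) := NPC.Poly.snd (NPC.Poly.fst NPC.Poly.id)
  have h5 : Poly (fun p : ((α × ℕ) × ℕ) × ℕ => p.2) := NPC.Poly.snd NPC.Poly.id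
  exact Poly_mulK (Poly_entryK (hA.comp h2) h3 h5) (Poly_entryK (hB.comp h2) h5 h4)

end Field

end Pool.Agent.H420_NCF.FF
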