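import Pool.Agent.H420_NCF.Spec2
import Pool.Agent.H420_NCF.FF.Base

/-!
# chains of subspaces over a finite field (module Chain)
-/

namespace Pool.Agent.H420_NCF.FF

open Pool.Agent.NPC Pool.Agent.NPC.H532
open scoped Matrix

namespace Chain

section Basic
variable {K : Type} [Field K]

/-- a row vector times a matrix -/
def vm (n : ℕ) (v : List K) (c : List (List K)) : List K :=
  (List.range n).map fun j => ((List.range n).map fun i => v.getD i 0 * entry c i j).sum

/-- cut or pad to length `n` -/
def cut (n : ℕ) (v : List K) : List K := (List.range n).map fun j => v.getD j 0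

/-- all products -/
def prods (n : ℕ) (W : List (List K)) (m : List (List (List K))) : List (List K) :=
  W.flatMap fun v => m.map fun c => vm n v c

/-- the chain -/
def chL (sel : List (List K) → List (List K)) (n : ℕ) :
    List (List K) → List (List (List (List K))) → List (List (List K))
  | W, [] => [W]
  | W, m :: l => W :: chL sel n (sel (prods n W m)) l

theorem vm_length (n : ℕ) (v : List K) (c : List (List K)) : (vm n v c).length = n := by
  simp [vm]

theorem cut_length (n : ℕ) (v : List K) : (cut n v).length = n := by simp [cut]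

theorem cut_self {n : ℕ} {v : List K} (h : v.length = n) : cut n v = v := by
  apply List.ext_getElem
  · rw [cut_length, h]
  · intro i h1 h2
    simp [cut, List.getElem?_eq_getElem h2]

theorem mem_prods {n : ℕ} {W : List (List K)} {m : List (List (List K))} {y : List K} :
    y ∈ prods n W m ↔ ∃ v ∈ W, ∃ c ∈ m, vm n v c = y := by
  simp [prods]

theorem prods_length {n : ℕ} {W : List (List K)} {m : List (List (List K))} {y : List K}
    (h : y ∈ prods n W m) : y.length = n := by
  obtain ⟨v, _, c, _, rfl⟩ := mem_prods.1 h
  exact vm_length _ _ _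

theorem vq_vm (n : ℕ) (v : List K) (c : List (List K)) :
    vq n (vm n v c) = vq n v ᵥ* mq n c := by
  funext j
  have h1 : (vm n v c).getD (j : ℕ) 0 =
      ((List.range n).map fun i => v.getD i 0 * entry c i j).sum := by
    unfold vm
    rw [List.getD_eq_getElem _ _ (by simp)]
    simp
  unfold vq
  rw [h1, Matrix.vecMul, dotProduct, ← sum_fin_eq_list n fun i => v.getD i 0 * entry c i j]
  rfl

theorem vspan_nil (n : ℕ) : vspan (K := K) n [] = ⊥ := by
  unfold vspan
  rw [Submodule.span_eq_bot]
  rintro x ⟨v, hv, _⟩
  exact absurd hv List.not_mem_nil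

theorem wmul_bot {n : ℕ} (m : Submodule K (Matrix (Fin n) (Fin n) K)) :
    wmul (⊥ : Submodule K (Fin n → K)) m = ⊥ := by
  unfold wmul
  rw [Submodule.span_eq_bot]
  rintro x ⟨w, hw, c, _, rfl⟩
  rw [Submodule.mem_bot] at hw
  rw [hw, Matrix.zero_vecMul]

theorem vspan_prods (n : ℕ) (W : List (List K)) (m : List (List (List K))) :
    vspan n (prods n W m) = wmul (vspan n W) (mspan n m) := by
  apply le_antisymm
  · unfold vspan
    rw [Submodule.span_le]
    rintro x ⟨y, hy, rfl⟩
    obtain ⟨v, hv, c, hc, rfl⟩ := mem_prods.1 hy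
    rw [vq_vm]
    exact Submodule.subset_span ⟨vq n v, Submodule.subset_span ⟨v, hv, rfl⟩, mq n c,
      Submodule.subset_span ⟨c, hc, rfl⟩, rfl⟩
  · unfold wmul
    rw [Submodule.span_le]
    rintro x ⟨w, hw, c, hc, rfl⟩
    show w ᵥ* c ∈ vspan n (prods n W m)
    have hc' : c ∈ Submodule.span K {w | ∃ v ∈ m, w = mq n v} := hc
    have hw' : w ∈ Submodule.span K {w | ∃ v ∈ W, w = vq n v} := hw
    clear hw hc
    induction hw' using Submodule.span_induction with
    | mem w hw =>
      obtain ⟨v, hv, rfl⟩ := hw
      induction hc' using Submodule.span_induction with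
      | mem c hc =>
        obtain ⟨M, hM, rfl⟩ := hc
        rw [← vq_vm]
        exact Submodule.subset_span ⟨vm n v M, mem_prods.2 ⟨v, hv, M, hM, rfl⟩, rfl⟩
      | zero => rw [Matrix.vecMul_zero]; exact Submodule.zero_mem _
      | add a b _ _ ha hb => rw [Matrix.vecMul_add]; exact Submodule.add_mem _ ha hb
      | smul r a _ ha => rw [Matrix.vecMul_smul]; exact Submodule.smul_mem _ _ ha
    | zero => rw [Matrix.zero_vecMul]; exact Submodule.zero_mem _
    | add a b _ _ ha hb => rw [Matrix.add_vecMul]; exact Submodule.add_mem _ ha hb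
    | smul r a _ ha => rw [Matrix.smul_vecMul]; exact Submodule.smul_mem _ _ ha

/-- what is used of the selection -/
def SelSpec (sel : List (List K) → List (List K)) : Prop :=
  ∀ (n : ℕ) (L : List (List K)), (∀ v ∈ L, v.length = n) →
    (∀ v ∈ sel L, v ∈ L) ∧ Ind n (sel L) ∧ vspan n (sel L) = vspan n L

theorem sel_nil {sel : List (List K) → List (List K)} (hs : SelSpec sel) : sel [] = [] := by
  have := (hs 0 [] (by simp)).1
  exact List.eq_nil_iff_forall_not_mem.2 fun v hv => absurd (this v hv) List.not_mem_nil

theorem sel_length {sel : List (List K) → List (List K)} (hs : SelSpec sel) {n : ℕ}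
    {L : List (List K)} (hL : ∀ v ∈ L, v.length = n) : (sel L).length ≤ n := by
  have h := (hs n L hL).2.1
  unfold Ind at h
  have := h.fintype_card_le_finrank
  simpa using this

theorem step_spec {sel : List (List K) → List (List K)} (hs : SelSpec sel) {n N : ℕ}
    {W : List (List K)} (hW : W = [] ∨ N = n) (m : List (List (List K))) :
    (∀ v ∈ sel (prods N W m), v.length = n) ∧
    vspan n (sel (prods N W m)) = wmul (vspan n W) (mspan n m) ∧
    (sel (prods N W m) = [] ∨ N = n) := by
  rcases hW with rfl | rfl
  · have h1 : prods N [] m = [] := rfl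
    rw [h1, sel_nil hs, vspan_nil, wmul_bot]
    exact ⟨fun v hv => absurd hv List.not_mem_nil, rfl, Or.inl rfl⟩
  · have h1 := hs N (prods N W m) fun v hv => prods_length hv
    refine ⟨fun v hv => prods_length (h1.1 v hv), ?_, Or.inr rfl⟩
    rw [h1.2.2, vspan_prods]

theorem chL_length (sel : List (List K) → List (List K)) (N : ℕ) :
    ∀ (l : List (List (List (List K)))) (W : List (List K)),
      (chL sel N W l).length = l.length + 1
  | [], W => rfl
  | m :: l, W => by
    rw [chL, List.length_cons, chL_length sel N l, List.length_cons]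

theorem chL_zero (sel : List (List K) → List (List K)) (N : ℕ)
    (l : List (List (List (List K)))) (W : List (List K)) :
      (chL sel N W l).getD 0 [] = W := by
  cases l <;> simp [chL]

theorem chL_spec {sel : List (List K) → List (List K)} (hs : SelSpec sel) {n N : ℕ} :
    ∀ (l : List (List (List (List K)))) (W : List (List K)), (∀ v ∈ W, v.length = n) →
      (W = [] ∨ N = n) → (∀ W' ∈ chL sel N W l, ∀ v ∈ W', v.length = n) ∧
      ∀ i < l.length, vspan n ((chL sel N W l).getD (i + 1) []) =
        wmul (vspan n ((chL sel N W l).getD i [])) (mspan n (l.getD i []))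
  | [], W => by
    intro hW _
    refine ⟨fun W' hW' => ?_, fun i hi => absurd hi (by simp)⟩
    rw [chL, List.mem_singleton] at hW'
    rw [hW']; exact hW
  | m :: l, W => by
    intro hW hN
    obtain ⟨h1, h2, h3⟩ := step_spec hs hN m
    obtain ⟨h4, h5⟩ := chL_spec hs l (sel (prods N W m)) h1 h3
    refine ⟨fun W' hW' => ?_, fun i hi => ?_⟩
    · rw [chL, List.mem_cons] at hW'
      rcases hW' with rfl | hW'
      · exact hW
      · exact h4 W' hW'
    · rw [chL]
      cases i with
      | zero =>
        rw [List.getD_cons_succ, List.getD_cons_zero, List.getD_cons_zero, chL_zero]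
        exact h2
      | succ i =>
        rw [List.getD_cons_succ, List.getD_cons_succ, List.getD_cons_succ]
        exact h5 i (by simpa using hi)

/-- shape control -/
def G (n : ℕ) (W : List (List K)) : Prop := (∀ v ∈ W, v.length = n) ∧ W.length ≤ n

theorem G_step {sel : List (List K) → List (List K)} (hs : SelSpec sel) {n : ℕ}
    (W : List (List K)) (m : List (List (List K))) : G n (sel (prods n W m)) := by
  have h1 := hs n (prods n W m) fun v hv => prods_length hv
  exact ⟨fun v hv => prods_length (h1.1 v hv), sel_length hs fun v hv => prods_length hv⟩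

theorem chL_G {sel : List (List K) → List (List K)} (hs : SelSpec sel) {n : ℕ} :
    ∀ (l : List (List (List (List K)))) (W : List (List K)), G n W →
      ∀ W' ∈ chL sel n W l, G n W'
  | [], W => by
    intro hW W' hW'
    rw [chL, List.mem_singleton] at hW'
    rw [hW']
    exact hW
  | m :: l, W => by
    intro hW W' hW'
    rw [chL, List.mem_cons] at hW'
    rcases hW' with rfl | hW'
    · exact hW
    · exact chL_G hs l _ (G_step hs W m) W' hW'

theorem foldl_eq (sel : List (List K) → List (List K)) (n : ℕ) :
    ∀ (l : List (List (List (List K)))) (W : List (List K)) (acc : List (List (List K))),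
      l.foldl (fun acc m => sel (prods n (acc.getD 0 []) m) :: acc) (W :: acc) =
        (chL sel n W l).reverse ++ acc
  | [], W, acc => by simp [chL]
  | m :: l, W, acc => by
    rw [List.foldl_cons, List.getD_cons_zero, foldl_eq sel n l, chL]
    simp

end Basic

section
variable {K : Type} [Field K] [Finite K] [DecidableEq K] [TEnc K]
variable {α : Type} [TEnc α]

theorem Poly_vm {n : α → ℕ} {v : α → List K} {c : α → List (List K)} (hn : UPoly n)
    (hv : Poly v) (hc : Poly c) : Poly (fun a => vm (n a) (v a) (c a)) := by
  unfold vm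
  refine NPC.Poly.map (F := fun a j => ((List.range (n a)).map fun i =>
    (v a).getD i 0 * entry (c a) i j).sum) hn.range ?_
  refine Poly_sumK ?_
  refine NPC.Poly.map (α := α × ℕ) (F := fun p i => (v p.1).getD i 0 * entry (c p.1) i p.2)
    (hn.comp (NPC.Poly.fst NPC.Poly.id)).range ?_
  have h1 : Poly (fun p : (α × ℕ) × ℕ => p.1.1) := NPC.Poly.fst (NPC.Poly.fst NPC.Poly.id)
  have h2 : Poly (fun p : (α × ℕ) × ℕ => p.1.2) := NPC.Poly.snd (NPC.Poly.fst NPC.Poly.id)
  have h3 : Poly (fun p : (α × ℕ) × ℕ => p.2) := NPC.Poly.snd NPC.Poly.id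
  exact Poly_mulK (NPC.Poly.getD (hv.comp h1) h3 (NPC.Poly.const _)) (Poly_entryK (hc.comp h1) h3 h2)

theorem Poly_cut {n : α → ℕ} {v : α → List K} (hn : UPoly n) (hv : Poly v) :
    Poly (fun a => cut (n a) (v a)) := by
  unfold cut
  refine NPC.Poly.map (F := fun a j => (v a).getD j 0) hn.range ?_
  exact NPC.Poly.getD (hv.comp (NPC.Poly.fst NPC.Poly.id)) (NPC.Poly.snd NPC.Poly.id)
    (NPC.Poly.const _)

theorem Poly_prods {n : α → ℕ} {W : α → List (List K)} {m : α → List (List (List K))}
    (hn : UPoly n) (hW : Poly W) (hm : Poly m) : Poly (fun a => prods (n a) (W a) (m a)) := by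
  unfold prods
  refine NPC.Poly.flatMap (F := fun a v => (m a).map fun c => vm (n a) v c) hW ?_
  refine NPC.Poly.map (α := α × List K) (F := fun p c => vm (n p.1) p.2 c)
    (hm.comp (NPC.Poly.fst NPC.Poly.id)) ?_
  exact Poly_vm (hn.comp (NPC.Poly.fst (NPC.Poly.fst NPC.Poly.id)))
    (NPC.Poly.snd (NPC.Poly.fst NPC.Poly.id)) (NPC.Poly.snd NPC.Poly.id)

end

end Chain

open Chain in
theorem chain (K : Type) [Field K] [Finite K] [DecidableEq K] [TEnc K] (h : SelS K) : ChainS K := by
  obtain ⟨sel, hsel, hs⟩ := h
  have hs' : SelSpec sel := hs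
  obtain ⟨B, hB⟩ := exists_sz_tab K
  set nn : List (List K) × List (List (List (List K))) → ℕ := fun a => (a.1.getD 0 []).length
    with hnn
  have hn : UPoly nn := UPoly.length (NPC.Poly.getD
      (l := fun a : List (List K) × List (List (List (List K))) => a.1)
      (n := fun _ => 0) (d := fun _ => ([] : List K)) (NPC.Poly.fst NPC.Poly.id)
      (NPC.Poly.const 0) (NPC.Poly.const []))
  have hz1 : ∀ a : List (List K) × List (List (List (List K))), sz a.1 ≤ sz a := by
    rintro ⟨L, mm⟩
    show sz L ≤ sz (L, mm)
    rw [sz_pair]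
    omega
  have hz2 : ∀ a : List (List K) × List (List (List (List K))), sz a.2 ≤ sz a := by
    rintro ⟨L, mm⟩
    show sz mm ≤ sz (L, mm)
    rw [sz_pair]
    omega
  refine ⟨fun a => chL sel (nn a) (sel (a.1.map (cut (nn a)))) a.2, ?_, ?_⟩
  · have hW0 : Poly (fun a : List (List K) × List (List (List (List K))) =>
        sel (a.1.map (cut (nn a)))) := by
      refine hsel.comp (NPC.Poly.map (F := fun a v => cut (nn a) v) (NPC.Poly.fst NPC.Poly.id) ?_)
      exact Poly_cut (hn.comp (NPC.Poly.fst NPC.Poly.id)) (NPC.Poly.snd NPC.Poly.id)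
    have hF : Poly (fun p : (List (List K) × List (List (List (List K)))) ×
        List (List (List K)) × List (List (List K)) =>
          sel (prods (nn p.1) (p.2.1.getD 0 []) p.2.2) :: p.2.1) := by
      refine NPC.Poly.cons (hsel.comp (Poly_prods (hn.comp (NPC.Poly.fst NPC.Poly.id)) ?_ ?_)) ?_
      · exact NPC.Poly.getD (NPC.Poly.fst (NPC.Poly.snd NPC.Poly.id)) (NPC.Poly.const 0)
          (NPC.Poly.const [])
      · exact NPC.Poly.snd (NPC.Poly.snd NPC.Poly.id)
      · exact NPC.Poly.fst (NPC.Poly.snd NPC.Poly.id)
    have hfold : Poly (fun a : List (List K) × List (List (List (List K))) =>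
        a.2.foldl (fun acc m => sel (prods (nn a) (acc.getD 0 []) m) :: acc)
          [sel (a.1.map (cut (nn a)))]) := by
      refine Poly_foldl (F := fun a (acc : List (List (List K))) (m : List (List (List K))) =>
        sel (prods (nn a) (acc.getD 0 []) m) :: acc)
        (NPC.Poly.snd NPC.Poly.id) (NPC.Poly.cons hW0 (NPC.Poly.const [])) hF
        (fun a => (sz a + 1) * ((sz a * (sz a * B + 2) + 1) + 1) + 1) ?_ ?_
      · have hz : PB (fun a : List (List K) × List (List (List (List K))) => sz a) :=
          PB.sz NPC.Poly.id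
        exact ((hz.add (PB.const 1)).mul (((hz.mul ((hz.mul (PB.const B)).add (PB.const 2))).add
          (PB.const 1)).add (PB.const 1))).add (PB.const 1)
      · intro a k hk
        rw [foldl_eq, List.append_nil, sz_reverse]
        have hna : nn a ≤ sz a := by
          have h1 := length_lt_sz (a.1.getD 0 [])
          have h2 : sz (a.1.getD 0 []) ≤ sz a := by
            have h3 := hz1 a
            have h4 := sz_pos a.1
            by_cases h0 : 0 < a.1.length
            · have h5 := sz_le_of_mem (List.getElem_mem h0)
              rw [List.getD_eq_getElem _ _ h0]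
              omega
            · rw [List.getD_eq_default _ _ (not_lt.1 h0), sz_list_nil]
              omega
          show (a.1.getD 0 []).length ≤ sz a
          omega
        have hG0 : G (nn a) (sel (a.1.map (cut (nn a)))) := by
          have h1 : ∀ v ∈ a.1.map (cut (nn a)), v.length = nn a := by
            intro v hv
            obtain ⟨w, _, rfl⟩ := List.mem_map.1 hv
            exact cut_length _ _
          have h2 := hs (nn a) _ h1
          exact ⟨fun v hv => h1 v (h2.1 v hv), sel_length hs' h1⟩
        have hk' : (a.2.take k).length ≤ sz a := by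
          have h1 := length_lt_sz a.2
          have h6 : sz a.2 ≤ sz a := hz2 a
          rw [List.length_take]
          omega
        have hall := chL_G hs' (a.2.take k) _ hG0
        refine (sz_list_le (B := sz a * (sz a * B + 2) + 1) ?_).trans ?_
        · intro W' hW'
          have h1 := hall W' hW'
          exact hB (sz a) (sz a) W' (h1.2.trans hna) fun v hv => (h1.1 v hv).le.trans hna
        · rw [chL_length]
          gcongr
    refine (NPC.Poly.reverse hfold).congr fun a => ?_
    rw [foldl_eq, List.append_nil, List.reverse_reverse]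
  · intro n L mm hL hmm
    have hcut : ∀ v ∈ L.map (cut (nn (L, mm))), v.length = nn (L, mm) := by
      intro v hv
      obtain ⟨w, _, rfl⟩ := List.mem_map.1 hv
      exact cut_length _ _
    have hmap : L.map (cut (nn (L, mm))) = L := by
      cases L with
      | nil => rfl
      | cons v L' =>
        have : nn (v :: L', mm) = n := hL v (by simp)
        rw [this]
        conv_rhs => rw [← List.map_id (v :: L')]
        exact List.map_congr_left fun w hw => cut_self (hL w hw)
    have hW0 : sel (L.map (cut (nn (L, mm)))) = [] ∨ nn (L, mm) = n := by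
      cases L with
      | nil => left; rw [List.map_nil]; exact sel_nil hs'
      | cons v L' => right; exact hL v (by simp)
    rw [hmap] at hW0
    have hval : (fun a : List (List K) × List (List (List (List K))) =>
        chL sel (nn a) (sel (a.1.map (cut (nn a)))) a.2) (L, mm) =
        chL sel (nn (L, mm)) (sel L) mm := by
      show chL sel (nn (L, mm)) (sel (L.map (cut (nn (L, mm))))) mm = _
      rw [hmap]
    rw [hval]
    have h1 := hs n L hL
    have h2 := chL_spec hs' (n := n) (N := nn (L, mm)) mm (sel L)
      (fun v hv => hL v (h1.1 v hv)) hW0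
    refine ⟨chL_length _ _ _ _, h2.1, ?_, h2.2⟩
    rw [chL_zero]
    exact h1.2.2

end Pool.Agent.H420_NCF.FF
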