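import Pool.Agent.H420_NCF.Spec2
import Pool.Agent.H420_NCF.FF.Base

/-!
# Closure of a space under matrices over a finite field
-/

set_option linter.unusedSectionVars false

namespace Pool.Agent.H420_NCF.FF

open Pool.Agent.NPC Pool.Agent.NPC.H532
open scoped Matrix

namespace Clo

section Field
variable {K : Type} [Field K] [Finite K] [DecidableEq K] [TEnc K]

/-- the vector `v` cut or filled up to length `n` -/
def pad (n : ℕ) (v : List K) : List K := (List.range n).map fun i => v.getD i 0

/-- row vector times matrix -/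
def vm (n : ℕ) (v : List K) (M : List (List K)) : List K :=
  (List.range n).map fun j => ((List.range n).map fun i => v.getD i 0 * entry M i j).sum

/-- the list of a round, before selection -/
def big (n : ℕ) (Ms : List (List (List K))) (cur : List (List K)) : List (List K) :=
  cur ++ cur.flatMap fun v => Ms.map fun M => vm n v M

/-- dimension -/
def dm (a : List (List (List K)) × List (List K)) : ℕ := (a.2.getD 0 []).length

/-- the state after `k` rounds -/
def rnd (sel : List (List K) → List (List K)) (a : List (List (List K)) × List (List K)) (k : ℕ) :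
    List (List K) :=
  (List.range k).foldl (fun cur _ => sel (big (dm a) a.1 cur)) (sel (a.2.map (pad (dm a))))

theorem rnd_zero (sel : List (List K) → List (List K)) (a : List (List (List K)) × List (List K)) :
    rnd sel a 0 = sel (a.2.map (pad (dm a))) := rfl

theorem rnd_succ (sel : List (List K) → List (List K)) (a : List (List (List K)) × List (List K))
    (k : ℕ) : rnd sel a (k + 1) = sel (big (dm a) a.1 (rnd sel a k)) := by
  unfold rnd
  rw [List.range_succ, List.foldl_append]
  rfl

theorem pad_length (n : ℕ) (v : List K) : (pad n v).length = n := by simp [pad]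

theorem vm_length (n : ℕ) (v : List K) (M : List (List K)) : (vm n v M).length = n := by simp [vm]

theorem pad_eq {n : ℕ} {v : List K} (h : v.length = n) : pad n v = v := by
  subst h
  unfold pad
  apply List.ext_getElem
  · simp
  · intro i h1 h2
    simp
    rw [List.getElem?_eq_getElem h2, Option.getD_some]

theorem big_length {n : ℕ} {Ms : List (List (List K))} {cur : List (List K)}
    (h : ∀ v ∈ cur, v.length = n) : ∀ v ∈ big n Ms cur, v.length = n := by
  intro v hv
  unfold big at hv
  rw [List.mem_append, List.mem_flatMap] at hv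
  rcases hv with hv | ⟨w, _, hv⟩
  · exact h v hv
  · rw [List.mem_map] at hv
    obtain ⟨M, _, rfl⟩ := hv
    exact vm_length _ _ _

/-! ### polynomial time -/

section
variable {α : Type} [TEnc α]

theorem Poly_pad {n : α → ℕ} {v : α → List K} (hn : UPoly n) (hv : Poly v) :
    Poly (fun a => pad (n a) (v a)) := by
  unfold pad
  refine NPC.Poly.map (F := fun a i => (v a).getD i 0) hn.range ?_
  exact NPC.Poly.getD (hv.comp (NPC.Poly.fst NPC.Poly.id)) (NPC.Poly.snd NPC.Poly.id) (NPC.Poly.const _)

theorem Poly_vm {n : α → ℕ} {v : α → List K} {M : α → List (List K)} (hn : UPoly n) (hv : Poly v)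
    (hM : Poly M) : Poly (fun a => vm (n a) (v a) (M a)) := by
  unfold vm
  refine NPC.Poly.map (F := fun a j => ((List.range (n a)).map fun i =>
    (v a).getD i 0 * entry (M a) i j).sum) hn.range ?_
  refine Poly_sumK ?_
  have h1 : Poly (fun p : α × ℕ => p.1) := NPC.Poly.fst NPC.Poly.id
  refine NPC.Poly.map (α := α × ℕ) (F := fun p i => (v p.1).getD i 0 * entry (M p.1) i p.2)
    (hn.comp h1).range ?_
  have h2 : Poly (fun p : (α × ℕ) × ℕ => p.1.1) := NPC.Poly.fst (NPC.Poly.fst NPC.Poly.id)
  have h3 : Poly (fun p : (α × ℕ) × ℕ => p.1.2) := NPC.Poly.snd (NPC.Poly.fst NPC.Poly.id)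
  have h4 : Poly (fun p : (α × ℕ) × ℕ => p.2) := NPC.Poly.snd NPC.Poly.id
  exact Poly_mulK (NPC.Poly.getD (hv.comp h2) h4 (NPC.Poly.const _)) (Poly_entryK (hM.comp h2) h4 h3)

theorem Poly_big {n : α → ℕ} {Ms : α → List (List (List K))} {cur : α → List (List K)}
    (hn : UPoly n) (hM : Poly Ms) (hc : Poly cur) : Poly (fun a => big (n a) (Ms a) (cur a)) := by
  unfold big
  refine NPC.Poly.append hc ?_
  refine NPC.Poly.flatMap (F := fun a v => (Ms a).map fun M => vm (n a) v M) hc ?_
  have h1 : Poly (fun p : α × List K => p.1) := NPC.Poly.fst NPC.Poly.id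
  refine NPC.Poly.map (α := α × List K) (F := fun p M => vm (n p.1) p.2 M) (hM.comp h1) ?_
  have h2 : Poly (fun p : (α × List K) × List (List K) => p.1.1) := NPC.Poly.fst (NPC.Poly.fst NPC.Poly.id)
  have h3 : Poly (fun p : (α × List K) × List (List K) => p.1.2) := NPC.Poly.snd (NPC.Poly.fst NPC.Poly.id)
  exact Poly_vm (hn.comp h2) h3 (NPC.Poly.snd NPC.Poly.id)

end

theorem UPoly_dm : UPoly (dm : List (List (List K)) × List (List K) → ℕ) := by
  unfold dm
  exact UPoly.length (NPC.Poly.getD (NPC.Poly.snd NPC.Poly.id) (NPC.Poly.const 0) (NPC.Poly.const []))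

/-- specification of the selection -/
def Spec (sel : List (List K) → List (List K)) : Prop :=
  ∀ (n : ℕ) (L : List (List K)), (∀ v ∈ L, v.length = n) →
    (∀ v ∈ sel L, v ∈ L) ∧ Ind n (sel L) ∧ vspan n (sel L) = vspan n L

theorem Ind_length {n : ℕ} {L : List (List K)} (h : Ind n L) : L.length ≤ n := by
  have := h.fintype_card_le_finrank
  simpa using this

theorem rnd_len {sel : List (List K) → List (List K)} (hs : Spec sel)
    (a : List (List (List K)) × List (List K)) (k : ℕ) : ∀ v ∈ rnd sel a k, v.length = dm a := by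
  induction k with
  | zero =>
    rw [rnd_zero]
    have h1 : ∀ v ∈ a.2.map (pad (dm a)), v.length = dm a := by
      intro v hv
      rw [List.mem_map] at hv
      obtain ⟨w, _, rfl⟩ := hv
      exact pad_length _ _
    intro v hv
    exact h1 v ((hs _ _ h1).1 v hv)
  | succ k ih =>
    rw [rnd_succ]
    intro v hv
    exact big_length ih v ((hs _ _ (big_length ih)).1 v hv)

theorem rnd_ind {sel : List (List K) → List (List K)} (hs : Spec sel)
    (a : List (List (List K)) × List (List K)) (k : ℕ) : Ind (dm a) (rnd sel a k) := by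
  cases k with
  | zero =>
    rw [rnd_zero]
    have h1 : ∀ v ∈ a.2.map (pad (dm a)), v.length = dm a := by
      intro v hv
      rw [List.mem_map] at hv
      obtain ⟨w, _, rfl⟩ := hv
      exact pad_length _ _
    exact (hs _ _ h1).2.1
  | succ k =>
    rw [rnd_succ]
    exact (hs _ _ (big_length (rnd_len hs a k))).2.1

/-- The size of the state is bounded by its shape. -/
theorem sz_rnd_le {sel : List (List K) → List (List K)} (hs : Spec sel) {B : ℕ}
    (hB : ∀ (m n : ℕ) (M : List (List K)), M.length ≤ m → (∀ v ∈ M, v.length ≤ n) →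
      sz M ≤ m * (n * B + 2) + 1) (a : List (List (List K)) × List (List K)) (k : ℕ) :
    sz (rnd sel a k) ≤ dm a * (dm a * B + 2) + 1 :=
  hB _ _ _ (Ind_length (rnd_ind hs a k)) fun v hv => (rnd_len hs a k v hv).le

theorem Poly_rnd {sel : List (List K) → List (List K)} (hp : Poly sel) (hs : Spec sel) :
    Poly (fun a => rnd sel a (dm a)) := by
  obtain ⟨B, hB⟩ := exists_sz_tab K
  unfold rnd
  have hid : Poly (fun a : List (List (List K)) × List (List K) => a) := NPC.Poly.id
  have h2 : Poly (fun a : List (List (List K)) × List (List K) => a.2) := NPC.Poly.snd NPC.Poly.id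
  have h1 : Poly (fun a : List (List (List K)) × List (List K) => a.1) := NPC.Poly.fst NPC.Poly.id
  refine Poly_foldRange (n := dm) (s := fun a => sel (a.2.map (pad (dm a))))
    (F := fun a cur _ => sel (big (dm a) a.1 cur)) UPoly_dm ?_ ?_
    (fun a => dm a * (dm a * B + 2) + 1) ?_ ?_
  · refine hp.comp (NPC.Poly.map (F := fun a v => pad (dm a) v) h2 ?_)
    exact Poly_pad (UPoly_dm.comp (NPC.Poly.fst NPC.Poly.id)) (NPC.Poly.snd NPC.Poly.id)
  · refine hp.comp (Poly_big (UPoly_dm.comp (NPC.Poly.fst NPC.Poly.id))
      (h1.comp (NPC.Poly.fst NPC.Poly.id)) (NPC.Poly.fst (NPC.Poly.snd NPC.Poly.id)))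
  · have hd : PB (dm : List (List (List K)) × List (List K) → ℕ) := PB.of_upoly UPoly_dm
    exact (hd.mul ((hd.mul (PB.const B)).add (PB.const 2))).add (PB.const 1)
  · intro a k hk
    exact sz_rnd_le hs hB a k

/-! ### correctness -/

theorem vspan_append (n : ℕ) (A B : List (List K)) :
    vspan n (A ++ B) = vspan n A ⊔ vspan n B := by
  unfold vspan
  rw [← Submodule.span_union]
  congr 1
  ext w
  simp only [List.mem_append, Set.mem_union, Set.mem_ofPred_eq]
  constructor
  · rintro ⟨v, h | h, e⟩
    · exact Or.inl ⟨v, h, e⟩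
    · exact Or.inr ⟨v, h, e⟩
  · rintro (⟨v, h, e⟩ | ⟨v, h, e⟩)
    · exact ⟨v, Or.inl h, e⟩
    · exact ⟨v, Or.inr h, e⟩

theorem list_sum_range (n : ℕ) (f : ℕ → K) :
    ((List.range n).map f).sum = ∑ i : Fin n, f i := by
  rw [← List.sum_ofFn]
  congr 1
  apply List.ext_getElem
  · simp
  · intro i h1 h2
    simp

theorem vq_vm (n : ℕ) (v : List K) (M : List (List K)) :
    vq n (vm n v M) = vq n v ᵥ* mq n M := by
  funext j
  have h1 : (vm n v M).getD j 0 =
      ((List.range n).map fun i => v.getD i 0 * entry M i j).sum := by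
    unfold vm
    rw [List.getD_eq_getElem _ _ (by simp)]
    simp
  rw [Matrix.vecMul, dotProduct]
  unfold vq mq
  rw [h1, list_sum_range]
  try rfl

/-- one round, on subspaces -/
def T (n : ℕ) (Ms : List (List (List K))) (V : Submodule K (Fin n → K)) :
    Submodule K (Fin n → K) :=
  V ⊔ Submodule.span K {y | ∃ w ∈ V, ∃ M ∈ Ms, y = w ᵥ* mq n M}

theorem vspan_big (n : ℕ) (Ms : List (List (List K))) (cur : List (List K)) :
    vspan n (big n Ms cur) = T n Ms (vspan n cur) := by
  unfold big T
  rw [vspan_append]
  congr 1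
  apply le_antisymm
  · unfold vspan
    rw [Submodule.span_le]
    rintro y ⟨v, hv, rfl⟩
    rw [List.mem_flatMap] at hv
    obtain ⟨w, hw, hv⟩ := hv
    rw [List.mem_map] at hv
    obtain ⟨M, hM, rfl⟩ := hv
    rw [vq_vm]
    exact Submodule.subset_span ⟨vq n w, Submodule.subset_span ⟨w, hw, rfl⟩, M, hM, rfl⟩
  · rw [Submodule.span_le]
    rintro y ⟨w, hw, M, hM, rfl⟩
    have hw' : w ∈ Submodule.span K {w | ∃ v ∈ cur, w = vq n v} := hw
    induction hw' using Submodule.span_induction with
    | mem x hx =>
      obtain ⟨v, hv, rfl⟩ := hx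
      rw [← vq_vm]
      refine Submodule.subset_span ⟨vm n v M, ?_, rfl⟩
      rw [List.mem_flatMap]
      exact ⟨v, hv, List.mem_map_of_mem hM⟩
    | zero => rw [Matrix.zero_vecMul]; exact Submodule.zero_mem _
    | add x y hx hy h1 h2 =>
      rw [Matrix.add_vecMul]; exact Submodule.add_mem _ (h1 hx) (h2 hy)
    | smul c x hx h1 =>
      rw [Matrix.smul_vecMul]; exact Submodule.smul_mem _ _ (h1 hx)

theorem T_ge (n : ℕ) (Ms : List (List (List K))) (V : Submodule K (Fin n → K)) : V ≤ T n Ms V :=
  le_sup_left

theorem T_mem {n : ℕ} {Ms : List (List (List K))} {V : Submodule K (Fin n → K)}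
    {w : Fin n → K} (hw : w ∈ V) {M : List (List K)} (hM : M ∈ Ms) : w ᵥ* mq n M ∈ T n Ms V :=
  Submodule.mem_sup_right (Submodule.subset_span ⟨w, hw, M, hM, rfl⟩)

theorem T_le {n : ℕ} {Ms : List (List (List K))} {V U : Submodule K (Fin n → K)} (h : V ≤ U)
    (hU : ∀ M ∈ Ms, ∀ w ∈ U, w ᵥ* mq n M ∈ U) : T n Ms V ≤ U := by
  refine sup_le h ?_
  rw [Submodule.span_le]
  rintro y ⟨w, hw, M, hM, rfl⟩
  exact hU M hM w (h hw)

theorem T_stable (n : ℕ) (Ms : List (List (List K))) (V : Submodule K (Fin n → K)) :
    T n Ms ((T n Ms)^[n] V) = (T n Ms)^[n] V := by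
  by_contra hne
  have key : ∀ k ≤ n, (T n Ms)^[k] V < (T n Ms)^[k + 1] V := by
    intro k hk
    rw [Function.iterate_succ_apply']
    refine lt_of_le_of_ne (T_ge _ _ _) fun h => hne ?_
    have h2 : ∀ j, (T n Ms)^[k + j] V = (T n Ms)^[k] V := by
      intro j
      induction j with
      | zero => rfl
      | succ j ih =>
        rw [← add_assoc, Function.iterate_succ_apply', ih, ← h]
    have h3 := h2 (n - k)
    have h4 : k + (n - k) = n := by omega
    rw [h4] at h3
    rw [h3]
    exact h.symm
  have h5 : ∀ k ≤ n + 1, k ≤ Module.finrank K ((T n Ms)^[k] V) := by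
    intro k
    induction k with
    | zero => intro _; exact Nat.zero_le _
    | succ k ih =>
      intro hk
      have h6 := ih (by omega)
      have h7 := Submodule.finrank_lt_finrank_of_lt (key k (by omega))
      omega
  have h8 := h5 (n + 1) le_rfl
  have h9 := Submodule.finrank_le ((T n Ms)^[n + 1] V)
  simp only [Module.finrank_fintype_fun_eq_card, Fintype.card_fin] at h9
  omega

end Field

end Clo

open Clo in
theorem clo (K : Type) [Field K] [Finite K] [DecidableEq K] [TEnc K] (h : SelS K) : CloS K := by
  obtain ⟨sel, hp, hs⟩ := h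
  have hs' : Spec sel := hs
  refine ⟨fun a => rnd sel a (dm a), Poly_rnd hp hs', ?_⟩
  intro n Ms L hMs hL
  by_cases hLe : L = []
  · -- the empty list
    subst hLe
    have hd : dm (Ms, ([] : List (List K))) = 0 := rfl
    have he : rnd sel (Ms, ([] : List (List K))) (dm (Ms, ([] : List (List K)))) = [] := by
      rw [hd, rnd_zero]
      have := (hs 0 [] (by simp)).1
      simp only [List.map_nil]
      exact List.eq_nil_iff_forall_not_mem.mpr fun v hv => by simpa using this v hv
    simp only [he]
    have hbot : vspan n ([] : List (List K)) = ⊥ := by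
      unfold vspan
      simp
    refine ⟨by simp, ?_, le_refl _, ?_, ?_⟩
    · unfold Ind
      have : IsEmpty (Fin ([] : List (List K)).length) := by
        rw [List.length_nil]; exact Fin.isEmpty
      exact linearIndependent_empty_type
    · intro M _ w hw
      rw [hbot, Submodule.mem_bot] at hw
      rw [hw, Matrix.zero_vecMul]
      exact Submodule.zero_mem _
    · intro U _ _
      rw [hbot]
      exact bot_le
  · have hd : dm (Ms, L) = n := by
      unfold dm
      obtain ⟨v, L', rfl⟩ := List.exists_cons_of_ne_nil hLe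
      simpa using hL v (by simp)
    set a : List (List (List K)) × List (List K) := (Ms, L) with ha
    have hpad : a.2.map (pad (dm a)) = L := by
      rw [hd]
      conv_rhs => rw [← List.map_id L]
      apply List.map_congr_left
      intro v hv
      exact pad_eq (hL v hv)
    have hspan : ∀ k, vspan n (rnd sel a k) = (T n Ms)^[k] (vspan n L) := by
      intro k
      induction k with
      | zero =>
        rw [rnd_zero, hpad]
        exact (hs n L hL).2.2
      | succ k ih =>
        rw [rnd_succ, Function.iterate_succ_apply', ← ih, ← vspan_big, hd]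
        have h1 := rnd_len hs' a k
        rw [hd] at h1
        exact (hs n _ (big_length h1)).2.2
    have hlen := rnd_len hs' a (dm a)
    have hind := rnd_ind hs' a (dm a)
    rw [hd] at hlen hind
    have hstab := T_stable n Ms (vspan n L)
    simp only [hd]
    rw [hspan n]
    refine ⟨hlen, hind, ?_, ?_, ?_⟩
    · have : ∀ k, vspan n L ≤ (T n Ms)^[k] (vspan n L) := by
        intro k
        induction k with
        | zero => exact le_refl _
        | succ k ih =>
          rw [Function.iterate_succ_apply']
          exact ih.trans (T_ge _ _ _)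
      exact this n
    · intro M hM w hw
      have := T_mem hw hM
      rwa [hstab] at this
    · intro U hU hUM
      have : ∀ k, (T n Ms)^[k] (vspan n L) ≤ U := by
        intro k
        induction k with
        | zero => exact hU
        | succ k ih =>
          rw [Function.iterate_succ_apply']
          exact T_le ih hUM
      exact this n

end Pool.Agent.H420_NCF.FF
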