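import Pool.Agent.H420_NCF.Spec2
import Pool.Agent.H420_NCF.FF.Base

/-!
# Module E1: splitting a reduced commutative algebra over a finite field
-/

set_option linter.unusedSectionVars false

namespace Pool.Agent.H420_NCF.FF

open Pool.Agent.NPC Pool.Agent.NPC.H532
open scoped Matrix

namespace E1

section Alg
variable {K E : Type} [Field K] [Fintype K] [CommRing E] [Algebra K E]

/-- The idempotent attached to `w` and the scalar `s`. -/
def idm (w : E) (s : K) : E := 1 - (w - algebraMap K E s) ^ (Fintype.card K - 1)

theorem one_lt : 1 < Fintype.card K := Fintype.one_lt_card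

theorem frob_sub (x y : E) :
    (x - y) ^ Fintype.card K = x ^ Fintype.card K - y ^ Fintype.card K :=
  map_sub (FiniteField.frobeniusAlgHom K E) x y

theorem prod_poly : ∏ s : K, ((Polynomial.X : Polynomial K) - Polynomial.C s) =
    Polynomial.X ^ Fintype.card K - Polynomial.X := by
  have h1 : (Polynomial.X ^ Fintype.card K - Polynomial.X : Polynomial K).Monic :=
    Polynomial.monic_X_pow_sub (by
      rw [Polynomial.degree_X]
      exact_mod_cast one_lt (K := K))
  have h2 := Polynomial.prod_multiset_X_sub_C_of_monic_of_roots_card_eq h1 (by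
    rw [FiniteField.roots_X_pow_card_sub_X, FiniteField.X_pow_card_sub_X_natDegree_eq K one_lt]
    rfl)
  rw [FiniteField.roots_X_pow_card_sub_X] at h2
  exact h2

theorem prod_sub (w : E) : ∏ s : K, (w - algebraMap K E s) = w ^ Fintype.card K - w := by
  have h := congrArg (Polynomial.aeval w) (prod_poly (K := K))
  simpa [map_prod] using h

theorem ann {w : E} (hw : w ^ Fintype.card K = w) (s : K) :
    (w - algebraMap K E s) * idm w s = 0 := by
  unfold idm
  have h1 : (w - algebraMap K E s) * (w - algebraMap K E s) ^ (Fintype.card K - 1) =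
      (w - algebraMap K E s) ^ Fintype.card K := by
    rw [← pow_succ', Nat.sub_add_cancel one_lt.le]
  rw [mul_sub, mul_one, h1, frob_sub, hw, ← map_pow, FiniteField.pow_card, sub_self]

theorem pow_mul_idm {w : E} (hw : w ^ Fintype.card K = w) (s t : K) (n : ℕ) :
    (w - algebraMap K E t) ^ n * idm w s = (algebraMap K E (s - t)) ^ n * idm w s := by
  induction n with
  | zero => simp
  | succ n ih =>
    have h1 : (w - algebraMap K E t) * idm w s = algebraMap K E (s - t) * idm w s := by
      have h2 := ann hw s
      rw [map_sub]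
      linear_combination h2
    rw [pow_succ, mul_assoc, h1, mul_left_comm, ih, pow_succ]
    ring

theorem idm_mul_self {w : E} (hw : w ^ Fintype.card K = w) (s : K) :
    idm w s * idm w s = idm w s := by
  have h1 := pow_mul_idm hw s s (Fintype.card K - 1)
  rw [sub_self, map_zero, zero_pow (Nat.sub_ne_zero_of_lt one_lt), zero_mul] at h1
  calc idm w s * idm w s
      = idm w s - (w - algebraMap K E s) ^ (Fintype.card K - 1) * idm w s := by
        conv_lhs => rw [idm, ← idm]
        unfold idm; ring
    _ = idm w s := by rw [h1, sub_zero]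

theorem idm_mul {w : E} (hw : w ^ Fintype.card K = w) {s t : K} (hst : s ≠ t) :
    idm w s * idm w t = 0 := by
  have h1 := pow_mul_idm hw t s (Fintype.card K - 1)
  rw [← map_pow, FiniteField.pow_card_sub_one_eq_one _ (sub_ne_zero.2 hst.symm), map_one,
    one_mul] at h1
  calc idm w s * idm w t
      = idm w t - (w - algebraMap K E s) ^ (Fintype.card K - 1) * idm w t := by
        unfold idm; ring
    _ = 0 := by rw [h1, sub_self]

theorem sum_idm {w : E} (hw : w ^ Fintype.card K = w) : ∑ s : K, idm w s = 1 := by
  classical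
  set u : E := 1 - ∑ s : K, idm w s with hu
  have h1 : ∀ s : K, idm w s * u = 0 := by
    intro s
    rw [hu, mul_sub, mul_one, Finset.mul_sum, Finset.sum_eq_single s, idm_mul_self hw, sub_self]
    · intro t _ hts
      exact idm_mul hw (Ne.symm hts)
    · intro h; exact absurd (Finset.mem_univ s) h
  have h2 : ∀ s : K, (w - algebraMap K E s) ^ (Fintype.card K - 1) * u = u := by
    intro s
    have := h1 s
    unfold idm at this
    linear_combination (-1 : E) * this
  have h3 : ∀ S : Finset K, (∏ s ∈ S, (w - algebraMap K E s) ^ (Fintype.card K - 1)) * u = u := by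
    intro S
    induction S using Finset.induction_on with
    | empty => simp
    | insert s S hs ih => rw [Finset.prod_insert hs, mul_assoc, ih, h2]
  have h4 := h3 Finset.univ
  rw [Finset.prod_pow, prod_sub, hw, sub_self, zero_pow (Nat.sub_ne_zero_of_lt one_lt),
    zero_mul] at h4
  have : 1 - ∑ s : K, idm w s = 0 := by rw [← hu, ← h4]
  exact (sub_eq_zero.1 this).symm

theorem mul_idm {w : E} (hw : w ^ Fintype.card K = w) (s : K) : w * idm w s = s • idm w s := by
  have h := ann hw s
  rw [sub_mul, sub_eq_zero] at h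
  rw [h, Algebra.smul_def]

/-- Some positive power of any element of a finite monoid is idempotent. -/
theorem exists_idem_pow {M : Type} [Monoid M] [Finite M] (y : M) :
    ∃ n : ℕ, 0 < n ∧ y ^ n * y ^ n = y ^ n := by
  obtain ⟨a, b, hab, h⟩ : ∃ a b : ℕ, a < b ∧ y ^ a = y ^ b := by
    obtain ⟨a, b, hne, h⟩ := Finite.exists_ne_map_eq_of_infinite (fun n : ℕ => y ^ n)
    rcases lt_or_gt_of_ne hne with h' | h'
    · exact ⟨a, b, h', h⟩
    · exact ⟨b, a, h', h.symm⟩
  obtain ⟨p, hp, rfl⟩ : ∃ p, 0 < p ∧ b = a + p := ⟨b - a, by omega, by omega⟩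
  have h1 : ∀ k : ℕ, y ^ (a + k * p) = y ^ a := by
    intro k
    induction k with
    | zero => simp
    | succ k ih =>
      have : a + (k + 1) * p = (a + p) + k * p := by ring
      rw [this, pow_add, ← h, ← pow_add, ih]
  have h2 : ∀ m k : ℕ, a ≤ m → y ^ (m + k * p) = y ^ m := by
    intro m k hm
    obtain ⟨c, rfl⟩ := Nat.exists_eq_add_of_le hm
    have : a + c + k * p = (a + k * p) + c := by ring
    rw [this, pow_add, h1, ← pow_add]
  refine ⟨(a + 1) * p, by positivity, ?_⟩
  rw [← pow_add]
  apply h2
  nlinarith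

/-- Annihilators of primitive idempotents of finite reduced rings are maximal. -/
theorem max_of_prim [Finite E] (hred : IsReduced E) {e : E} (he0 : e ≠ 0) (hee : e * e = e)
    (hprim : ∀ f : E, f * f = f → f * e = f → f = 0 ∨ f = e) :
    (Ideal.span {1 - e} : Ideal E).IsMaximal ∧
      ∀ x, x ∈ (Ideal.span {1 - e} : Ideal E) ↔ e * x = 0 := by
  have hmem : ∀ x, x ∈ (Ideal.span {1 - e} : Ideal E) ↔ e * x = 0 := by
    intro x
    rw [Ideal.mem_span_singleton]
    constructor
    · rintro ⟨y, rfl⟩
      have : e * ((1 - e) * y) = (e - e * e) * y := by ring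
      rw [this, hee, sub_self, zero_mul]
    · intro h
      exact ⟨x, by linear_combination h⟩
  refine ⟨?_, hmem⟩
  rw [Ideal.isMaximal_iff]
  refine ⟨?_, ?_⟩
  · rw [hmem, mul_one]; exact he0
  · intro J x hJ hx hxJ
    rw [hmem] at hx
    obtain ⟨n, hn, hid⟩ := exists_idem_pow (e * x)
    have hne : (e * x) ^ n ≠ 0 := by
      intro h0
      exact hx (hred.eq_zero _ ⟨n, h0⟩)
    have hepow : ∀ m : ℕ, 0 < m → e ^ m = e := by
      intro m hm
      induction m with
      | zero => omega
      | succ m ih =>
        rcases Nat.eq_zero_or_pos m with rfl | hm'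
        · simp
        · rw [pow_succ, ih hm', hee]
    have h1 : (e * x) ^ n = e * x ^ n := by rw [mul_pow, hepow n hn]
    rw [h1] at hid hne
    have h2 : e * x ^ n * e = e * x ^ n := by
      linear_combination x ^ n * hee
    rcases hprim _ hid h2 with h3 | h3
    · exact absurd h3 hne
    · have h4 : 1 - x ^ n ∈ J := hJ ((hmem _).2 (by rw [mul_sub, mul_one, h3, sub_self]))
      have h5 : x ^ n ∈ J := J.pow_mem_of_mem hxJ n hn
      have := J.add_mem h4 h5
      simpa using this

end Alg

section Algo
variable {K : Type} [Field K] [Finite K] [DecidableEq K] [TEnc K]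
variable {α : Type} [TEnc α]

/-- Product of coordinate vectors. -/
def mulv (γ : List (List (List K))) (u v : List K) : List K :=
  (List.range γ.length).map fun l => ((List.range γ.length).map fun i =>
    ((List.range γ.length).map fun j => u.getD i 0 * v.getD j 0 * gm γ i j l).sum).sum

/-- Unit vectors. -/
def unitv (γ : List (List (List K))) (i : ℕ) : List K :=
  (List.range γ.length).map fun l => if l = i then 1 else 0

/-- Linear combinations of two vectors. -/
def combv (γ : List (List (List K))) (c : K) (u : List K) (d : K) (v : List K) : List K :=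
  (List.range γ.length).map fun l => c * u.getD l 0 + d * v.getD l 0

/-- Powers. -/
def powv (γ : List (List (List K))) (u : List K) : ℕ → List K
  | 0 => unitv γ 0
  | n + 1 => mulv γ (powv γ u n) u

/-- The idempotent attached to `w` and `s`; `q` is the number of elements of the field. -/
def idv (q : ℕ) (γ : List (List (List K))) (w : List K) (s : K) : List K :=
  combv γ 1 (unitv γ 0) (-1) (powv γ (combv γ 1 w (-s) (unitv γ 0)) (q - 1))

/-- The rows of the Frobenius endomorphism minus the identity. -/
def rowsW (q : ℕ) (γ : List (List (List K))) : List (List K) :=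
  (List.range γ.length).map fun i => combv γ 1 (powv γ (unitv γ i) q) (-1) (unitv γ i)

/-- The rows of the multiplication by `e`. -/
def rowsE (γ : List (List (List K))) (e : List K) : List (List K) :=
  (List.range γ.length).map fun i => mulv γ e (unitv γ i)

/-- The vector is not zero. -/
def nz (u : List K) : Bool := u.any fun c => !decide (c = 0)

/-- Refinement before truncation. -/
def refi (q : ℕ) (S : List K) (γ : List (List (List K))) (L : List (List K)) (w : List K) :
    List (List K) :=
  (L.flatMap fun e => S.map fun s => mulv γ e (idv q γ w s)).filter nz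

/-- One refinement step. -/
def stepv (q : ℕ) (S : List K) (γ : List (List (List K))) (L : List (List K)) (w : List K) :
    List (List K) :=
  ((refi q S γ L w).zip (List.range γ.length)).map Prod.fst

/-- The idempotents. -/
def idems (q : ℕ) (S : List K) (γ : List (List (List K))) (W : List (List K)) : List (List K) :=
  W.foldl (stepv q S γ) [unitv γ 0]

/-- The splitting algorithm. -/
def spv (kq : List (List K) → List (List K)) (q : ℕ) (S : List K) (γ : List (List (List K))) :
    List (List (List K)) :=
  (idems q S γ (kq (rowsW q γ))).map fun e => kq (rowsE γ e)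

theorem Poly_mulv {g : α → List (List (List K))} {u v : α → List K} (hg : Poly g) (hu : Poly u)
    (hv : Poly v) : Poly (fun a => mulv (g a) (u a) (v a)) := by
  unfold mulv
  refine NPC.Poly.map (F := fun a l => ((List.range (g a).length).map fun i =>
    ((List.range (g a).length).map fun j =>
      (u a).getD i 0 * (v a).getD j 0 * gm (g a) i j l).sum).sum) (NPC.Poly.range_length hg) ?_
  refine Poly_sumK ?_
  have a1 : Poly (fun p : α × ℕ => p.1) := NPC.Poly.fst NPC.Poly.id
  refine NPC.Poly.map (α := α × ℕ) (F := fun p i => ((List.range (g p.1).length).map fun j =>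
      (u p.1).getD i 0 * (v p.1).getD j 0 * gm (g p.1) i j p.2).sum)
    (NPC.Poly.range_length (hg.comp a1)) ?_
  refine Poly_sumK ?_
  have a2 : Poly (fun p : (α × ℕ) × ℕ => p.1.1) := NPC.Poly.fst (NPC.Poly.fst NPC.Poly.id)
  refine NPC.Poly.map (α := (α × ℕ) × ℕ) (F := fun p j =>
      (u p.1.1).getD p.2 0 * (v p.1.1).getD j 0 * gm (g p.1.1) p.2 j p.1.2)
    (NPC.Poly.range_length (hg.comp a2)) ?_
  have b1 : Poly (fun p : ((α × ℕ) × ℕ) × ℕ => p.1.1.1) :=
    NPC.Poly.fst (NPC.Poly.fst (NPC.Poly.fst NPC.Poly.id))
  have b2 : Poly (fun p : ((α × ℕ) × ℕ) × ℕ => p.1.1.2) :=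
    NPC.Poly.snd (NPC.Poly.fst (NPC.Poly.fst NPC.Poly.id))
  have b3 : Poly (fun p : ((α × ℕ) × ℕ) × ℕ => p.1.2) := NPC.Poly.snd (NPC.Poly.fst NPC.Poly.id)
  have b4 : Poly (fun p : ((α × ℕ) × ℕ) × ℕ => p.2) := NPC.Poly.snd NPC.Poly.id
  unfold gm
  exact Poly_mulK (Poly_mulK (NPC.Poly.getD (hu.comp b1) b3 (NPC.Poly.const _))
    (NPC.Poly.getD (hv.comp b1) b4 (NPC.Poly.const _)))
    (Poly_entryK (NPC.Poly.getD (hg.comp b1) b3 (NPC.Poly.const _)) b4 b2)

theorem Poly_unitv {g : α → List (List (List K))} {i : α → ℕ} (hg : Poly g) (hi : Poly i) :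
    Poly (fun a => unitv (g a) (i a)) := by
  unfold unitv
  refine NPC.Poly.map (F := fun a l => if l = i a then (1 : K) else 0)
    (NPC.Poly.range_length hg) ?_
  exact NPC.Poly.ite (NPC.Poly.decide_eq (NPC.Poly.snd NPC.Poly.id)
    (hi.comp (NPC.Poly.fst NPC.Poly.id))) (NPC.Poly.const _) (NPC.Poly.const _)

theorem Poly_combv {g : α → List (List (List K))} {c d : α → K} {u v : α → List K} (hg : Poly g)
    (hc : Poly c) (hu : Poly u) (hd : Poly d) (hv : Poly v) :
    Poly (fun a => combv (g a) (c a) (u a) (d a) (v a)) := by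
  unfold combv
  refine NPC.Poly.map (F := fun a l => c a * (u a).getD l 0 + d a * (v a).getD l 0)
    (NPC.Poly.range_length hg) ?_
  have b1 : Poly (fun p : α × ℕ => p.1) := NPC.Poly.fst NPC.Poly.id
  have b2 : Poly (fun p : α × ℕ => p.2) := NPC.Poly.snd NPC.Poly.id
  exact Poly_addK (Poly_mulK (hc.comp b1) (NPC.Poly.getD (hu.comp b1) b2 (NPC.Poly.const _)))
    (Poly_mulK (hd.comp b1) (NPC.Poly.getD (hv.comp b1) b2 (NPC.Poly.const _)))

theorem Poly_powv {g : α → List (List (List K))} {u : α → List K} (hg : Poly g) (hu : Poly u)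
    (n : ℕ) : Poly (fun a => powv (g a) (u a) n) := by
  induction n with
  | zero => exact Poly_unitv hg (NPC.Poly.const _)
  | succ n ih => exact Poly_mulv hg ih hu

theorem Poly_idv (q : ℕ) {g : α → List (List (List K))} {w : α → List K} {s : α → K}
    (hg : Poly g) (hw : Poly w) (hs : Poly s) : Poly (fun a => idv q (g a) (w a) (s a)) := by
  unfold idv
  exact Poly_combv hg (NPC.Poly.const _) (Poly_unitv hg (NPC.Poly.const _)) (NPC.Poly.const _)
    (Poly_powv hg (Poly_combv hg (NPC.Poly.const _) hw (Poly_negK hs)
      (Poly_unitv hg (NPC.Poly.const _))) _)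

theorem Poly_rowsW (q : ℕ) {g : α → List (List (List K))} (hg : Poly g) :
    Poly (fun a => rowsW q (g a)) := by
  unfold rowsW
  refine NPC.Poly.map (F := fun a i =>
    combv (g a) 1 (powv (g a) (unitv (g a) i) q) (-1) (unitv (g a) i))
    (NPC.Poly.range_length hg) ?_
  have b1 : Poly (fun p : α × ℕ => g p.1) := hg.comp (NPC.Poly.fst NPC.Poly.id)
  have b2 : Poly (fun p : α × ℕ => p.2) := NPC.Poly.snd NPC.Poly.id
  exact Poly_combv b1 (NPC.Poly.const _) (Poly_powv b1 (Poly_unitv b1 b2) _) (NPC.Poly.const _)
    (Poly_unitv b1 b2)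

theorem Poly_rowsE {g : α → List (List (List K))} {e : α → List K} (hg : Poly g) (he : Poly e) :
    Poly (fun a => rowsE (g a) (e a)) := by
  unfold rowsE
  refine NPC.Poly.map (F := fun a i => mulv (g a) (e a) (unitv (g a) i))
    (NPC.Poly.range_length hg) ?_
  have b1 : Poly (fun p : α × ℕ => g p.1) := hg.comp (NPC.Poly.fst NPC.Poly.id)
  have b2 : Poly (fun p : α × ℕ => p.2) := NPC.Poly.snd NPC.Poly.id
  exact Poly_mulv b1 (he.comp (NPC.Poly.fst NPC.Poly.id)) (Poly_unitv b1 b2)

theorem Poly_nz {u : α → List K} (hu : Poly u) : Poly (fun a => nz (u a)) := by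
  unfold nz
  exact NPC.Poly.any (p := fun _ c => !decide (c = 0)) hu
    (NPC.Poly.not (NPC.Poly.decide_eq (NPC.Poly.snd NPC.Poly.id) (NPC.Poly.const _)))

theorem Poly_refi (q : ℕ) (S : List K) {g : α → List (List (List K))} {L : α → List (List K)}
    {w : α → List K} (hg : Poly g) (hL : Poly L) (hw : Poly w) :
    Poly (fun a => refi q S (g a) (L a) (w a)) := by
  unfold refi
  refine NPC.Poly.filter (p := fun _ v => nz v) ?_ (Poly_nz (NPC.Poly.snd NPC.Poly.id))
  refine NPC.Poly.flatMap (F := fun a e => S.map fun s => mulv (g a) e (idv q (g a) (w a) s))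
    hL ?_
  have a1 : Poly (fun p : α × List K => p.1) := NPC.Poly.fst NPC.Poly.id
  have a2 : Poly (fun p : α × List K => p.2) := NPC.Poly.snd NPC.Poly.id
  refine NPC.Poly.map (α := α × List K)
    (F := fun p s => mulv (g p.1) p.2 (idv q (g p.1) (w p.1) s)) (NPC.Poly.const S) ?_
  have b1 : Poly (fun p : (α × List K) × K => p.1) := NPC.Poly.fst NPC.Poly.id
  have b2 : Poly (fun p : (α × List K) × K => p.2) := NPC.Poly.snd NPC.Poly.id
  exact Poly_mulv ((hg.comp a1).comp b1) (a2.comp b1)
    (Poly_idv q ((hg.comp a1).comp b1) ((hw.comp a1).comp b1) b2)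

theorem Poly_stepv (q : ℕ) (S : List K) {g : α → List (List (List K))} {L : α → List (List K)}
    {w : α → List K} (hg : Poly g) (hL : Poly L) (hw : Poly w) :
    Poly (fun a => stepv q S (g a) (L a) (w a)) := by
  unfold stepv
  exact NPC.Poly.map (F := fun _ p => Prod.fst p)
    (NPC.Poly.zip (Poly_refi q S hg hL hw) (NPC.Poly.range_length hg))
    (NPC.Poly.fst (NPC.Poly.snd NPC.Poly.id))

theorem mulv_length (γ : List (List (List K))) (u v : List K) :
    (mulv γ u v).length = γ.length := by simp [mulv]

theorem unitv_length (γ : List (List (List K))) (i : ℕ) :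
    (unitv γ i).length = γ.length := by simp [unitv]

theorem combv_length (γ : List (List (List K))) (c : K) (u : List K) (d : K) (v : List K) :
    (combv γ c u d v).length = γ.length := by simp [combv]

theorem powv_length (γ : List (List (List K))) (u : List K) (n : ℕ) :
    (powv γ u n).length = γ.length := by
  cases n with
  | zero => exact unitv_length γ 0
  | succ n => exact mulv_length γ _ _

theorem mem_refi {q : ℕ} {S : List K} {γ : List (List (List K))} {L : List (List K)}
    {w v : List K} (h : v ∈ refi q S γ L w) :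
    (∃ e ∈ L, ∃ s ∈ S, v = mulv γ e (idv q γ w s)) ∧ nz v = true := by
  unfold refi at h
  rw [List.mem_filter, List.mem_flatMap] at h
  obtain ⟨⟨e, he, h1⟩, h2⟩ := h
  rw [List.mem_map] at h1
  obtain ⟨s, hs, rfl⟩ := h1
  exact ⟨⟨e, he, s, hs, rfl⟩, h2⟩

theorem stepv_len (q : ℕ) (S : List K) (γ : List (List (List K))) (L : List (List K))
    (w : List K) : (stepv q S γ L w).length ≤ γ.length ∧
      ∀ v ∈ stepv q S γ L w, v.length = γ.length := by
  unfold stepv
  constructor
  · simp
  · intro v hv
    rw [List.mem_map] at hv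
    obtain ⟨p, hp, rfl⟩ := hv
    have h1 := (List.of_mem_zip hp).1
    obtain ⟨⟨e, _, s, _, h2⟩, _⟩ := mem_refi h1
    rw [h2, mulv_length]

theorem idems_len (q : ℕ) (S : List K) (γ : List (List (List K))) (W : List (List K)) :
    (idems q S γ W).length ≤ γ.length + 1 ∧ ∀ v ∈ idems q S γ W, v.length = γ.length := by
  unfold idems
  induction W using List.reverseRecOn with
  | nil => simp [unitv_length]
  | append_singleton W w _ =>
    rw [List.foldl_append, List.foldl_cons, List.foldl_nil]
    have h := stepv_len q S γ (List.foldl (stepv q S γ) [unitv γ 0] W) w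
    exact ⟨h.1.trans (Nat.le_succ _), h.2⟩

theorem Poly_idems (q : ℕ) (S : List K) {g : α → List (List (List K))} {W : α → List (List K)}
    (hg : Poly g) (hW : Poly W) : Poly (fun a => idems q S (g a) (W a)) := by
  obtain ⟨B, hB⟩ := exists_sz_tab K
  have hlen := PB.length hg
  refine Poly_foldl (F := fun a L w => stepv q S (g a) L w) hW
    (NPC.Poly.cons (Poly_unitv hg (NPC.Poly.const _)) (NPC.Poly.const _)) ?_
    (fun a => ((g a).length + 1) * ((g a).length * B + 2) + 1) ?_ ?_
  · exact Poly_stepv q S (hg.comp (NPC.Poly.fst NPC.Poly.id))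
      (NPC.Poly.fst (NPC.Poly.snd NPC.Poly.id)) (NPC.Poly.snd (NPC.Poly.snd NPC.Poly.id))
  · exact PB.add (PB.mul (PB.add hlen (PB.const _))
      (PB.add (PB.mul hlen (PB.const _)) (PB.const _))) (PB.const _)
  · intro a k _
    have h := idems_len q S (g a) ((W a).take k)
    exact hB _ _ _ h.1 fun v hv => (h.2 v hv).le

theorem Poly_spv {kq : List (List K) → List (List K)} (hkq : Poly kq) (q : ℕ) (S : List K) :
    Poly (spv kq q S) := by
  unfold spv
  refine NPC.Poly.map (F := fun g e => kq (rowsE g e))
    (Poly_idems q S NPC.Poly.id (hkq.comp (Poly_rowsW q NPC.Poly.id))) ?_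
  exact hkq.comp (Poly_rowsE (NPC.Poly.fst NPC.Poly.id) (NPC.Poly.snd NPC.Poly.id))

end Algo

section Sem
variable {K E : Type} [Field K] [Fintype K] [DecidableEq K] [TEnc K] [CommRing E] [Algebra K E]
variable {r : ℕ} (b : Module.Basis (Fin r) K E)

/-- The element with given coordinates. -/
noncomputable def el (v : List K) : E := b.equivFun.symm (vq r v)

theorem el_eq (v : List K) : el b v = ∑ i : Fin r, v.getD i 0 • b i := by
  unfold el
  rw [Module.Basis.equivFun_symm_apply]
  rfl

theorem getD_map_range {β : Type} (n l : ℕ) (f : ℕ → β) (d : β) (h : l < n) :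
    ((List.range n).map f).getD l d = f l := by
  rw [List.getD_eq_getElem _ _ (by simpa using h)]
  simp

variable {γ : List (List (List K))}

theorem el_mulv (ho : IsOrder r γ E b) (u v : List K) :
    el b (mulv γ u v) = el b u * el b v := by
  rw [el_eq b u, el_eq b v, Finset.sum_mul_sum]
  have h1 : ∀ i j : Fin r, (u.getD i 0 • b i) * (v.getD j 0 • b j) =
      ∑ l : Fin r, (u.getD i 0 * v.getD j 0 * gm γ i j l) • b l := by
    intro i j
    rw [smul_mul_smul_comm, ho.mul, Finset.smul_sum]
    exact Finset.sum_congr rfl fun l _ => by rw [smul_smul]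
  have h2 : ∀ l : Fin r, (mulv γ u v).getD l 0 =
      ∑ i : Fin r, ∑ j : Fin r, u.getD i 0 * v.getD j 0 * gm γ i j l := by
    intro l
    unfold mulv
    rw [getD_map_range _ _ _ _ (by rw [ho.len]; exact l.2), ho.len,
      ← sum_fin_eq_list r fun i => ((List.range r).map fun j =>
        u.getD i 0 * v.getD j 0 * gm γ i j l).sum]
    exact Finset.sum_congr rfl fun i _ =>
      (sum_fin_eq_list r fun j => u.getD i 0 * v.getD j 0 * gm γ i j l).symm
  rw [el_eq]
  simp only [h1, h2, Finset.sum_smul]
  rw [Finset.sum_comm]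
  exact Finset.sum_congr rfl fun i _ => Finset.sum_comm

theorem el_unitv (ho : IsOrder r γ E b) (i : Fin r) : el b (unitv γ i) = b i := by
  rw [el_eq, Finset.sum_eq_single i]
  · unfold unitv
    rw [getD_map_range _ _ _ _ (by rw [ho.len]; exact i.2), if_pos rfl, one_smul]
  · intro j _ hj
    unfold unitv
    rw [getD_map_range _ _ _ _ (by rw [ho.len]; exact j.2), if_neg, zero_smul]
    intro h
    exact hj (Fin.ext h)
  · intro h; exact absurd (Finset.mem_univ i) h

theorem el_unitv_zero (ho : IsOrder r γ E b) : el b (unitv γ 0) = 1 := by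
  rw [← ho.one]
  exact el_unitv b ho ⟨0, ho.pos⟩

theorem el_combv (ho : IsOrder r γ E b) (c : K) (u : List K) (d : K) (v : List K) :
    el b (combv γ c u d v) = c • el b u + d • el b v := by
  rw [el_eq b u, el_eq b v, Finset.smul_sum, Finset.smul_sum, ← Finset.sum_add_distrib, el_eq]
  refine Finset.sum_congr rfl fun l _ => ?_
  unfold combv
  rw [getD_map_range _ _ _ _ (by rw [ho.len]; exact l.2), smul_smul, smul_smul, ← add_smul]

theorem el_powv (ho : IsOrder r γ E b) (u : List K) (n : ℕ) :
    el b (powv γ u n) = el b u ^ n := by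
  induction n with
  | zero => rw [pow_zero]; exact el_unitv_zero b ho
  | succ n ih =>
    change el b (mulv γ (powv γ u n) u) = _
    rw [el_mulv b ho, ih, pow_succ]

theorem el_idv (ho : IsOrder r γ E b) (w : List K) (s : K) :
    el b (idv (Fintype.card K) γ w s) = idm (el b w) s := by
  unfold idv idm
  rw [el_combv b ho, el_powv b ho, el_combv b ho, el_unitv_zero b ho, one_smul, one_smul,
    neg_smul, neg_smul, one_smul, ← sub_eq_add_neg, ← sub_eq_add_neg, Algebra.algebraMap_eq_smul_one]

theorem el_eq_zero {u : List K} (hu : u.length = r) : el b u = 0 ↔ ∀ c ∈ u, c = 0 := by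
  unfold el
  rw [LinearEquiv.map_eq_zero_iff]
  constructor
  · intro h c hc
    obtain ⟨i, hi, rfl⟩ := List.mem_iff_getElem.1 hc
    have := congrFun h ⟨i, hu ▸ hi⟩
    simp only [vq, Pi.zero_apply] at this
    rwa [List.getD_eq_getElem _ _ hi] at this
  · intro h
    funext i
    have hi : (i : ℕ) < u.length := by rw [hu]; exact i.2
    simp only [vq, Pi.zero_apply]
    rw [List.getD_eq_getElem _ _ hi]
    exact h _ (List.getElem_mem hi)

theorem nz_iff {u : List K} (hu : u.length = r) : nz u = true ↔ el b u ≠ 0 := by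
  rw [Ne, el_eq_zero b hu]
  unfold nz
  simp

/-- Relations compute kernels. -/
theorem ker_span {kq : List (List K) → List (List K)}
    (hkq : ∀ (X : List (List K)) (q : ℕ), (∀ r ∈ X, r.length = q) →
      (∀ u ∈ kq X, u.length = X.length ∧
        ∑ i : Fin X.length, u.getD i 0 • vq q (X.getD i []) = 0) ∧
      ∀ c : Fin X.length → K, ∑ i, c i • vq q (X.getD i []) = 0 → c ∈ vspan X.length (kq X))
    (X : List (List K)) (hX : X.length = r) (hrow : ∀ v ∈ X, v.length = r) (T : E →ₗ[K] E)
    (hT : ∀ i : Fin r, el b (X.getD i []) = T (b i)) :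
    (∀ u ∈ kq X, u.length = r) ∧
      ∀ x : Fin r → K, x ∈ vspan r (kq X) ↔ T (b.equivFun.symm x) = 0 := by
  have key : ∀ c : Fin r → K, T (b.equivFun.symm c) = 0 ↔
      ∑ i : Fin r, c i • vq r (X.getD i []) = 0 := by
    intro c
    have h1 : T (b.equivFun.symm c) = b.equivFun.symm (∑ i : Fin r, c i • vq r (X.getD i [])) := by
      rw [Module.Basis.equivFun_symm_apply, map_sum, map_sum]
      refine Finset.sum_congr rfl fun i _ => ?_
      rw [map_smul, map_smul, ← hT i]
      rfl
    rw [h1, LinearEquiv.map_eq_zero_iff]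
  subst hX
  obtain ⟨h1, h2⟩ := hkq X _ hrow
  refine ⟨fun u hu => (h1 u hu).1, fun x => ⟨fun hx => ?_, fun hx => h2 x ((key x).1 hx)⟩⟩
  have h3 : vspan X.length (kq X) ≤
      LinearMap.ker (T ∘ₗ (b.equivFun.symm : (Fin X.length → K) →ₗ[K] E)) := by
    unfold vspan
    rw [Submodule.span_le]
    rintro w ⟨u, hu, rfl⟩
    rw [SetLike.mem_coe, LinearMap.mem_ker]
    exact (key _).2 (h1 u hu).2
  exact LinearMap.mem_ker.1 (h3 hx)

/-- The invariant of the refinement. -/
structure Inv (L : List (List K)) (pre : List E) : Prop where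
  len : ∀ e ∈ L, e.length = r
  ne : ∀ e ∈ L, el b e ≠ 0
  idem : ∀ e ∈ L, el b e * el b e = el b e
  orth : L.Pairwise fun e f => el b e * el b f = 0
  sum : (L.map (el b)).sum = 1
  eig : ∀ e ∈ L, ∀ w ∈ pre, ∃ s : K, w * el b e = s • el b e

theorem inv_length {L : List (List K)} {pre : List E} (h : Inv b L pre) : L.length ≤ r := by
  have horth : ∀ i j : Fin L.length, i ≠ j → el b (L.get i) * el b (L.get j) = 0 := by
    have h1 := List.pairwise_iff_get.1 h.orth
    intro i j hij
    rcases lt_or_gt_of_ne hij with h2 | h2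
    · exact h1 i j h2
    · rw [mul_comm]; exact h1 j i h2
  have hli : LinearIndependent K (fun i : Fin L.length => el b (L.get i)) := by
    rw [linearIndependent_iff']
    intro s g hs i hi
    have h2 := congrArg (fun x => x * el b (L.get i)) hs
    simp only [zero_mul, Finset.sum_mul] at h2
    rw [Finset.sum_eq_single i] at h2
    · rw [smul_mul_assoc, h.idem _ (List.get_mem L i)] at h2
      exact (smul_eq_zero.1 h2).resolve_right (h.ne _ (List.get_mem L i))
    · intro j _ hj
      rw [smul_mul_assoc, horth j i hj, smul_zero]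
    · intro hn; exact absurd hi hn
  have : Module.Finite K E := Module.Finite.of_basis b
  have h3 := hli.fintype_card_le_finrank
  rwa [Module.finrank_eq_card_basis b, Fintype.card_fin, Fintype.card_fin] at h3

theorem sum_filter_nz (l : List (List K)) (hl : ∀ v ∈ l, v.length = r) :
    ((l.filter nz).map (el b)).sum = (l.map (el b)).sum := by
  induction l with
  | nil => rfl
  | cons v l ih =>
    have ih' := ih fun u hu => hl u (List.mem_cons_of_mem _ hu)
    have hv := nz_iff b (hl v List.mem_cons_self)
    by_cases hz : el b v = 0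
    · have : nz v = false := by
        cases hnz : nz v
        · rfl
        · exact absurd hz (hv.1 hnz)
      rw [List.filter_cons_of_neg (by simp [this]), ih', List.map_cons, List.sum_cons, hz, zero_add]
    · rw [List.filter_cons_of_pos (hv.2 hz), List.map_cons, List.sum_cons, List.map_cons,
        List.sum_cons, ih']

variable {S : List K}

theorem refi_inv (ho : IsOrder r γ E b) (hS : S.Nodup)
    (hsum : ∀ f : K → E, (S.map f).sum = ∑ s, f s) {L : List (List K)} {pre : List E}
    (h : Inv b L pre) {w : List K} (hw : el b w ^ Fintype.card K = el b w) :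
    Inv b (refi (Fintype.card K) S γ L w) (pre ++ [el b w]) := by
  have hel : ∀ (e : List K) (s : K),
      el b (mulv γ e (idv (Fintype.card K) γ w s)) = el b e * idm (el b w) s := by
    intro e s
    rw [el_mulv b ho, el_idv b ho]
  have hmem : ∀ v ∈ refi (Fintype.card K) S γ L w, v.length = r ∧ el b v ≠ 0 ∧
      ∃ e ∈ L, ∃ s : K, el b v = el b e * idm (el b w) s := by
    intro v hv
    obtain ⟨⟨e, he, s, _, rfl⟩, hnz⟩ := mem_refi hv
    have hl : (mulv γ e (idv (Fintype.card K) γ w s)).length = r := by
      rw [mulv_length, ho.len]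
    exact ⟨hl, (nz_iff b hl).1 hnz, e, he, s, hel e s⟩
  refine ⟨fun v hv => (hmem v hv).1, fun v hv => (hmem v hv).2.1, ?_, ?_, ?_, ?_⟩
  · intro v hv
    obtain ⟨_, _, e, he, s, h1⟩ := hmem v hv
    rw [h1, mul_mul_mul_comm, h.idem e he, idm_mul_self hw]
  · unfold refi
    refine List.Pairwise.filter _ ?_
    rw [List.pairwise_flatMap]
    constructor
    · intro e _
      rw [List.pairwise_map]
      refine hS.imp ?_
      intro s t hst
      rw [hel, hel, mul_mul_mul_comm, idm_mul hw hst, mul_zero]
    · refine h.orth.imp ?_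
      intro e f hef x hx y hy
      rw [List.mem_map] at hx hy
      obtain ⟨s, _, rfl⟩ := hx
      obtain ⟨t, _, rfl⟩ := hy
      rw [hel, hel, mul_mul_mul_comm, hef, zero_mul]
  · unfold refi
    rw [sum_filter_nz b]
    · rw [← h.sum]
      clear hmem h
      induction L with
      | nil => rfl
      | cons e L ih =>
        rw [List.flatMap_cons, List.map_append, List.sum_append, List.map_map, List.map_cons,
          List.sum_cons, ih]
        congr 1
        have h1 : (el b ∘ fun s => mulv γ e (idv (Fintype.card K) γ w s)) =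
            fun s => el b e * idm (el b w) s := by
          funext s
          exact hel e s
        rw [h1, hsum, ← Finset.mul_sum, sum_idm hw, mul_one]
    · intro v hv
      rw [List.mem_flatMap] at hv
      obtain ⟨e, _, h1⟩ := hv
      rw [List.mem_map] at h1
      obtain ⟨s, _, rfl⟩ := h1
      rw [mulv_length, ho.len]
  · intro v hv x hx
    obtain ⟨_, _, e, he, s, h1⟩ := hmem v hv
    rw [List.mem_append, List.mem_singleton] at hx
    rcases hx with hx | rfl
    · obtain ⟨t, ht⟩ := h.eig e he x hx
      exact ⟨t, by rw [h1, ← mul_assoc, ht, smul_mul_assoc]⟩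
    · refine ⟨s, ?_⟩
      rw [h1, mul_left_comm, mul_idm hw, mul_smul_comm]

theorem stepv_inv (ho : IsOrder r γ E b) (hS : S.Nodup)
    (hsum : ∀ f : K → E, (S.map f).sum = ∑ s, f s) {L : List (List K)} {pre : List E}
    (h : Inv b L pre) {w : List K} (hw : el b w ^ Fintype.card K = el b w) :
    Inv b (stepv (Fintype.card K) S γ L w) (pre ++ [el b w]) := by
  have h1 := refi_inv b ho hS hsum h hw
  have h2 := inv_length b h1
  unfold stepv
  rw [List.map_fst_zip]
  · exact h1
  · rw [List.length_range, ho.len]; exact h2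

theorem idems_inv (ho : IsOrder r γ E b) (hS : S.Nodup)
    (hsum : ∀ f : K → E, (S.map f).sum = ∑ s, f s) (W : List (List K))
    (hW : ∀ w ∈ W, el b w ^ Fintype.card K = el b w) :
    Inv b (idems (Fintype.card K) S γ W) (W.map (el b)) := by
  unfold idems
  induction W using List.reverseRecOn with
  | nil =>
    rw [List.foldl_nil]
    have hnt : Nontrivial E := by
      refine ⟨⟨b ⟨0, ho.pos⟩, 0, b.ne_zero _⟩⟩
    refine ⟨?_, ?_, ?_, ?_, ?_, ?_⟩
    · intro e he
      rw [List.mem_singleton.1 he, unitv_length, ho.len]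
    · intro e he
      rw [List.mem_singleton.1 he, el_unitv_zero b ho]
      exact one_ne_zero
    · intro e he
      rw [List.mem_singleton.1 he, el_unitv_zero b ho, one_mul]
    · exact List.pairwise_singleton _ _
    · simp [el_unitv_zero b ho]
    · intro e _ w hw
      simp at hw
  | append_singleton W w ih =>
    rw [List.foldl_append, List.foldl_cons, List.foldl_nil, List.map_append, List.map_cons,
      List.map_nil]
    exact stepv_inv b ho hS hsum (ih fun u hu => hW u (List.mem_append_left _ hu))
      (hW w (List.mem_append_right _ (List.mem_singleton_self w)))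

end Sem

end E1

open E1 in
theorem e1 (K : Type) [Field K] [Finite K] [DecidableEq K] [TEnc K] (hk : K2S K) : E1S K := by
  classical
  have : Fintype K := Fintype.ofFinite K
  obtain ⟨kq, hkqP, hkq⟩ := hk
  refine ⟨spv kq (Fintype.card K) (Finset.univ : Finset K).toList, Poly_spv hkqP _ _, ?_⟩
  intro r γ E _ _ b hred ho
  have hsum : ∀ f : K → E, ((Finset.univ : Finset K).toList.map f).sum = ∑ s, f s := by
    intro f
    exact Finset.sum_map_toList _ _
  -- the fixed elements of Frobenius
  have hrowW : (rowsW (Fintype.card K) γ).length = r := by simp [rowsW, ho.len]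
  have hWk := ker_span b hkq (rowsW (Fintype.card K) γ) hrowW (by
      intro v hv
      unfold rowsW at hv
      rw [List.mem_map] at hv
      obtain ⟨i, _, rfl⟩ := hv
      rw [combv_length, ho.len])
    ((FiniteField.frobeniusAlgHom K E).toLinearMap - LinearMap.id) (by
      intro i
      unfold rowsW
      rw [getD_map_range _ _ _ _ (by rw [ho.len]; exact i.2), el_combv b ho, el_powv b ho,
        el_unitv b ho, one_smul, neg_smul, one_smul, ← sub_eq_add_neg]
      rfl)
  have hW : ∀ w ∈ kq (rowsW (Fintype.card K) γ), el b w ^ Fintype.card K = el b w := by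
    intro w hw
    have h1 : vq r w ∈ vspan r (kq (rowsW (Fintype.card K) γ)) := Submodule.subset_span ⟨w, hw, rfl⟩
    have h2 := (hWk.2 _).1 h1
    rw [LinearMap.sub_apply, LinearMap.id_apply, sub_eq_zero] at h2
    exact h2
  have hinv := idems_inv b ho (Finset.nodup_toList _) hsum _ hW
  -- the ideals
  have hEk : ∀ e : List K, (∀ u ∈ kq (rowsE γ e), u.length = r) ∧
      ∀ x : Fin r → K, x ∈ vspan r (kq (rowsE γ e)) ↔ el b e * b.equivFun.symm x = 0 := by
    intro e
    have hlen : (rowsE γ e).length = r := by simp [rowsE, ho.len]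
    have h := ker_span b hkq (rowsE γ e) hlen (by
        intro v hv
        unfold rowsE at hv
        rw [List.mem_map] at hv
        obtain ⟨i, _, rfl⟩ := hv
        rw [mulv_length, ho.len])
      (LinearMap.mulLeft K (el b e)) (by
        intro i
        unfold rowsE
        rw [getD_map_range _ _ _ _ (by rw [ho.len]; exact i.2), el_mulv b ho, el_unitv b ho]
        rfl)
    exact h
  constructor
  · intro P hP
    unfold spv at hP
    rw [List.mem_map] at hP
    obtain ⟨e, he, rfl⟩ := hP
    refine ⟨(hEk e).1, ?_⟩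
    have hprim : ∀ f : E, f * f = f → f * el b e = f → f = 0 ∨ f = el b e := by
      intro f hff hfe
      -- f is fixed by Frobenius
      have hfq : ∀ n : ℕ, 0 < n → f ^ n = f := by
        intro n hn
        induction n with
        | zero => omega
        | succ n ih =>
          rcases Nat.eq_zero_or_pos n with rfl | hn'
          · simp
          · rw [pow_succ, ih hn', hff]
      have h1 : b.equivFun f ∈ vspan r (kq (rowsW (Fintype.card K) γ)) := by
        rw [hWk.2, LinearEquiv.symm_apply_apply, LinearMap.sub_apply, LinearMap.id_apply,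
          sub_eq_zero]
        exact hfq _ Fintype.card_pos
      have h2 : ∀ x ∈ vspan r (kq (rowsW (Fintype.card K) γ)),
          ∃ s : K, b.equivFun.symm x * el b e = s • el b e := by
        intro x hx
        unfold vspan at hx
        induction hx using Submodule.span_induction with
        | mem x hx =>
          obtain ⟨w, hw, rfl⟩ := hx
          exact hinv.eig e he _ (List.mem_map_of_mem hw)
        | zero => exact ⟨0, by simp⟩
        | add x y _ _ hx hy =>
          obtain ⟨s, hs⟩ := hx
          obtain ⟨t, ht⟩ := hy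
          exact ⟨s + t, by rw [map_add, add_mul, hs, ht, add_smul]⟩
        | smul c x _ hx =>
          obtain ⟨s, hs⟩ := hx
          exact ⟨c * s, by rw [map_smul, smul_mul_assoc, hs, smul_smul]⟩
      obtain ⟨s, hs⟩ := h2 _ h1
      rw [LinearEquiv.symm_apply_apply, hfe] at hs
      have h3 : (s * s - s) • el b e = 0 := by
        have h4 : f * f = (s * s) • el b e := by
          rw [hs, smul_mul_smul_comm, hinv.idem e he]
        rw [sub_smul, ← h4, ← hs, hff, sub_self]
      have h5 := (smul_eq_zero.1 h3).resolve_right (hinv.ne e he)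
      have h6 : s * (s - 1) = 0 := by linear_combination h5
      rcases mul_eq_zero.1 h6 with h7 | h7
      · left; rw [hs, h7, zero_smul]
      · right
        rw [sub_eq_zero] at h7
        rw [hs, h7, one_smul]
    have : Module.Finite K E := Module.Finite.of_basis b
    have : Finite E := Module.finite_of_finite K
    obtain ⟨h1, h2⟩ := max_of_prim hred (hinv.ne e he) (hinv.idem e he) hprim
    refine ⟨_, h1, ?_⟩
    intro x
    rw [h2, (hEk e).2, LinearEquiv.symm_apply_apply]
  · intro x hx
    have h1 : ∀ e ∈ idems (Fintype.card K) (Finset.univ : Finset K).toList γ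
        (kq (rowsW (Fintype.card K) γ)), el b e * b.equivFun.symm x = 0 := by
      intro e he
      refine ((hEk e).2 x).1 (hx _ ?_)
      unfold spv
      exact List.mem_map_of_mem he
    have h2 : ∀ l : List (List K), (∀ e ∈ l, el b e * b.equivFun.symm x = 0) →
        (l.map (el b)).sum * b.equivFun.symm x = 0 := by
      intro l hl
      induction l with
      | nil => simp
      | cons e l ih =>
        rw [List.map_cons, List.sum_cons, add_mul, hl e List.mem_cons_self,
          ih fun f hf => hl f (List.mem_cons_of_mem _ hf), add_zero]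
    have h3 := h2 _ h1
    rw [hinv.sum, one_mul] at h3
    exact (LinearEquiv.map_eq_zero_iff _).1 h3

end Pool.Agent.H420_NCF.FF
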