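import Pool.Agent.H420_NCF.Spec2
import Pool.Agent.H420_NCF.FF.Base

/-!
# the p-th power map modulo commutators (module FR)
-/

namespace Pool.Agent.H420_NCF.FF

open Pool.Agent.NPC Pool.Agent.NPC.H532
open scoped Matrix

namespace FR

section General
variable {K R : Type*} [Field K] [Ring R] [Algebra K R]

open Polynomial in
theorem comm_coeff (C' : Submodule K R) (hC : ∀ x y : R, x * y - y * x ∈ C') (F G : R[X]) (m : ℕ) :
    (F * G - G * F).coeff m ∈ C' := by
  rw [coeff_sub, coeff_mul, coeff_mul, ← Finset.Nat.sum_antidiagonal_swap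
    (f := fun x => G.coeff x.1 * F.coeff x.2), ← Finset.sum_sub_distrib]
  exact C'.sum_mem fun x _ => hC _ _

open Polynomial in
theorem derivative_pow_eq (P : R[X]) (D : R[X]) (hD : derivative P = D) (n : ℕ) :
    derivative (P ^ n) = ∑ i ∈ Finset.range n, P ^ i * D * P ^ (n - 1 - i) := by
  induction n with
  | zero => simp
  | succ n ih =>
    rw [pow_succ, derivative_mul, ih, hD, Finset.sum_range_succ, Finset.sum_mul]
    congr 1
    · refine Finset.sum_congr rfl fun i hi => ?_
      rw [Finset.mem_range] at hi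
      rw [mul_assoc _ _ P, ← pow_succ]
      congr 2
      omega
    · rw [show n + 1 - 1 - n = 0 by omega, pow_zero, mul_one]

open Polynomial in
/-- The binomial formula for prime powers, modulo commutators. -/
theorem add_pow_mem (p : ℕ) [hp : Fact p.Prime] [CharP K p] (C' : Submodule K R)
    (hC : ∀ x y : R, x * y - y * x ∈ C') (a b : R) : (a + b) ^ p - (a ^ p + b ^ p) ∈ C' := by
  have hp0 : 0 < p := hp.out.pos
  set P : R[X] := C b * X + C a with hP
  have hPd : derivative P = C b := by
    rw [hP, derivative_add, derivative_mul, derivative_C, derivative_C, derivative_X]; simp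
  have hdeg : P.natDegree ≤ 1 := natDegree_linear_le
  have hdegp : (P ^ p).natDegree < p + 1 := by
    have := natDegree_pow_le_of_le p hdeg
    omega
  -- the derivative of the power
  have h1 : ∀ m, (derivative (P ^ p)).coeff m ∈ C' := by
    intro m
    have h2 : derivative (P ^ p) = ∑ i ∈ Finset.range p,
        (P ^ i * C b * P ^ (p - 1 - i) - P ^ (p - 1 - i) * (P ^ i * C b)) +
        (p : R[X]) * (P ^ (p - 1) * C b) := by
      rw [derivative_pow_eq P _ hPd, Finset.sum_sub_distrib]
      have h3 : ∑ i ∈ Finset.range p, P ^ (p - 1 - i) * (P ^ i * C b) =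
          (p : R[X]) * (P ^ (p - 1) * C b) := by
        rw [← Finset.card_range p, ← nsmul_eq_mul, ← Finset.sum_const, Finset.card_range]
        refine Finset.sum_congr rfl fun i hi => ?_
        rw [Finset.mem_range] at hi
        rw [← mul_assoc, ← pow_add]
        congr 2
        omega
      rw [h3, sub_add_cancel]
    have h4 : (p : R[X]) = 0 := by
      have h5 : (p : R) = 0 := by
        have := CharP.cast_eq_zero K p
        rw [← map_natCast (algebraMap K R), this, map_zero]
      rw [← map_natCast (Polynomial.C : R →+* R[X]), h5, map_zero]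
    rw [h2, h4, zero_mul, add_zero, finsetSum_coeff]
    exact C'.sum_mem fun i _ => comm_coeff C' hC _ _ m
  have h2 : ∀ m, 0 < m → m < p → (P ^ p).coeff m ∈ C' := by
    intro m hm hmp
    obtain ⟨n, rfl⟩ : ∃ n, m = n + 1 := ⟨m - 1, by omega⟩
    have h3 := h1 n
    rw [coeff_derivative] at h3
    have h4 : ((n + 1 : ℕ) : K) ≠ 0 := by
      rw [Ne, CharP.cast_eq_zero_iff K p]
      intro h
      exact absurd (Nat.le_of_dvd (by omega) h) (by omega)
    have h5 : (P ^ p).coeff (n + 1) * ((n : R) + 1) = ((n + 1 : ℕ) : K) • (P ^ p).coeff (n + 1) := by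
      rw [Algebra.smul_def, map_natCast, Nat.cast_succ]
      have : Commute ((n : R) + 1) ((P ^ p).coeff (n + 1)) :=
        (Nat.cast_commute n _).add_left (Commute.one_left _)
      exact this.eq.symm
    rw [h5] at h3
    have := C'.smul_mem (((n + 1 : ℕ) : K)⁻¹) h3
    rwa [smul_smul, inv_mul_cancel₀ h4, one_smul] at this
  have h3 : (a + b) ^ p = ∑ i ∈ Finset.range (p + 1), (P ^ p).coeff i := by
    let φ : R[X] →+* R := eval₂RingHom' (RingHom.id R) 1 (fun x => Commute.one_right _)
    have h4 : φ P = a + b := by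
      change eval₂ (RingHom.id R) 1 P = a + b
      rw [hP, eval₂_add, eval₂_mul_X, eval₂_C, eval₂_C]
      simp [add_comm]
    have h5 : φ (P ^ p) = ∑ i ∈ Finset.range (p + 1), (P ^ p).coeff i := by
      change eval₂ (RingHom.id R) 1 (P ^ p) = _
      rw [eval₂_eq_sum_range' _ hdegp]
      simp
    rw [← h5, map_pow, h4]
  have h4 : (P ^ p).coeff 0 = a ^ p := by
    have : constantCoeff (P ^ p) = a ^ p := by
      rw [map_pow]; congr 1; simp [hP]
    simpa using this
  have h5 : (P ^ p).coeff p = b ^ p := by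
    have := coeff_pow_of_natDegree_le (m := p) hdeg
    rw [mul_one] at this
    rw [this]; congr 1; simp [hP]
  have h6 : (a + b) ^ p - (a ^ p + b ^ p) = ∑ i ∈ Finset.Ico 1 p, (P ^ p).coeff i := by
    rw [h3, Finset.sum_range_succ, h5, Finset.range_eq_Ico, Finset.sum_eq_sum_Ico_succ_bot hp0, h4]
    abel
  rw [h6]
  refine C'.sum_mem fun i hi => ?_
  rw [Finset.mem_Ico] at hi
  exact h2 i (by omega) hi.2

end General

section Mat
variable {K : Type} [Field K] {n : ℕ}

theorem comm_le (A : Subalgebra K (Matrix (Fin n) (Fin n) K)) {a : Matrix (Fin n) (Fin n) K}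
    (ha : a ∈ comm A) : a ∈ A := by
  have : comm A ≤ Subalgebra.toSubmodule A := by
    refine Submodule.span_le.2 ?_
    rintro z ⟨x, hx, y, hy, rfl⟩
    exact A.sub_mem (A.mul_mem hx hy) (A.mul_mem hy hx)
  exact this ha

theorem add_pow_mem_comm (p : ℕ) [Fact p.Prime] [CharP K p]
    (A : Subalgebra K (Matrix (Fin n) (Fin n) K)) (a b : Matrix (Fin n) (Fin n) K) (ha : a ∈ A)
    (hb : b ∈ A) : (a + b) ^ p - (a ^ p + b ^ p) ∈ comm A := by
  have := add_pow_mem (K := K) (R := A) p ((comm A).comap A.val.toLinearMap) (fun x y =>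
    Submodule.subset_span ⟨x, x.2, y, y.2, rfl⟩) ⟨a, ha⟩ ⟨b, hb⟩
  exact this

theorem mul_pow_sub (p : ℕ) (hp : 0 < p) (A : Subalgebra K (Matrix (Fin n) (Fin n) K))
    (x y : Matrix (Fin n) (Fin n) K) (hx : x ∈ A) (hy : y ∈ A) :
    (x * y) ^ p - (y * x) ^ p ∈ comm A := by
  obtain ⟨m, rfl⟩ : ∃ m, p = m + 1 := ⟨p - 1, by omega⟩
  refine Submodule.subset_span ⟨x, hx, y * (x * y) ^ m, A.mul_mem hy (A.pow_mem (A.mul_mem hx hy) m), ?_⟩
  have h1 : y * (x * y) ^ m = (y * x) ^ m * y := by
    have h : SemiconjBy y (x * y) (y * x) := by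
      change y * (x * y) = (y * x) * y
      rw [mul_assoc]
    exact (h.pow_right m).eq
  congr 1
  · rw [pow_succ', mul_assoc]
  · rw [h1, pow_succ, mul_assoc]

end Mat

end FR

theorem fr (K : Type) [Field K] : FRS K := by
  intro p hp hch n A
  refine ⟨fun a ha b hb => FR.add_pow_mem_comm p A a b ha hb, fun a ha => ?_⟩
  have hp0 : 0 < p := hp.out.pos
  have hcom : ∀ x ∈ comm A, x ∈ A := fun x hx => FR.comm_le A hx
  refine Submodule.span_induction (p := fun z _ => z ^ p ∈ comm A) ?_ ?_ ?_ ?_ ha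
  · rintro z ⟨x, hx, y, hy, rfl⟩
    have h1 := FR.add_pow_mem_comm p A (x * y) (-(y * x)) (A.mul_mem hx hy)
      (A.neg_mem (A.mul_mem hy hx))
    have h2 : (-(y * x)) ^ p = -((y * x) ^ p) := by
      have h3 : -(y * x) = (-1 : K) • (y * x) := by rw [neg_smul, one_smul]
      have h4 : (-1 : K) ^ p = -1 := neg_one_pow_char K p
      rw [h3, smul_pow, h4, neg_smul, one_smul]
    rw [h2] at h1
    have h5 := (comm A).add_mem h1 (FR.mul_pow_sub p hp0 A x y hx hy)
    have h6 : (x * y + -(y * x)) ^ p - ((x * y) ^ p + -(y * x) ^ p) + ((x * y) ^ p - (y * x) ^ p) =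
        (x * y - y * x) ^ p := by
      rw [← sub_eq_add_neg (x * y)]; abel
    rwa [h6] at h5
  · rw [zero_pow hp0.ne']; exact (comm A).zero_mem
  · intro x y hx hy hx' hy'
    have h1 := FR.add_pow_mem_comm p A x y (hcom x hx) (hcom y hy)
    have h2 := (comm A).add_mem h1 ((comm A).add_mem hx' hy')
    rwa [sub_add_cancel] at h2
  · intro c x _ hx'
    rw [smul_pow]
    exact (comm A).smul_mem _ hx'

end Pool.Agent.H420_NCF.FF
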