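import Pool.Agent.H420_NCF.Spec2
import Pool.Agent.H420_NCF.FF.Base

/-!
# The final factorisation algorithm over a finite field
-/

set_option linter.unusedSectionVars false

namespace Pool.Agent.H420_NCF.FF

open Pool.Agent.NPC Pool.Agent.NPC.H532
open scoped Matrix

namespace Final

section Field
variable {K : Type} [Field K] [Finite K] [DecidableEq K] [TEnc K]

/-- Products of lists. -/
theorem Poly_prodK {α : Type} [TEnc α] {l : α → List K} (hl : Poly l) :
    Poly (fun a => (l a).prod) := by
  obtain ⟨B, hB⟩ := exists_sz_bound K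
  have h := NPC.Poly.foldl (l := l) (s := fun _ => (1 : K)) (F := fun (_ : α) s x => s * x) hl
    (NPC.Poly.const _) (Poly_mulK (NPC.Poly.fst (NPC.Poly.snd NPC.Poly.id))
      (NPC.Poly.snd (NPC.Poly.snd NPC.Poly.id)))
    (Polynomial.C B) (fun a k _ => by rw [Polynomial.eval_C]; exact hB _)
  refine h.congr fun a => ?_
  rw [List.prod_eq_foldl]

/-- Normal form. -/
def nf (g : IP K) : IP K := toIP (ws g) (vecOf (ws g) g)

/-- Test for constants, for polynomials in normal form. -/
def isC (g : IP K) : Bool := g.all fun t => t.1.isEmpty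

/-- A term with a word of maximal length. -/
def top (g : IP K) : List ℕ × K :=
  g.foldl (fun s t => if s.1.length ≤ t.1.length then t else s) ([], 0)

theorem Poly_top : Poly (top : IP K → List ℕ × K) := by
  refine Poly_foldl (s := fun _ => (([], 0) : List ℕ × K))
    (F := fun _ (s : List ℕ × K) (t : List ℕ × K) => if s.1.length ≤ t.1.length then t else s)
    NPC.Poly.id (NPC.Poly.const _) ?_ (fun g => sz g + sz (([], 0) : List ℕ × K)) ?_ ?_
  · exact NPC.Poly.ite (p := fun p : IP K × (List ℕ × K) × (List ℕ × K) => p.2.1.1.length ≤ p.2.2.1.length)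
      (NPC.Poly.decide_le (NPC.Poly.length (NPC.Poly.fst (NPC.Poly.fst (NPC.Poly.snd NPC.Poly.id))))
        (NPC.Poly.length (NPC.Poly.fst (NPC.Poly.snd (NPC.Poly.snd NPC.Poly.id)))))
      (NPC.Poly.snd (NPC.Poly.snd NPC.Poly.id)) (NPC.Poly.fst (NPC.Poly.snd NPC.Poly.id))
  · exact (PB.sz NPC.Poly.id).add (PB.const _)
  · intro g k _
    have key : ∀ (l : IP K) (s : List ℕ × K),
        (l.foldl (fun s t => if s.1.length ≤ t.1.length then t else s) s) = s ∨
        (l.foldl (fun s t => if s.1.length ≤ t.1.length then t else s) s) ∈ l := by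
      intro l
      induction l with
      | nil => intro s; left; rfl
      | cons b l ih =>
        intro s
        rw [List.foldl_cons]
        rcases ih (if s.1.length ≤ b.1.length then b else s) with h | h
        · rw [h]
          split_ifs
          · right; simp
          · left; rfl
        · right; exact List.mem_cons_of_mem _ h
    rcases key (g.take k) ([], 0) with h | h
    · rw [h]; omega
    · have := sz_le_of_mem (List.mem_of_mem_take h)
      omega

theorem top_spec (g : IP K) (hg : g ≠ []) : top g ∈ g ∧ ∀ t ∈ g, t.1.length ≤ (top g).1.length := by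
  have key : ∀ (l : IP K) (s : List ℕ × K),
      ((l.foldl (fun s t => if s.1.length ≤ t.1.length then t else s) s) = s ∨
      (l.foldl (fun s t => if s.1.length ≤ t.1.length then t else s) s) ∈ l) ∧
      s.1.length ≤ (l.foldl (fun s t => if s.1.length ≤ t.1.length then t else s) s).1.length ∧
      ∀ t ∈ l, t.1.length ≤
        (l.foldl (fun s t => if s.1.length ≤ t.1.length then t else s) s).1.length := by
    intro l
    induction l with
    | nil => intro s; exact ⟨Or.inl rfl, le_rfl, by simp⟩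
    | cons b l ih =>
      intro s
      rw [List.foldl_cons]
      obtain ⟨h1, h2, h3⟩ := ih (if s.1.length ≤ b.1.length then b else s)
      refine ⟨?_, ?_, ?_⟩
      · rcases h1 with h | h
        · rw [h]
          split_ifs
          · right; simp
          · left; rfl
        · right; exact List.mem_cons_of_mem _ h
      · refine le_trans ?_ h2
        split_ifs with h
        · exact h
        · exact le_rfl
      · intro t ht
        rcases List.mem_cons.1 ht with rfl | ht
        · refine le_trans ?_ h2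
          split_ifs with h
          · exact le_rfl
          · omega
        · exact h3 t ht
  obtain ⟨b, l, rfl⟩ := List.exists_cons_of_ne_nil hg
  unfold top
  rw [List.foldl_cons]
  simp only [List.length_nil, Nat.zero_le, if_true]
  obtain ⟨h1, h2, h3⟩ := key l b
  refine ⟨?_, ?_⟩
  · rcases h1 with h | h
    · rw [h]; simp
    · exact List.mem_cons_of_mem _ h
  · intro t ht
    rcases List.mem_cons.1 ht with rfl | ht
    · exact h2
    · exact h3 t ht

/-- The term `w` has coefficient `a` and is longest possible. -/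
def Lead (P : NC K) (w : List ℕ) (a : K) : Prop :=
  cf w P = a ∧ ∀ v : List ℕ, w.length < v.length → cf v P = 0

theorem Lead.one : Lead (1 : NC K) [] 1 := by
  constructor
  · exact eps_one
  · intro v hv
    rw [← mon_nil, cf_mon, if_neg]
    rintro rfl
    simp at hv

theorem Lead.mul {P Q : NC K} {u v : List ℕ} {a b : K} (hP : Lead P u a) (hQ : Lead Q v b) :
    Lead (P * Q) (u ++ v) (a * b) := by
  constructor
  · rw [cf_mul, Finset.sum_eq_single u.length]
    · rw [List.take_left, List.drop_left, hP.1, hQ.1]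
    · intro i hi hne
      rcases lt_or_gt_of_ne hne with h | h
      · rw [hQ.2 _ (by simp; omega), mul_zero]
      · simp only [Finset.mem_range, List.length_append] at hi
        rw [hP.2 _ (by rw [List.length_take, List.length_append]; omega), zero_mul]
    · intro h; exact absurd (Finset.mem_range.2 (by rw [List.length_append]; omega)) h
  · intro w hw
    rw [List.length_append] at hw
    rw [cf_mul]
    refine Finset.sum_eq_zero fun i hi => ?_
    simp only [Finset.mem_range] at hi
    by_cases h : u.length < i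
    · rw [hP.2 _ (by rw [List.length_take]; omega), zero_mul]
    · rw [hQ.2 _ (by rw [List.length_drop]; omega), mul_zero]

/-- The concatenation of the leading words. -/
def lw (G : List (IP K)) : List ℕ := (G.map fun g => (top g).1).flatten

/-- The product of the leading coefficients. -/
def la (G : List (IP K)) : K := (G.map fun g => (top g).2).prod

/-- `g` is in normal form, not constant. -/
def Nice (g : IP K) : Prop := (g.map fun t => t.1).Nodup ∧ g ≠ [] ∧
  (∀ t ∈ g, t.2 ≠ 0 ∧ cf t.1 (pol g) = t.2) ∧ ∀ w, cf w (pol g) ≠ 0 → ∃ t ∈ g, t.1 = w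

theorem Nice.lead {g : IP K} (h : Nice g) : Lead (pol g) (top g).1 ((top g).2 : K) := by
  obtain ⟨h1, h2⟩ := top_spec g h.2.1
  refine ⟨(h.2.2.1 _ h1).2, fun v hv => ?_⟩
  by_contra hne
  obtain ⟨t, ht, rfl⟩ := h.2.2.2 v hne
  have := h2 t ht
  omega

theorem lead_prod (G : List (IP K)) (h : ∀ g ∈ G, Nice g) :
    Lead (G.map pol).prod (lw G) (la G : K) := by
  induction G with
  | nil => simpa [lw, la] using Lead.one
  | cons g G ih =>
    have h1 := (h g (by simp)).lead.mul (ih fun g hg => h g (List.mem_cons_of_mem _ hg))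
    unfold lw la at h1 ⊢
    simpa using h1

theorem la_ne (G : List (IP K)) (h : ∀ g ∈ G, Nice g) : la G ≠ 0 := by
  unfold la
  rw [Ne, List.prod_eq_zero_iff, List.mem_map]
  rintro ⟨g, hg, h0⟩
  exact ((h g hg).2.2.1 _ (top_spec g (h g hg).2.1).1).1 h0

theorem Poly_lw : Poly (lw : List (IP K) → List ℕ) :=
  NPC.Poly.flatten (NPC.Poly.map (F := fun (_ : List (IP K)) (g : IP K) => (top g).1) NPC.Poly.id
    (NPC.Poly.fst (Poly_top.comp (NPC.Poly.snd NPC.Poly.id))))

theorem Poly_la : Poly (la : List (IP K) → K) :=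
  Poly_prodK (NPC.Poly.map (F := fun (_ : List (IP K)) (g : IP K) => (top g).2) NPC.Poly.id
    (NPC.Poly.snd (Poly_top.comp (NPC.Poly.snd NPC.Poly.id))))

/-- Multiplication by a scalar. -/
def sc (x : K) (g : IP K) : IP K := g.map fun t => (t.1, t.2 * x)

theorem Poly_sc {α : Type} [TEnc α] {x : α → K} {g : α → IP K} (hx : Poly x)
    (hg : Poly g) : Poly fun a => sc (x a) (g a) := by
  unfold sc
  exact NPC.Poly.map (F := fun (a : α) (t : List ℕ × K) => (t.1, t.2 * x a)) hg
    (NPC.Poly.pair (NPC.Poly.fst (NPC.Poly.snd NPC.Poly.id))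
      (Poly_mulK (NPC.Poly.snd (NPC.Poly.snd NPC.Poly.id)) (hx.comp (NPC.Poly.fst NPC.Poly.id))))

theorem pol_sc (x : K) (g : IP K) : pol (sc x g) = x • pol g := by
  unfold sc pol
  rw [List.map_map, List.smul_sum, List.map_map]
  congr 1
  apply List.map_congr_left
  intro t ht
  simp only [Function.comp]
  rw [smul_smul, mul_comm]

theorem redF_sc {x : K} (hx : x ≠ 0) {g : IP K} (hg : Nice g) : RedF K (sc x g) := by
  constructor
  · have : (sc x g).map (fun t => t.1) = g.map fun t => t.1 := by
      unfold sc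
      rw [List.map_map]
      rfl
    rw [this]
    exact hg.1
  · intro t ht
    unfold sc at ht
    obtain ⟨s, hs, rfl⟩ := List.mem_map.1 ht
    exact mul_ne_zero (hg.2.2.1 s hs).1 hx

theorem isUnit_smul_one {c : K} (hc : c ≠ 0) : IsUnit (c • (1 : NC K)) := by
  refine ⟨⟨c • 1, c⁻¹ • 1, ?_, ?_⟩, rfl⟩ <;> simp [smul_smul, hc]

theorem irreducible_smul {c : K} (hc : c ≠ 0) {P : NC K} (hP : Irreducible P) :
    Irreducible (c • P) := by
  obtain ⟨u, hu⟩ := isUnit_smul_one hc
  have : c • P = u * P := by rw [hu, smul_mul_assoc, one_mul]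
  rw [this]
  exact (irreducible_units_mul u).2 hP

section Main
variable (A : IP K → List (Bool × IP K)) (A2 : IP K → List (IP K))

/-- All factors of the first two modules. -/
def fl (f : IP K) : List (IP K) := (A f).flatMap fun t => if t.1 = true then [t.2] else A2 t.2

/-- The factors that are not constants, in normal form. -/
def fac (f : IP K) : List (IP K) := ((fl A A2 f).map nf).filter fun g => !(isC g)

/-- The algorithm. -/
def out (f : IP K) : List (IP K) :=
  match fac A A2 f with
  | [] => []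
  | g :: G => sc (cof f (lw (g :: G)) * (la (g :: G))⁻¹) g :: G

variable {A A2}

theorem Poly_nf (hv : VTS K) : Poly (nf : IP K → IP K) := by
  obtain ⟨h1, -, -, h4, h5, -⟩ := hv
  exact h5.comp (NPC.Poly.pair h1 (h4.comp (NPC.Poly.pair h1 NPC.Poly.id)))

theorem Poly_fac (hv : VTS K) (h1 : Poly A) (h2 : Poly A2) : Poly (fac A A2) := by
  unfold fac fl
  refine NPC.Poly.filter (p := fun (_ : IP K) (g : IP K) => !(isC g)) (NPC.Poly.map
    (F := fun (_ : IP K) (g : IP K) => nf g) (NPC.Poly.flatMap
      (F := fun (_ : IP K) (t : Bool × IP K) => if t.1 = true then [t.2] else A2 t.2) h1 ?_)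
      ((Poly_nf hv).comp (NPC.Poly.snd NPC.Poly.id))) ?_
  · exact NPC.Poly.ite (p := fun (p : IP K × (Bool × IP K)) => p.2.1 = true)
      (NPC.Poly.decide_bool (NPC.Poly.fst (NPC.Poly.snd NPC.Poly.id)))
      (NPC.Poly.cons (NPC.Poly.snd (NPC.Poly.snd NPC.Poly.id)) (NPC.Poly.const []))
      (h2.comp (NPC.Poly.snd (NPC.Poly.snd NPC.Poly.id)))
  · exact NPC.Poly.not (NPC.Poly.all (p := fun (_ : IP K × IP K) (t : List ℕ × K) => t.1.isEmpty)
      (NPC.Poly.snd NPC.Poly.id) (NPC.Poly.isEmpty (NPC.Poly.fst (NPC.Poly.snd NPC.Poly.id))))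

theorem Poly_out (hv : VTS K) (h1 : Poly A) (h2 : Poly A2) : Poly (out A A2) := by
  have hv' := hv
  obtain ⟨-, -, h3, -⟩ := hv'
  unfold out
  refine (NPC.Poly.listCases (l := fun f : IP K => fac A A2 f)
    (g := fun _ => []) (h := fun f g G => sc (cof f (lw (g :: G)) * (la (g :: G))⁻¹) g :: G)
      (Poly_fac hv h1 h2)
    (NPC.Poly.const _) ?_).congr fun f => by cases fac A A2 f <;> rfl
  have hl : Poly fun p : IP K × IP K × List (IP K) => p.2.1 :: p.2.2 :=
    NPC.Poly.cons (NPC.Poly.fst (NPC.Poly.snd NPC.Poly.id)) (NPC.Poly.snd (NPC.Poly.snd NPC.Poly.id))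
  have hc1 : Poly fun p : IP K × IP K × List (IP K) => p.1 := NPC.Poly.fst NPC.Poly.id
  have hc2 : Poly fun p : IP K × IP K × List (IP K) => lw (p.2.1 :: p.2.2) :=
    Poly_lw.comp hl
  have hx : Poly fun p : IP K × IP K × List (IP K) => cof p.1 (lw (p.2.1 :: p.2.2)) := by
    have := NPC.Poly.comp h3 (NPC.Poly.pair hc1 hc2)
    exact this
  have hy : Poly fun p : IP K × IP K × List (IP K) => (la (p.2.1 :: p.2.2))⁻¹ :=
    Poly_invK (Poly_la.comp hl)
  have hg : Poly fun p : IP K × IP K × List (IP K) => p.2.1 :=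
    NPC.Poly.fst (NPC.Poly.snd NPC.Poly.id)
  have hr : Poly fun p : IP K × IP K × List (IP K) => p.2.2 :=
    NPC.Poly.snd (NPC.Poly.snd NPC.Poly.id)
  exact NPC.Poly.cons (Poly_sc (Poly_mulK hx hy) hg) hr

theorem zip_map_self {α β : Type} (l : List α) (F : α → β) :
    l.zip (l.map F) = l.map fun w => (w, F w) := by
  induction l with
  | nil => rfl
  | cons a l ih => simp [ih]

theorem nf_eq (g : IP K) : nf g = ((ws g).map fun w => (w, cof g w)).filter
    fun t => !decide (t.2 = 0) := by
  unfold nf toIP vecOf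
  rw [zip_map_self]

theorem pol_nf (hv : VTS K) (g : IP K) : pol (nf g) = pol g := by
  obtain ⟨-, -, -, -, -, -, -, h8, -, h10, -, -, -, h14, h15, -⟩ := hv
  unfold nf
  rw [h14 _ _ (by simp [vecOf]), h15 _ _ (h8 g) (h10 g)]

theorem nf_mem {g : IP K} {t : List ℕ × K} (h : t ∈ nf g) : t.2 = cof g t.1 ∧ t.2 ≠ 0 := by
  rw [nf_eq, List.mem_filter, List.mem_map] at h
  obtain ⟨⟨w, _, rfl⟩, h2⟩ := h
  exact ⟨rfl, by simpa using h2⟩

theorem nf_nodup (hv : VTS K) (g : IP K) : ((nf g).map fun t => t.1).Nodup := by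
  obtain ⟨-, -, -, -, -, -, -, h8, -⟩ := hv
  rw [nf_eq]
  have h1 : (((ws g).map fun w => (w, cof g w)).filter fun t => !decide (t.2 = 0)).Sublist
      ((ws g).map fun w => (w, cof g w)) := List.filter_sublist
  refine (h1.map fun t => t.1).nodup ?_
  rw [List.map_map]
  simpa [Function.comp_def] using h8 g

theorem nf_words (hv : VTS K) (g : IP K) (w : List ℕ) (h : cf w (pol g) ≠ 0) :
    ∃ t ∈ nf g, t.1 = w := by
  obtain ⟨-, -, -, -, -, -, h7, -, -, h10, -⟩ := hv
  have h1 : cof g w ≠ 0 := by
    intro h0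
    rw [h7, h0] at h
    simp at h
  refine ⟨(w, cof g w), ?_, rfl⟩
  rw [nf_eq, List.mem_filter, List.mem_map]
  exact ⟨⟨w, h10 g w h1, rfl⟩, by simpa using h1⟩

theorem nf_nice (hv : VTS K) (g : IP K) (h : isC (nf g) = false) : Nice (nf g) := by
  refine ⟨nf_nodup hv g, ?_, fun t ht => ?_, fun w hw => ?_⟩
  · intro h0
    rw [h0] at h
    simp [isC] at h
  · refine ⟨(nf_mem ht).2, ?_⟩
    rw [pol_nf hv]
    obtain ⟨-, -, -, -, -, -, h7, -⟩ := hv
    rw [h7, (nf_mem ht).1]
  · rw [pol_nf hv] at hw
    exact nf_words hv g w hw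

theorem isC_true (hv : VTS K) {g : IP K} (h : isC (nf g) = true) :
    pol g = eps (pol g) • (1 : NC K) := by
  ext w
  rw [map_smul, ← mon_nil, cf_mon]
  by_cases hw : [] = w
  · subst hw; rw [if_pos rfl, smul_eq_mul, mul_one]; rfl
  · rw [if_neg hw, smul_zero]
    by_contra hne
    obtain ⟨t, ht, rfl⟩ := nf_words hv g w hne
    unfold isC at h
    rw [List.all_eq_true] at h
    have := h t ht
    rw [List.isEmpty_iff] at this
    exact hw this.symm

theorem isC_of_unit (hv : VTS K) {g : IP K} (h : IsUnit (pol g)) : isC (nf g) = true := by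
  unfold isC
  rw [List.all_eq_true]
  intro t ht
  rw [List.isEmpty_iff]
  have h1 := isUnit_iff.1 h
  obtain ⟨-, -, -, -, -, -, h7, -⟩ := hv
  have h2 : cf t.1 (pol g) ≠ 0 := by
    rw [h7]
    have := nf_mem ht
    rw [← this.1]
    exact_mod_cast this.2
  by_contra h3
  exact h2 (h1.2 t.1 (List.length_pos_of_ne_nil h3))

theorem fl_prod (h2 : ∀ f : IP K, eps (pol f) ≠ 0 →
    (∃ c : K, c ≠ 0 ∧ ((A2 f).map fun g => pol g).prod = c • pol f) ∧
    ∀ g ∈ A2 f, IsUnit (pol g) ∨ Irreducible (pol g)) (L : List (Bool × IP K))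
    (hL : ∀ t ∈ L, (t.1 = true → Irreducible (pol t.2)) ∧ (t.1 = false → eps (pol t.2) ≠ 0)) :
    (∃ c : K, c ≠ 0 ∧ ((L.flatMap fun t => if t.1 = true then [t.2] else A2 t.2).map pol).prod =
      c • (L.map fun t => pol t.2).prod) ∧
    ∀ g ∈ L.flatMap fun t => if t.1 = true then [t.2] else A2 t.2,
      IsUnit (pol g) ∨ Irreducible (pol g) := by
  induction L with
  | nil => exact ⟨⟨1, one_ne_zero, by simp⟩, by simp⟩
  | cons t L ih =>
    obtain ⟨⟨c, hc, h3⟩, h4⟩ := ih fun t ht => hL t (List.mem_cons_of_mem _ ht)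
    obtain ⟨ht1, ht2⟩ := hL t (by simp)
    rw [List.flatMap_cons, List.map_append, List.prod_append, h3, List.map_cons, List.prod_cons]
    cases hb : t.1 with
    | true =>
      refine ⟨⟨c, hc, by simp⟩, fun g hg => ?_⟩
      rcases List.mem_append.1 hg with h | h
      · simp only [if_true, List.mem_singleton] at h
        subst h
        exact Or.inr (ht1 hb)
      · exact h4 g h
    | false =>
      obtain ⟨⟨d, hd, h5⟩, h6⟩ := h2 t.2 (ht2 hb)
      refine ⟨⟨d * c, mul_ne_zero hd hc, ?_⟩, fun g hg => ?_⟩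
      · simp only [Bool.false_eq_true, if_false]
        rw [h5, smul_mul_smul_comm]
      · rcases List.mem_append.1 hg with h | h
        · simp only [Bool.false_eq_true, if_false] at h
          exact h6 g h
        · exact h4 g h

theorem fac_prod (hv : VTS K) (L : List (IP K)) (hL : ∀ g ∈ L, IsUnit (pol g) ∨ Irreducible (pol g)) :
    (∃ c : K, c ≠ 0 ∧ (((L.map nf).filter fun g => !(isC g)).map pol).prod =
      c • (L.map pol).prod) ∧
    ∀ g ∈ (L.map nf).filter fun g => !(isC g), Nice g ∧ Irreducible (pol g) := by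
  induction L with
  | nil => exact ⟨⟨1, one_ne_zero, by simp⟩, by simp⟩
  | cons g L ih =>
    obtain ⟨⟨c, hc, h3⟩, h4⟩ := ih fun t ht => hL t (List.mem_cons_of_mem _ ht)
    have hg := hL g (by simp)
    rw [List.map_cons, List.filter_cons, List.map_cons, List.prod_cons]
    cases hb : isC (nf g) with
    | true =>
      obtain ⟨e, h5⟩ : ∃ e : K, pol g = e • (1 : NC K) := ⟨_, isC_true hv hb⟩
      have h6 : e ≠ 0 := by
        intro h0
        rw [h0, zero_smul] at h5
        rw [h5] at hg
        rcases hg with h | h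
        · exact not_isUnit_zero h
        · exact h.ne_zero rfl
      refine ⟨⟨e⁻¹ * c, mul_ne_zero (inv_ne_zero h6) hc, ?_⟩, h4⟩
      simp only [Bool.not_true, Bool.false_eq_true, if_false]
      rw [h3, h5, smul_mul_assoc, one_mul, smul_smul]
      congr 1
      field_simp
    | false =>
      simp only [Bool.not_false, if_true]
      rw [List.map_cons, List.prod_cons, pol_nf hv, h3]
      refine ⟨⟨c, hc, by rw [mul_smul_comm]⟩, fun g' hg' => ?_⟩
      rcases List.mem_cons.1 hg' with rfl | h
      · refine ⟨nf_nice hv g hb, ?_⟩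
        rw [pol_nf hv]
        rcases hg with h | h
        · rw [isC_of_unit hv h] at hb
          exact absurd hb (by simp)
        · exact h
      · exact h4 g' h

end Main

end Field

end Final

open Final in
theorem final (K : Type) [Field K] [Finite K] [DecidableEq K] [TEnc K] (hv : VTS K) (h1 : A1S K) (h2 : A2S K) : FinalS K := by
  obtain ⟨A, hA, hA'⟩ := h1
  obtain ⟨A2, hA2, hA2'⟩ := h2
  refine ⟨out A A2, Poly_out hv hA hA2, fun f hf => ?_⟩
  have h0 : pol f ≠ 0 := by
    intro h; exact hf 0 (by rw [h, zero_smul])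
  obtain ⟨⟨c, hc, h3⟩, h4⟩ := hA' f h0
  obtain ⟨⟨c', hc', h5⟩, h6⟩ := fl_prod hA2' (A f) h4
  obtain ⟨⟨c'', hc'', h7⟩, h8⟩ := fac_prod hv _ h6
  have h9 : ((fac A A2 f).map pol).prod = (c'' * (c' * c)) • pol f := by
    unfold fac fl
    rw [h7, h5, h3, smul_smul, smul_smul]
    congr 1
    ring
  have h8' : ∀ g ∈ fac A A2 f, Nice g ∧ Irreducible (pol g) := h8
  have hcc : c'' * (c' * c) ≠ 0 := mul_ne_zero hc'' (mul_ne_zero hc' hc)
  generalize c'' * (c' * c) = k at h9 hcc
  clear h3 h4 h5 h6 h7 h8
  unfold out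
  generalize hG : fac A A2 f = G at h9 h8'
  cases G with
  | nil =>
    exfalso
    simp only [List.map_nil, List.prod_nil] at h9
    refine hf k⁻¹ ?_
    rw [h9, smul_smul, inv_mul_cancel₀ hcc, one_smul]
  | cons g G =>
    simp only
    have hN : ∀ g' ∈ g :: G, Nice g' := fun g' hg' => (h8' g' hg').1
    have hL := (lead_prod (g :: G) hN).1
    have hla : la (g :: G) ≠ 0 := la_ne _ hN
    have h7 : cf (lw (g :: G)) (pol f) = cof f (lw (g :: G)) := by
      obtain ⟨-, -, -, -, -, -, h7, -⟩ := hv
      exact h7 _ _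
    rw [h9, map_smul, smul_eq_mul, h7] at hL
    have hcf : cof f (lw (g :: G)) ≠ 0 := by
      intro h; rw [h, mul_zero] at hL; exact hla hL.symm
    have hq : cof f (lw (g :: G)) * (la (g :: G))⁻¹ = k⁻¹ := by
      rw [← hL]
      field_simp
    refine ⟨fun g' hg' => ?_, ?_⟩
    · rcases List.mem_cons.1 hg' with rfl | h
      · rw [pol_sc, hq]
        exact ⟨irreducible_smul (inv_ne_zero hcc) (h8' g (by simp)).2,
          redF_sc (inv_ne_zero hcc) (hN g (by simp))⟩
      · have h10 := h8' g' (List.mem_cons_of_mem _ h)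
        exact ⟨h10.2, h10.1.1, fun t ht => (h10.1.2.2.1 t ht).1⟩
    · rw [List.map_cons, List.prod_cons, pol_sc, hq, smul_mul_assoc]
      rw [List.map_cons, List.prod_cons] at h9
      rw [h9, smul_smul, inv_mul_cancel₀ hcc, one_smul]

end Pool.Agent.H420_NCF.FF
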