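import Pool.Agent.H420_NCF.Spec2
import Pool.Agent.H420_NCF.FF.Base

/-!
# Module HStep over a finite field: one step of phase 1
-/

namespace Pool.Agent.H420_NCF.FF

open Pool.Agent.NPC Pool.Agent.NPC.H532
open scoped Matrix

namespace HStep

set_option linter.unusedSectionVars false

section Field

variable {K : Type} [Field K]

theorem cf_phi (l : List (List ℕ)) (v : Fin l.length → K) (w : List ℕ) :
    cf w (phi K l v) = ∑ i : Fin l.length, if l.getD i [] = w then v i else 0 := by
  have : phi K l v = ∑ i, v i • (mon (l.getD i []) : NC K) := rfl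
  rw [this, map_sum]
  refine Finset.sum_congr rfl fun i _ => ?_
  rw [map_smul, cf_mon, smul_eq_mul]
  split_ifs <;> simp

theorem cf_phi_get {l : List (List ℕ)} (hl : l.Nodup) (v : Fin l.length → K)
    (i : Fin l.length) : cf (l.getD i []) (phi K l v) = v i := by
  rw [cf_phi, Finset.sum_eq_single i]
  · rw [if_pos rfl]
  · intro j _ hj
    rw [if_neg]
    intro h
    rw [List.getD_eq_getElem _ _ j.2, List.getD_eq_getElem _ _ i.2] at h
    exact hj (Fin.ext (hl.getElem_inj_iff.1 h))
  · intro h; exact absurd (Finset.mem_univ i) h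

theorem cf_Top (f : NC K) (u w : List ℕ) (x : ℕ) (p : NC K) (y : List ℕ) :
    cf y (Top f u w x p) = cf (u ++ w) f * cf (x :: y) p - cf w p * cf (u ++ x :: y) f := by
  change cf y (lq x (cf (u ++ w) f • p - cf w p • lqw u f)) = _
  rw [cf_lq, map_sub, map_smul, map_smul, cf_lqw, smul_eq_mul, smul_eq_mul]

/-- The matrices of the operators. -/
def mats (f : IP K) (u w : List ℕ) : List (List (List K)) := (lets f).map fun x => tm f u w x

/-- The coordinates of the left quotients. -/
def starts (f : IP K) : List (List K) :=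
  (lets f).map fun x => (ws f).map fun y => cof f (x :: y)

theorem starts_length {f : IP K} : ∀ v ∈ starts f, v.length = (ws f).length := by
  intro v hv
  unfold starts at hv
  rw [List.mem_map] at hv
  obtain ⟨x, _, rfl⟩ := hv
  simp

end Field

section Alg

variable {K : Type} [Field K] [DecidableEq K]
  (clo : List (List (List K)) × List (List K) → List (List K))
  (mh : List (List ℕ) × List (List K) → List K)

/-- The closed space. -/
def NN (f : IP K) (u w : List ℕ) : List (List K) := clo (mats f u w, starts f)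

/-- The constant terms vanish. -/
def test (l : List (List ℕ)) (N : List (List K)) : Bool :=
  N.all fun v => (List.range l.length).all fun i =>
    !decide (l.getD i [] = []) || decide (v.getD i 0 = 0)

/-- The algorithm. -/
def H (a : IP K × List ℕ × List ℕ) : Bool × IP K :=
  (decide (a.2.2 = []) || test (ws a.1) (NN clo a.1 a.2.1 a.2.2),
    toIP (ws a.1) (mh (ws a.1, vecOf (ws a.1) a.1 :: NN clo a.1 a.2.1 a.2.2)))

theorem test_iff {l : List (List ℕ)} (hl : l.Nodup) (N : List (List K)) :
    test l N = true ↔ ∀ v ∈ N, eps (phi K l (vq l.length v)) = 0 := by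
  unfold test
  rw [List.all_eq_true]
  refine forall₂_congr fun v _ => ?_
  rw [List.all_eq_true]
  constructor
  · intro h
    rw [eps_def, cf_phi]
    refine Finset.sum_eq_zero fun i _ => ?_
    split_ifs with hi
    · have := h i (List.mem_range.2 i.2)
      simp only [hi, decide_true, Bool.not_true, Bool.false_or, decide_eq_true_eq] at this
      exact this
    · rfl
  · intro h i hi
    rw [List.mem_range] at hi
    by_cases hli : l.getD i [] = []
    · have h1 := cf_phi_get hl (vq l.length v) ⟨i, hi⟩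
      change cf (l.getD i []) (phi K l (vq l.length v)) = v.getD i 0 at h1
      rw [hli] at h1
      rw [eps_def, h1] at h
      simp only [h, decide_true, Bool.or_true]
    · rw [decide_eq_false hli]; rfl

end Alg

section PolyTime

variable {K : Type} [Field K] [Finite K] [DecidableEq K] [TEnc K]

theorem Poly_test {α : Type} [TEnc α] {l : α → List (List ℕ)} {N : α → List (List K)}
    (hl : Poly l) (hN : Poly N) : Poly (fun a => test (l a) (N a)) := by
  unfold test
  refine NPC.Poly.all (α := α) (β := List K) (p := fun a v =>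
    (List.range (l a).length).all fun i =>
      !decide ((l a).getD i [] = []) || decide (v.getD i 0 = 0)) hN ?_
  have h1 : Poly (fun p : α × List K => p.1) := NPC.Poly.fst NPC.Poly.id
  refine NPC.Poly.all (α := α × List K) (β := ℕ) (p := fun p i =>
      !decide ((l p.1).getD i [] = []) || decide (p.2.getD i 0 = 0))
    (UPoly.length (hl.comp h1)).range ?_
  have h2 : Poly (fun p : (α × List K) × ℕ => p.2) := NPC.Poly.snd NPC.Poly.id
  have h3 : Poly (fun p : (α × List K) × ℕ => p.1.2) := NPC.Poly.snd (NPC.Poly.fst NPC.Poly.id)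
  have h4 : Poly (fun p : (α × List K) × ℕ => p.1.1) := NPC.Poly.fst (NPC.Poly.fst NPC.Poly.id)
  exact NPC.Poly.or (NPC.Poly.not (NPC.Poly.decide_eq
      (NPC.Poly.getD (hl.comp h4) h2 (NPC.Poly.const [])) (NPC.Poly.const [])))
    (NPC.Poly.decide_eq (NPC.Poly.getD h3 h2 (NPC.Poly.const 0)) (NPC.Poly.const 0))

theorem Poly_NN {clo : List (List (List K)) × List (List K) → List (List K)} (hclo : Poly clo)
    (hws : Poly (ws : IP K → _)) (hlets : Poly (lets : IP K → _))
    (hcof : Poly (fun p : IP K × List ℕ => cof p.1 p.2))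
    (htm : Poly (fun p : IP K × List ℕ × List ℕ × ℕ => tm p.1 p.2.1 p.2.2.1 p.2.2.2)) :
    Poly (fun a : IP K × List ℕ × List ℕ => NN clo a.1 a.2.1 a.2.2) := by
  unfold NN
  have h1 : Poly (fun a : IP K × List ℕ × List ℕ => a.1) := NPC.Poly.fst NPC.Poly.id
  have hm : Poly (fun a : IP K × List ℕ × List ℕ => mats a.1 a.2.1 a.2.2) := by
    unfold mats
    refine NPC.Poly.map (α := IP K × List ℕ × List ℕ) (β := ℕ) (γ := List (List K))
      (F := fun a x => tm a.1 a.2.1 a.2.2 x) (hlets.comp h1) ?_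
    have h2 : Poly (fun p : (IP K × List ℕ × List ℕ) × ℕ =>
        (p.1.1, p.1.2.1, p.1.2.2, p.2)) :=
      NPC.Poly.pair (NPC.Poly.fst (NPC.Poly.fst NPC.Poly.id))
        (NPC.Poly.pair (NPC.Poly.fst (NPC.Poly.snd (NPC.Poly.fst NPC.Poly.id)))
          (NPC.Poly.pair (NPC.Poly.snd (NPC.Poly.snd (NPC.Poly.fst NPC.Poly.id)))
            (NPC.Poly.snd NPC.Poly.id)))
    have h3 := htm.comp h2
    exact h3
  have hs : Poly (fun a : IP K × List ℕ × List ℕ => starts a.1) := by
    unfold starts
    refine NPC.Poly.map (α := IP K × List ℕ × List ℕ) (β := ℕ) (γ := List K)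
      (F := fun a x => (ws a.1).map fun y => cof a.1 (x :: y)) (hlets.comp h1) ?_
    refine NPC.Poly.map (α := (IP K × List ℕ × List ℕ) × ℕ) (β := List ℕ) (γ := K)
      (F := fun p y => cof p.1.1 (p.2 :: y)) (hws.comp (NPC.Poly.fst (NPC.Poly.fst NPC.Poly.id))) ?_
    have h2 : Poly (fun p : ((IP K × List ℕ × List ℕ) × ℕ) × List ℕ =>
        (p.1.1.1, p.1.2 :: p.2)) :=
      NPC.Poly.pair (NPC.Poly.fst (NPC.Poly.fst (NPC.Poly.fst NPC.Poly.id)))
        (NPC.Poly.cons (NPC.Poly.snd (NPC.Poly.fst NPC.Poly.id)) (NPC.Poly.snd NPC.Poly.id))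
    have h3 := hcof.comp h2
    exact h3
  exact hclo.comp (NPC.Poly.pair hm hs)

theorem Poly_H {clo : List (List (List K)) × List (List K) → List (List K)}
    {mh : List (List ℕ) × List (List K) → List K} (hclo : Poly clo) (hmh : Poly mh)
    (hws : Poly (ws : IP K → _)) (hlets : Poly (lets : IP K → _))
    (hcof : Poly (fun p : IP K × List ℕ => cof p.1 p.2))
    (hvec : Poly (fun p : List (List ℕ) × IP K => vecOf p.1 p.2))
    (hto : Poly (fun p : List (List ℕ) × List K => toIP p.1 p.2))
    (htm : Poly (fun p : IP K × List ℕ × List ℕ × ℕ => tm p.1 p.2.1 p.2.2.1 p.2.2.2)) :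
    Poly (H clo mh) := by
  have hN := Poly_NN hclo hws hlets hcof htm
  have h1 : Poly (fun a : IP K × List ℕ × List ℕ => a.1) := NPC.Poly.fst NPC.Poly.id
  have h2 : Poly (fun a : IP K × List ℕ × List ℕ => ws a.1) := hws.comp h1
  have h3 : Poly (fun a : IP K × List ℕ × List ℕ => (ws a.1, a.1)) := NPC.Poly.pair h2 h1
  have h4 := hvec.comp h3
  have h5 : Poly (fun a : IP K × List ℕ × List ℕ =>
      mh (ws a.1, vecOf (ws a.1) a.1 :: NN clo a.1 a.2.1 a.2.2)) :=
    hmh.comp (NPC.Poly.pair h2 (NPC.Poly.cons h4 hN))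
  have h6 := hto.comp (NPC.Poly.pair h2 h5)
  unfold H
  exact NPC.Poly.pair (NPC.Poly.or
    (NPC.Poly.decide_eq (NPC.Poly.snd (NPC.Poly.snd NPC.Poly.id)) (NPC.Poly.const []))
    (Poly_test h2 hN)) h6

end PolyTime

section Correct

variable {K : Type} [Field K]

theorem mem_lets_of_append {f : IP K}
    (h2 : ∀ (f : IP K) (x : ℕ) (w : List ℕ), x :: w ∈ ws f → w ∈ ws f ∧ x ∈ lets f) (x : ℕ)
    (y : List ℕ) : ∀ u : List ℕ, u ++ x :: y ∈ ws f → x ∈ lets f
  | [], h => (h2 f x y h).2
  | z :: u, h => mem_lets_of_append h2 x y u (h2 f z _ h).1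

theorem phi_start {f : IP K} (h1 : ∀ (f : IP K) (w : List ℕ), cf w (pol f) = cof f w)
    (hn : (ws f).Nodup) (h3 : ∀ (f : IP K) (w : List ℕ), cof f w ≠ 0 → w ∈ ws f)
    (h4 : ∀ (f : IP K) (x : ℕ) (w : List ℕ), x :: w ∈ ws f → w ∈ ws f ∧ x ∈ lets f)
    (h5 : ∀ (l : List (List ℕ)) (p : NC K), l.Nodup →
      (p ∈ LinearMap.range (phi K l) ↔ ∀ w, cf w p ≠ 0 → w ∈ l)) (x : ℕ) :
    phi K (ws f) (vq (ws f).length ((ws f).map fun y => cof f (x :: y))) = lq x (pol f) := by
  obtain ⟨v, hv⟩ := (h5 (ws f) (lq x (pol f)) hn).2 fun w hw => by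
    rw [cf_lq, h1] at hw
    exact (h4 f x w (h3 f _ hw)).1
  rw [← hv]
  congr 1
  funext i
  have h6 := cf_phi_get hn v i
  rw [hv, cf_lq, h1] at h6
  rw [← h6]
  unfold vq
  rw [List.getD_eq_getElem _ _ (by simp), List.getElem_map, List.getD_eq_getElem _ _ i.2]

theorem lq_eq_zero {f : IP K} (h1 : ∀ (f : IP K) (w : List ℕ), cf w (pol f) = cof f w)
    (h3 : ∀ (f : IP K) (w : List ℕ), cof f w ≠ 0 → w ∈ ws f)
    (h4 : ∀ (f : IP K) (x : ℕ) (w : List ℕ), x :: w ∈ ws f → w ∈ ws f ∧ x ∈ lets f) {x : ℕ}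
    (hx : x ∉ lets f) : lq x (pol f) = 0 := by
  ext y
  rw [cf_lq, h1, map_zero]
  by_contra h
  exact hx (h4 f x y (h3 f _ h)).2

theorem Top_eq_zero {f : IP K} (h1 : ∀ (f : IP K) (w : List ℕ), cf w (pol f) = cof f w)
    (hn : (ws f).Nodup) (h3 : ∀ (f : IP K) (w : List ℕ), cof f w ≠ 0 → w ∈ ws f)
    (h4 : ∀ (f : IP K) (x : ℕ) (w : List ℕ), x :: w ∈ ws f → w ∈ ws f ∧ x ∈ lets f)
    (h5 : ∀ (l : List (List ℕ)) (p : NC K), l.Nodup →
      (p ∈ LinearMap.range (phi K l) ↔ ∀ w, cf w p ≠ 0 → w ∈ l)) {x : ℕ}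
    (hx : x ∉ lets f) (u w : List ℕ) (v : Fin (ws f).length → K) :
    Top (pol f) u w x (phi K (ws f) v) = 0 := by
  ext y
  rw [cf_Top, map_zero]
  have h6 : cf (x :: y) (phi K (ws f) v) = 0 := by
    by_contra h
    exact hx (h4 f x y ((h5 (ws f) _ hn).1 ⟨v, rfl⟩ _ h)).2
  have h7 : cf (u ++ x :: y) (pol f) = 0 := by
    by_contra h
    rw [h1] at h
    exact hx (mem_lets_of_append h4 x y u (h3 f _ h))
  rw [h6, h7, mul_zero, mul_zero, sub_zero]

end Correct

end HStep

theorem hStep (K : Type) [Field K] [Finite K] [DecidableEq K] [TEnc K] (hv : VTS K) (hc : CloS K)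
    (hm : MinhS K) (hp : P1S K) : HStepS K := by
  obtain ⟨pws, plets, pcof, pvec, pto, ptm, v1, v2, v3, v4, v5, v6, v7, v8, v9, v10⟩ := hv
  obtain ⟨clo, hclo, hclo'⟩ := hc
  obtain ⟨mh, hmh, hmh'⟩ := hm
  refine ⟨HStep.H clo mh, HStep.Poly_H hclo hmh pws plets pcof pvec pto ptm, ?_⟩
  intro f u w hf hcf hu
  have hn := v2 f
  obtain ⟨c1, c2, c3, c4, c5⟩ := hclo' (ws f).length (HStep.mats f u w) (HStep.starts f)
    (fun M hM => by
      unfold HStep.mats at hM
      rw [List.mem_map] at hM
      obtain ⟨x, _, rfl⟩ := hM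
      exact (v10 f u w x).1) HStep.starts_length
  set N := HStep.NN clo f u w with hN
  have hNdef : clo (HStep.mats f u w, HStep.starts f) = N := rfl
  rw [hNdef] at c1 c2 c3 c4 c5
  have hmap : (vspan (ws f).length N).map (phi K (ws f)) = Ncl (pol f) u w := by
    apply le_antisymm
    · unfold Ncl
      refine le_sInf fun U hU => ?_
      obtain ⟨hU1, hU2⟩ := hU
      rw [Submodule.map_le_iff_le_comap]
      refine c5 _ ?_ ?_
      · unfold vspan
        rw [Submodule.span_le]
        rintro _ ⟨v, hv, rfl⟩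
        unfold HStep.starts at hv
        rw [List.mem_map] at hv
        obtain ⟨x, _, rfl⟩ := hv
        change phi K (ws f) _ ∈ U
        rw [HStep.phi_start v1 hn v4 v5 v7]
        exact hU2 x
      · intro M hM v hv
        unfold HStep.mats at hM
        rw [List.mem_map] at hM
        obtain ⟨x, _, rfl⟩ := hM
        change phi K (ws f) _ ∈ U
        rw [(v10 f u w x).2 v]
        exact hU1 x _ hv
    · refine sInf_le ⟨?_, fun x => ?_⟩
      · intro x p hp
        obtain ⟨v, hv, rfl⟩ := hp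
        by_cases hx : x ∈ lets f
        · refine ⟨v ᵥ* mq (ws f).length (tm f u w x), ?_, (v10 f u w x).2 v⟩
          exact c4 _ (List.mem_map.2 ⟨x, hx, rfl⟩) v hv
        · rw [HStep.Top_eq_zero v1 hn v4 v5 v7 hx]
          exact Submodule.zero_mem _
      · by_cases hx : x ∈ lets f
        · rw [← HStep.phi_start v1 hn v4 v5 v7]
          refine ⟨_, c3 (Submodule.subset_span ⟨_, ?_, rfl⟩), rfl⟩
          exact List.mem_map.2 ⟨x, hx, rfl⟩
        · rw [HStep.lq_eq_zero v1 v4 v5 hx]
          exact Submodule.zero_mem _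
  obtain ⟨p1, p2⟩ := hp (pol f) u w hf hcf hu
  have htest : HStep.test (ws f) N = true ↔ ∀ p ∈ Ncl (pol f) u w, eps p = 0 := by
    rw [HStep.test_iff hn, ← hmap]
    constructor
    · rintro h _ ⟨v, hv, rfl⟩
      have hle : vspan (ws f).length N ≤ LinearMap.ker (eps ∘ₗ phi K (ws f)) := by
        unfold vspan
        rw [Submodule.span_le]
        rintro _ ⟨v, hv, rfl⟩
        exact h v hv
      exact hle hv
    · intro h v hv
      exact h _ ⟨_, Submodule.subset_span ⟨v, hv, rfl⟩, rfl⟩
  constructor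
  · rw [p1]
    change (decide (w = []) || HStep.test (ws f) N) = true ↔ _
    rw [Bool.or_eq_true, htest, decide_eq_true_eq]
  · intro hg
    refine p2 hg _ ?_
    have hvec : phi K (ws f) (vq (ws f).length (vecOf (ws f) f)) = pol f :=
      v9 (ws f) f hn (v4 f)
    have hmap2 : (vspan (ws f).length (vecOf (ws f) f :: N)).map (phi K (ws f)) =
        Ncl (pol f) u w ⊔ Submodule.span K {pol f} := by
      have h1 : vspan (ws f).length (vecOf (ws f) f :: N) =
          vspan (ws f).length N ⊔ Submodule.span K {vq (ws f).length (vecOf (ws f) f)} := by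
        unfold vspan
        rw [← Submodule.span_union]
        congr 1
        ext z
        simp only [List.mem_cons, Set.mem_union, Set.mem_singleton_iff]
        constructor
        · rintro ⟨v, rfl | hv, rfl⟩
          · exact Or.inr rfl
          · exact Or.inl ⟨v, hv, rfl⟩
        · rintro (⟨v, hv, rfl⟩ | rfl)
          · exact ⟨v, Or.inr hv, rfl⟩
          · exact ⟨_, Or.inl rfl, rfl⟩
      rw [h1, Submodule.map_sup, hmap, Submodule.map_span, Set.image_singleton, hvec]
    have hlen : ∀ v ∈ vecOf (ws f) f :: N, v.length = (ws f).length := by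
      intro v hv
      rcases List.mem_cons.1 hv with rfl | hv
      · simp [vecOf]
      · exact c1 v hv
    have hne : vspan (ws f).length (vecOf (ws f) f :: N) ≠ ⊥ := by
      intro h0
      rw [h0, Submodule.map_bot] at hmap2
      have : pol f ∈ (⊥ : Submodule K (NC K)) := by
        rw [hmap2]
        exact Submodule.mem_sup_right (Submodule.mem_span_singleton_self _)
      exact hf.ne_zero (by simpa using this)
    obtain ⟨m1, m2⟩ := hmh' (ws f) (vecOf (ws f) f :: N) hn hlen hne
    rw [hmap2] at m2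
    have h2 : pol (HStep.H clo mh (f, u, w)).2 =
        phi K (ws f) (vq (ws f).length (mh (ws f, vecOf (ws f) f :: N))) :=
      v8 (ws f) _ m1
    rw [h2]
    exact m2

end Pool.Agent.H420_NCF.FF
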