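import Pool.Agent.H420_NCF.Spec2
import Pool.Agent.H420_NCF.FF.Base

/-!
# all relations between the rows of a matrix over a finite field (module K2)
-/

set_option linter.unusedSectionVars false

namespace Pool.Agent.H420_NCF.FF.K2

open Pool.Agent.NPC Pool.Agent.NPC.H532 Pool.Agent.H420_NCF.FF

variable {K : Type} [Field K] [DecidableEq K]

/-- Column `j` of the combination of the rows of `X` with coefficients `u`. -/
def cv (X : List (List K)) (j : ℕ) (u : List K) : K :=
  ((List.range X.length).map fun i => u.getD i 0 * FF.entry X i j).sum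

/-- The pivot. -/
def piv (X : List (List K)) (j : ℕ) (U : List (List K)) : List K :=
  (U.filter fun u => !decide (cv X j u = 0)).getD 0 []

/-- The elimination of column `j` from `u` by means of `w`. -/
def upd (X : List (List K)) (j : ℕ) (w u : List K) : List K :=
  (List.range X.length).map fun i => u.getD i 0 - cv X j u * (cv X j w)⁻¹ * w.getD i 0

/-- One step. -/
def step (X : List (List K)) (j : ℕ) (U : List (List K)) : List (List K) :=
  U.map fun u => upd X j (piv X j U) u

/-- The unit vectors. -/
def start (X : List (List K)) : List (List K) :=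
  FF.tab X.length X.length fun i j => if j = i then 1 else 0

/-- The algorithm. -/
def kq (X : List (List K)) : List (List K) :=
  (List.range (X.getD 0 []).length).foldl (fun U j => step X j U) (start X)

section P

variable [Finite K] [TEnc K] {α : Type} [TEnc α]

theorem Poly_cv {X : α → List (List K)} {j : α → ℕ} {u : α → List K} (hX : Poly X) (hj : Poly j)
    (hu : Poly u) : Poly (fun a => cv (X a) (j a) (u a)) := by
  unfold cv
  refine Poly_sumK ?_
  refine NPC.Poly.map (UPoly.length hX).range ?_
  refine Poly_mulK ?_ ?_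
  · exact NPC.Poly.getD (hu.comp (NPC.Poly.fst NPC.Poly.id)) (NPC.Poly.snd NPC.Poly.id)
      (NPC.Poly.const 0)
  · exact Poly_entryK (hX.comp (NPC.Poly.fst NPC.Poly.id)) (NPC.Poly.snd NPC.Poly.id)
      (hj.comp (NPC.Poly.fst NPC.Poly.id))

theorem Poly_piv {X : α → List (List K)} {j : α → ℕ} {U : α → List (List K)} (hX : Poly X)
    (hj : Poly j) (hU : Poly U) : Poly (fun a => piv (X a) (j a) (U a)) := by
  unfold piv
  refine NPC.Poly.getD ?_ (NPC.Poly.const 0) (NPC.Poly.const [])
  refine NPC.Poly.filter hU ?_
  exact NPC.Poly.not (NPC.Poly.decide_eq (Poly_cv (hX.comp (NPC.Poly.fst NPC.Poly.id))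
    (hj.comp (NPC.Poly.fst NPC.Poly.id)) (NPC.Poly.snd NPC.Poly.id)) (NPC.Poly.const 0))

theorem Poly_upd {X : α → List (List K)} {j : α → ℕ} {w u : α → List K} (hX : Poly X)
    (hj : Poly j) (hw : Poly w) (hu : Poly u) : Poly (fun a => upd (X a) (j a) (w a) (u a)) := by
  unfold upd
  refine NPC.Poly.map (UPoly.length hX).range ?_
  have h1 : Poly (fun p : α × ℕ => p.1) := NPC.Poly.fst NPC.Poly.id
  refine Poly_subK (NPC.Poly.getD (hu.comp h1) (NPC.Poly.snd NPC.Poly.id) (NPC.Poly.const 0)) ?_
  refine Poly_mulK (Poly_mulK ?_ (Poly_invK ?_)) ?_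
  · exact (Poly_cv hX hj hu).comp h1
  · exact (Poly_cv hX hj hw).comp h1
  · exact NPC.Poly.getD (hw.comp h1) (NPC.Poly.snd NPC.Poly.id) (NPC.Poly.const 0)

theorem Poly_step {X : α → List (List K)} {j : α → ℕ} {U : α → List (List K)} (hX : Poly X)
    (hj : Poly j) (hU : Poly U) : Poly (fun a => step (X a) (j a) (U a)) := by
  unfold step
  refine NPC.Poly.map hU ?_
  have h1 : Poly (fun p : α × List K => p.1) := NPC.Poly.fst NPC.Poly.id
  exact Poly_upd (hX.comp h1) (hj.comp h1) ((Poly_piv hX hj hU).comp h1)
    (NPC.Poly.snd NPC.Poly.id)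

theorem Poly_start {X : α → List (List K)} (hX : Poly X) : Poly (fun a => start (X a)) := by
  unfold start
  refine Poly_tabK (UPoly.length hX) (UPoly.length hX) ?_
  exact NPC.Poly.ite (NPC.Poly.decide_eq (NPC.Poly.snd NPC.Poly.id)
    (NPC.Poly.snd (NPC.Poly.fst NPC.Poly.id))) (NPC.Poly.const 1) (NPC.Poly.const 0)

theorem shape (X : List (List K)) (k : ℕ) :
    ((List.range k).foldl (fun U j => step X j U) (start X)).length = X.length ∧
    ∀ u ∈ (List.range k).foldl (fun U j => step X j U) (start X), u.length = X.length := by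
  induction k with
  | zero => exact ⟨(isMat_tab _ _ _).1, (isMat_tab _ _ _).2⟩
  | succ k ih =>
    rw [List.range_succ, List.foldl_append, List.foldl_cons, List.foldl_nil]
    refine ⟨(List.length_map _).trans ih.1, fun u hu => ?_⟩
    obtain ⟨w, _, rfl⟩ := List.mem_map.1 hu
    unfold upd
    rw [List.length_map, List.length_range]

theorem Poly_kq : Poly (kq : List (List K) → List (List K)) := by
  obtain ⟨B, hB⟩ := exists_sz_tab K
  refine Poly_foldRange (α := List (List K)) (n := fun X => (X.getD 0 []).length)
    (s := fun X => start X)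
    (F := fun X U j => step X j U) ?_ (Poly_start NPC.Poly.id) ?_
    (fun X => X.length * (X.length * B + 2) + 1) ?_ ?_
  · exact UPoly.length (NPC.Poly.getD NPC.Poly.id (NPC.Poly.const 0) (NPC.Poly.const []))
  · exact Poly_step (NPC.Poly.fst NPC.Poly.id) (NPC.Poly.snd (NPC.Poly.snd NPC.Poly.id))
      (NPC.Poly.fst (NPC.Poly.snd NPC.Poly.id))
  · have h1 : PB (fun X : List (List K) => X.length) := PB.length NPC.Poly.id
    exact (h1.mul ((h1.mul (PB.const B)).add (PB.const 2))).add (PB.const 1)
  · intro X k _
    have := shape X k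
    exact hB _ _ _ this.1.le fun v hv => (this.2 v hv).le

end P

/-- Column `j` as a linear functional. -/
noncomputable def ell (X : List (List K)) (j : ℕ) : (Fin X.length → K) →ₗ[K] K where
  toFun c := ∑ i : Fin X.length, c i * FF.entry X i j
  map_add' c d := by
    rw [← Finset.sum_add_distrib]
    exact Finset.sum_congr rfl fun i _ => by rw [Pi.add_apply, add_mul]
  map_smul' a c := by
    rw [RingHom.id_apply, smul_eq_mul, Finset.mul_sum]
    exact Finset.sum_congr rfl fun i _ => by rw [Pi.smul_apply, smul_eq_mul, mul_assoc]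

theorem ell_vq (X : List (List K)) (j : ℕ) (u : List K) :
    ell X j (FF.vq X.length u) = cv X j u :=
  sum_fin_eq_list X.length fun i => u.getD i 0 * FF.entry X i j

theorem vq_upd (X : List (List K)) (j : ℕ) (w u : List K) :
    FF.vq X.length (upd X j w u) = FF.vq X.length u -
      (cv X j u * (cv X j w)⁻¹) • FF.vq X.length w := by
  funext i
  unfold FF.vq upd
  rw [List.getD_eq_getElem _ _ (by simp)]
  simp

/-- The elimination as a linear map. -/
noncomputable def TT (X : List (List K)) (j : ℕ) (w : List K) :
    (Fin X.length → K) →ₗ[K] (Fin X.length → K) :=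
  LinearMap.id - (ell X j).smulRight ((cv X j w)⁻¹ • FF.vq X.length w)

theorem TT_apply (X : List (List K)) (j : ℕ) (w : List K) (c : Fin X.length → K) :
    TT X j w c = c - (ell X j c * (cv X j w)⁻¹) • FF.vq X.length w := by
  unfold TT
  rw [LinearMap.sub_apply, LinearMap.id_apply, LinearMap.smulRight_apply, smul_smul]

theorem ell_upd (X : List (List K)) (j j' : ℕ) (w u : List K) :
    cv X j' (upd X j w u) = cv X j' u - cv X j u * (cv X j w)⁻¹ * cv X j' w := by
  rw [← ell_vq, vq_upd, map_sub, map_smul, ell_vq, ell_vq, smul_eq_mul]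

theorem cv_nil (X : List (List K)) (j : ℕ) : cv X j [] = 0 := by
  rw [← ell_vq]
  have : FF.vq X.length ([] : List K) = 0 := by
    funext i; rfl
  rw [this, map_zero]

theorem piv_mem_or (X : List (List K)) (j : ℕ) (U : List (List K)) :
    (piv X j U ∈ U ∧ cv X j (piv X j U) ≠ 0) ∨
      (piv X j U = [] ∧ ∀ u ∈ U, cv X j u = 0) := by
  unfold piv
  rcases hF : U.filter fun u => !decide (cv X j u = 0) with _ | ⟨w, F⟩
  · right
    refine ⟨rfl, fun u hu => ?_⟩
    by_contra hne
    have : u ∈ U.filter fun u => !decide (cv X j u = 0) :=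
      List.mem_filter.2 ⟨hu, by simpa using hne⟩
    rw [hF] at this
    exact absurd this (List.not_mem_nil)
  · left
    have : w ∈ U.filter fun u => !decide (cv X j u = 0) := by rw [hF]; simp
    rw [List.mem_filter] at this
    exact ⟨this.1, by simpa using this.2⟩

theorem inv (X : List (List K)) (k : ℕ) :
    (∀ u ∈ (List.range k).foldl (fun U j => step X j U) (start X), ∀ j < k, cv X j u = 0) ∧
    ∀ c : Fin X.length → K, (∀ j < k, ell X j c = 0) →
      c ∈ FF.vspan X.length ((List.range k).foldl (fun U j => step X j U) (start X)) := by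
  induction k with
  | zero =>
    refine ⟨fun u _ j hj => absurd hj (by omega), fun c _ => ?_⟩
    rw [List.range_zero, List.foldl_nil]
    have h1 : c = ∑ i : Fin X.length, c i • (Pi.single i 1 : Fin X.length → K) := by
      funext l
      rw [Finset.sum_apply, Finset.sum_eq_single l]
      · rw [Pi.smul_apply, Pi.single_eq_same, smul_eq_mul, mul_one]
      · intro b _ hb
        rw [Pi.smul_apply, Pi.single_eq_of_ne (Ne.symm hb), smul_zero]
      · intro h; exact absurd (Finset.mem_univ _) h
    rw [h1]
    refine Submodule.sum_mem _ fun i _ => Submodule.smul_mem _ _ (Submodule.subset_span ?_)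
    refine ⟨(List.range X.length).map fun j => if j = (i : ℕ) then 1 else 0, ?_, ?_⟩
    · unfold start FF.tab
      exact List.mem_map.2 ⟨i, List.mem_range.2 i.2, rfl⟩
    · funext l
      unfold FF.vq
      rw [List.getD_eq_getElem _ _ (by simp)]
      simp only [List.getElem_map, List.getElem_range]
      by_cases h : l = i
      · subst h; rw [Pi.single_eq_same, if_pos rfl]
      · rw [Pi.single_eq_of_ne h, if_neg (fun h' => h (Fin.ext h'))]
  | succ k ih =>
    rw [List.range_succ, List.foldl_append, List.foldl_cons, List.foldl_nil]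
    set U := (List.range k).foldl (fun U j => step X j U) (start X) with hU
    obtain ⟨ih1, ih2⟩ := ih
    set w := piv X k U with hw
    have hpiv := piv_mem_or X k U
    rw [← hw] at hpiv
    constructor
    · intro u hu j hj
      unfold step at hu
      obtain ⟨u', hu', rfl⟩ := List.mem_map.1 hu
      rw [← hw, ell_upd]
      by_cases hjk : j = k
      · subst hjk
        rcases hpiv with ⟨_, h⟩ | ⟨h, h'⟩
        · field_simp
          ring
        · rw [h' u' hu']; ring
      · have hj' : j < k := by omega
        rw [ih1 u' hu' j hj']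
        have : cv X j w = 0 := by
          rcases hpiv with ⟨h, _⟩ | ⟨h, _⟩
          · exact ih1 w h j hj'
          · rw [h, cv_nil]
        rw [this, mul_zero, sub_zero]
    · intro c hc
      have h1 := ih2 c fun j hj => hc j (by omega)
      have h2 : TT X k w c = c := by
        rw [TT_apply, hc k (by omega), zero_mul, zero_smul, sub_zero]
      rw [← h2]
      have h3 := Submodule.mem_map_of_mem (f := TT X k w) h1
      unfold FF.vspan at h3
      rw [Submodule.map_span] at h3
      refine Submodule.span_mono ?_ h3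
      rintro _ ⟨_, ⟨u, hu, rfl⟩, rfl⟩
      refine ⟨upd X k w u, ?_, ?_⟩
      · unfold step
        exact List.mem_map.2 ⟨u, hu, by rw [hw]⟩
      · rw [TT_apply, vq_upd, ell_vq]

end Pool.Agent.H420_NCF.FF.K2

namespace Pool.Agent.H420_NCF.FF

open Pool.Agent.NPC Pool.Agent.NPC.H532
open scoped Matrix

theorem k2 (K : Type) [Field K] [Finite K] [DecidableEq K] [TEnc K] : K2S K := by
  refine ⟨K2.kq, K2.Poly_kq, ?_⟩
  intro X q hX
  have hq0 : ∀ j, (X.getD 0 []).length ≤ j → ∀ c, K2.ell X j c = 0 := by
    intro j hj c
    change ∑ i : Fin X.length, c i * entry X i j = 0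
    refine Finset.sum_eq_zero fun i _ => ?_
    have h0 : 0 < X.length := lt_of_le_of_lt (Nat.zero_le _) i.2
    have h1 : (X.getD 0 []).length = q := by
      rw [List.getD_eq_getElem _ _ h0]; exact hX _ (List.getElem_mem _)
    unfold entry
    rw [List.getD_eq_getElem X _ i.2, List.getD_eq_default _ _ (by
      rw [hX _ (List.getElem_mem _), ← h1]; exact hj), mul_zero]
  have hsum : ∀ (c : Fin X.length → K), ∑ i, c i • vq q (X.getD i []) = fun j : Fin q =>
      K2.ell X j c := by
    intro c
    funext j
    rw [Finset.sum_apply]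
    rfl
  obtain ⟨h1, h2⟩ := K2.inv X (X.getD 0 []).length
  constructor
  · intro u hu
    refine ⟨(K2.shape X _).2 u hu, ?_⟩
    have := hsum (vq X.length u)
    change ∑ i, vq X.length u i • vq q (X.getD i []) = 0
    rw [this]
    funext j
    by_cases hj : (j : ℕ) < (X.getD 0 []).length
    · rw [K2.ell_vq]; exact h1 u hu j hj
    · exact hq0 j (by omega) _
  · intro c hc
    refine h2 c fun j hj => ?_
    rw [hsum] at hc
    have h0 : 0 < X.length := by
      by_contra hcon
      have : X = [] := List.length_eq_zero_iff.1 (by omega)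
      subst this
      simp at hj
    have h3 : (X.getD 0 []).length = q := by
      rw [List.getD_eq_getElem _ _ h0]; exact hX _ (List.getElem_mem _)
    exact congrFun hc ⟨j, by rw [← h3]; exact hj⟩

end Pool.Agent.H420_NCF.FF
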