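import Pool.Agent.H420_NCF.Spec2
import Pool.Agent.H420_NCF.FF.Base

/-!
# membership and coordinates over a finite field (module MemCo)
-/

set_option linter.unusedSectionVars false

namespace Pool.Agent.H420_NCF.FF.MemCo

open Pool.Agent.NPC Pool.Agent.NPC.H532 Pool.Agent.H420_NCF.FF

variable {K : Type} [Field K] [DecidableEq K]

/-- The span of a list of vectors as the span of a range. -/
theorem vspan_eq (n : ℕ) (L : List (List K)) :
    FF.vspan n L = Submodule.span K (Set.range fun i : Fin L.length => FF.vq n (L.getD i [])) := by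
  unfold FF.vspan
  congr 1
  ext w
  constructor
  · rintro ⟨v, hv, rfl⟩
    obtain ⟨i, hi, rfl⟩ := List.getElem_of_mem hv
    exact ⟨⟨i, hi⟩, by simp only; rw [List.getD_eq_getElem _ _ hi]⟩
  · rintro ⟨i, rfl⟩
    exact ⟨L.getD i [], by rw [List.getD_eq_getElem _ _ i.2]; exact List.getElem_mem _, rfl⟩

theorem mem_vspan_iff (n : ℕ) (L : List (List K)) (x : Fin n → K) :
    x ∈ FF.vspan n L ↔ ∃ c : Fin L.length → K, ∑ i, c i • FF.vq n (L.getD i []) = x := by
  rw [vspan_eq, Submodule.mem_span_range_iff_exists_fun]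

/-- The relations of `v :: L` with nonzero first coefficient. -/
def good (kq : List (List K) → List (List K)) (L : List (List K)) (v : List K) : List (List K) :=
  (kq (v :: L)).filter fun u => !decide (u.getD 0 0 = 0)

/-- Membership. -/
def memf (kq : List (List K) → List (List K)) (a : List (List K) × List K) : Bool :=
  !(good kq a.1 a.2).isEmpty

/-- Coordinates. -/
def cof (kq : List (List K) → List (List K)) (a : List (List K) × List K) : List K :=
  (List.range a.1.length).map fun i =>
    -(((good kq a.1 a.2).getD 0 []).getD (i + 1) 0 * (((good kq a.1 a.2).getD 0 []).getD 0 0)⁻¹)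

theorem Poly_good [Finite K] [TEnc K] {kq : List (List K) → List (List K)} (h : Poly kq)
    {α : Type} [TEnc α] {L : α → List (List K)} {v : α → List K} (hL : Poly L) (hv : Poly v) :
    Poly (fun a => good kq (L a) (v a)) := by
  unfold good
  refine NPC.Poly.filter (h.comp (NPC.Poly.cons hv hL)) ?_
  exact NPC.Poly.not (NPC.Poly.decide_eq (NPC.Poly.getD (NPC.Poly.snd NPC.Poly.id)
    (NPC.Poly.const 0) (NPC.Poly.const 0)) (NPC.Poly.const 0))

theorem Poly_memf [Finite K] [TEnc K] {kq : List (List K) → List (List K)} (h : Poly kq) :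
    Poly (memf kq) :=
  NPC.Poly.not (NPC.Poly.isEmpty (Poly_good h (NPC.Poly.fst NPC.Poly.id)
    (NPC.Poly.snd NPC.Poly.id)))

theorem Poly_cof [Finite K] [TEnc K] {kq : List (List K) → List (List K)} (h : Poly kq) :
    Poly (cof kq) := by
  unfold cof
  refine NPC.Poly.map (UPoly.length (NPC.Poly.fst NPC.Poly.id)).range ?_
  have h1 : Poly (fun p : (List (List K) × List K) × ℕ => (good kq p.1.1 p.1.2).getD 0 []) :=
    NPC.Poly.getD (Poly_good h (NPC.Poly.fst (NPC.Poly.fst NPC.Poly.id))
      (NPC.Poly.snd (NPC.Poly.fst NPC.Poly.id))) (NPC.Poly.const 0) (NPC.Poly.const [])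
  exact Poly_negK (Poly_mulK (NPC.Poly.getD h1 (NPC.Poly.succ (NPC.Poly.snd NPC.Poly.id))
    (NPC.Poly.const 0)) (Poly_invK (NPC.Poly.getD h1 (NPC.Poly.const 0) (NPC.Poly.const 0))))

/-- The relation of a good element, solved for `v`. -/
theorem solve {n : ℕ} {L : List (List K)} {v u : List K}
    (hrel : ∑ i : Fin (v :: L).length, u.getD i 0 • FF.vq n ((v :: L).getD i []) = 0)
    (h0 : u.getD 0 0 ≠ 0) :
    FF.vq n v = ∑ i : Fin L.length, (-(u.getD (i + 1) 0 * (u.getD 0 0)⁻¹)) •
      FF.vq n (L.getD i []) := by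
  have h1 : u.getD 0 0 • FF.vq n v + ∑ i : Fin L.length, u.getD (i + 1) 0 •
      FF.vq n (L.getD i []) = 0 := by
    rw [← hrel]
    exact (Fin.sum_univ_succ (n := L.length) (fun i : Fin (L.length + 1) =>
      u.getD i 0 • FF.vq n ((v :: L).getD i []))).symm
  have h2 : FF.vq n v = (u.getD 0 0)⁻¹ • (u.getD 0 0 • FF.vq n v) := by
    rw [smul_smul, inv_mul_cancel₀ h0, one_smul]
  rw [h2, eq_neg_of_add_eq_zero_left h1, smul_neg, Finset.smul_sum, ← Finset.sum_neg_distrib]
  refine Finset.sum_congr rfl fun i _ => ?_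
  rw [smul_smul, ← neg_smul, mul_comm]

theorem good_iff {kq : List (List K) → List (List K)} {n : ℕ} {L : List (List K)} {v : List K}
    (h1 : ∀ u ∈ kq (v :: L), ∑ i : Fin (v :: L).length,
      u.getD i 0 • FF.vq n ((v :: L).getD i []) = 0)
    (h2 : ∀ c : Fin (v :: L).length → K, ∑ i, c i • FF.vq n ((v :: L).getD i []) = 0 →
      c ∈ FF.vspan (v :: L).length (kq (v :: L))) :
    (∃ u, u ∈ good kq L v) ↔ FF.vq n v ∈ FF.vspan n L := by
  constructor
  · rintro ⟨u, hu⟩
    obtain ⟨hu1, hu2⟩ := List.mem_filter.1 hu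
    have hu3 : u.getD 0 0 ≠ 0 := by simpa using hu2
    rw [mem_vspan_iff]
    exact ⟨_, (solve (h1 u hu1) hu3).symm⟩
  · intro hv
    by_contra hcon
    obtain ⟨c, hc⟩ := (mem_vspan_iff n L _).1 hv
    have h3 := h2 (Fin.cons 1 (fun i => -c i) : Fin (L.length + 1) → K) (by
      have := Fin.sum_univ_succ (n := L.length) (fun i : Fin (L.length + 1) =>
        (Fin.cons 1 (fun i => -c i) : Fin (L.length + 1) → K) i • FF.vq n ((v :: L).getD i []))
      refine this.trans ?_
      simp only [Fin.cons_zero, one_smul, Fin.cons_succ]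
      have e : ∑ i : Fin L.length, (-c i) • FF.vq n ((v :: L).getD ((Fin.succ i : Fin _) : ℕ) []) =
          - ∑ i : Fin L.length, c i • FF.vq n (L.getD i []) := by
        rw [← Finset.sum_neg_distrib]
        exact Finset.sum_congr rfl fun i _ => by rw [neg_smul]; rfl
      rw [e, hc]
      exact add_neg_cancel _)
    have h4 : ∀ x ∈ FF.vspan (v :: L).length (kq (v :: L)), x ⟨0, by simp⟩ = 0 := by
      intro x hx
      unfold FF.vspan at hx
      induction hx using Submodule.span_induction with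
      | mem y hy =>
        obtain ⟨u, hu, rfl⟩ := hy
        by_contra hne
        have hne' : ¬ u.getD 0 0 = 0 := hne
        exact hcon ⟨u, List.mem_filter.2 ⟨hu, by rw [decide_eq_false hne']; rfl⟩⟩
      | zero => rfl
      | add a b _ _ ha hb => rw [Pi.add_apply, ha, hb, add_zero]
      | smul c a _ ha => rw [Pi.smul_apply, ha, smul_zero]
    have h5 := h4 _ h3
    exact one_ne_zero h5

end Pool.Agent.H420_NCF.FF.MemCo

namespace Pool.Agent.H420_NCF.FF

open Pool.Agent.NPC Pool.Agent.NPC.H532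
open scoped Matrix

theorem memCo (K : Type) [Field K] [Finite K] [DecidableEq K] [TEnc K] (h : K2S K) : MemS K ∧ CoS K := by
  obtain ⟨kq, hkq, hK⟩ := h
  have key : ∀ (n : ℕ) (L : List (List K)) (v : List K), (∀ w ∈ L, w.length = n) → v.length = n →
      ((∃ u, u ∈ MemCo.good kq L v) ↔ vq n v ∈ vspan n L) := by
    intro n L v hL hv
    obtain ⟨h1, h2⟩ := hK (v :: L) n (by
      intro r hr
      rcases List.mem_cons.1 hr with h | h
      · rw [h]; exact hv
      · exact hL r h)
    exact MemCo.good_iff (fun u hu => (h1 u hu).2) h2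
  refine ⟨⟨MemCo.memf kq, MemCo.Poly_memf hkq, ?_⟩, ⟨MemCo.cof kq, MemCo.Poly_cof hkq, ?_⟩⟩
  · intro n L v hL hv
    rw [← key n L v hL hv]
    unfold MemCo.memf
    rcases MemCo.good kq L v with _ | ⟨u, l⟩
    · simp
    · simp
  · intro n L v hL hv hmem
    refine ⟨by simp [MemCo.cof], ?_⟩
    obtain ⟨h1, -⟩ := hK (v :: L) n (by
      intro r hr
      rcases List.mem_cons.1 hr with h | h
      · rw [h]; exact hv
      · exact hL r h)
    obtain ⟨u, hu⟩ := (key n L v hL hv).2 hmem
    have hu' : (MemCo.good kq L v).getD 0 [] ∈ MemCo.good kq L v := by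
      rcases hg : MemCo.good kq L v with _ | ⟨w, l⟩
      · rw [hg] at hu; exact absurd hu List.not_mem_nil
      · simp
    obtain ⟨hu1, hu2⟩ := List.mem_filter.1 hu'
    have hu3 : ((MemCo.good kq L v).getD 0 []).getD 0 0 ≠ 0 := by simpa using hu2
    rw [MemCo.solve (h1 _ hu1).2 hu3]
    refine Finset.sum_congr rfl fun i _ => ?_
    congr 1
    unfold MemCo.cof
    rw [List.getD_eq_getElem (List.map _ _) _ (by simp)]
    simp

end Pool.Agent.H420_NCF.FF
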