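import Pool.Agent.H420_NCF.Spec2
import Pool.Agent.H420_NCF.FF.Base

/-!
# Module RA: computing the radical over a finite field
-/

set_option linter.unusedSectionVars false

namespace Pool.Agent.H420_NCF.FF

open Pool.Agent.NPC Pool.Agent.NPC.H532
open scoped Matrix

namespace RA

section Sem

variable {K : Type} [Field K] [Finite K] [DecidableEq K] [TEnc K]

/-! ### Flattening -/

/-- flatten a matrix -/
def fl (n : ℕ) (M : List (List K)) : List K :=
  (List.range (n * n)).map fun t => entry M (t / n) (t % n)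

/-- the matrix with a given flattening -/
def uf (n : ℕ) (v : List K) : List (List K) := tab n n fun i j => v.getD (j + n * i) 0

theorem fl_length (n : ℕ) (M : List (List K)) : (fl n M).length = n * n := by simp [fl]

theorem uf_isMat (n : ℕ) (v : List K) : IsMat n n (uf n v) := isMat_tab n n _

/-- the flattening as a linear equivalence -/
noncomputable def ph (K : Type) [Field K] (n : ℕ) : Matrix (Fin n) (Fin n) K ≃ₗ[K] (Fin (n * n) → K) where
  toFun X t := X (finProdFinEquiv.symm t).1 (finProdFinEquiv.symm t).2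
  invFun v i j := v (finProdFinEquiv (i, j))
  left_inv X := by
    funext i j
    simp
  right_inv v := by
    funext t
    change v (finProdFinEquiv (finProdFinEquiv.symm t)) = v t
    rw [Equiv.apply_symm_apply]
  map_add' X Y := rfl
  map_smul' c X := rfl

theorem ph_apply (n : ℕ) (X : Matrix (Fin n) (Fin n) K) (t : Fin (n * n)) :
    ph K n X t = X (finProdFinEquiv.symm t).1 (finProdFinEquiv.symm t).2 := rfl

theorem ph_symm_apply (n : ℕ) (v : Fin (n * n) → K) (i j : Fin n) :
    (ph K n).symm v i j = v (finProdFinEquiv (i, j)) := rfl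

/-- the matrix of a vector -/
noncomputable def mt (n : ℕ) (v : List K) : Matrix (Fin n) (Fin n) K := (ph K n).symm (vq (n * n) v)

/-- the space of matrices spanned by a list of vectors -/
noncomputable def msp (n : ℕ) (L : List (List K)) : Submodule K (Matrix (Fin n) (Fin n) K) :=
  Submodule.span K {w | ∃ v ∈ L, w = mt n v}

theorem ph_mq (n : ℕ) (M : List (List K)) : ph K n (mq n M) = vq (n * n) (fl n M) := by
  funext t
  rw [ph_apply]
  unfold mq vq fl
  rw [List.getD_eq_getElem _ _ (by simp)]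
  simp [finProdFinEquiv, Fin.divNat, Fin.modNat]

theorem ph_mt (n : ℕ) (v : List K) : ph K n (mt n v) = vq (n * n) v := by
  unfold mt; rw [LinearEquiv.apply_symm_apply]

theorem mt_fl (n : ℕ) (M : List (List K)) : mt n (fl n M) = mq n M := by
  unfold mt; rw [← ph_mq, LinearEquiv.symm_apply_apply]

theorem mq_uf (n : ℕ) (v : List K) : mq n (uf n v) = mt n v := by
  funext i j
  unfold mt
  rw [ph_symm_apply]
  unfold uf
  rw [mq_tab]
  unfold vq
  simp [finProdFinEquiv]

theorem mspan_uf (n : ℕ) (L : List (List K)) : mspan n (L.map (uf n)) = msp n L := by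
  unfold mspan msp
  congr 1
  ext w
  constructor
  · rintro ⟨M, hM, rfl⟩
    obtain ⟨v, hv, rfl⟩ := List.mem_map.1 hM
    exact ⟨v, hv, mq_uf n v⟩
  · rintro ⟨v, hv, rfl⟩
    exact ⟨_, List.mem_map.2 ⟨v, hv, rfl⟩, (mq_uf n v).symm⟩

theorem msp_vspan (n : ℕ) (L : List (List K)) (a : Matrix (Fin n) (Fin n) K) :
    a ∈ msp n L ↔ ph K n a ∈ vspan (n * n) L := by
  have h : msp n L = (vspan (n * n) L).map ((ph K n).symm : (Fin (n * n) → K) →ₗ[K] _) := by
    unfold msp vspan
    rw [Submodule.map_span]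
    congr 1
    ext w
    constructor
    · rintro ⟨v, hv, rfl⟩
      exact ⟨_, ⟨v, hv, rfl⟩, rfl⟩
    · rintro ⟨_, ⟨v, hv, rfl⟩, rfl⟩
      exact ⟨v, hv, rfl⟩
  rw [h]
  constructor
  · rintro ⟨v, hv, rfl⟩
    simpa using hv
  · intro ha
    exact ⟨_, ha, by simp⟩

theorem mem_span_list {V : Type} [AddCommGroup V] [Module K V] {β : Type} (L : List β) (d : β)
    (g : β → V) (a : V) : a ∈ Submodule.span K {w | ∃ v ∈ L, w = g v} ↔
      ∃ c : ℕ → K, a = ∑ i ∈ Finset.range L.length, c i • g (L.getD i d) := by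
  have hset : {w | ∃ v ∈ L, w = g v} = Set.range (fun i : Fin L.length => g (L.getD i d)) := by
    ext w
    constructor
    · rintro ⟨v, hv, rfl⟩
      obtain ⟨i, hi, rfl⟩ := List.getElem_of_mem hv
      refine ⟨⟨i, hi⟩, ?_⟩
      simp only
      rw [List.getD_eq_getElem _ _ hi]
    · rintro ⟨i, rfl⟩
      refine ⟨L.getD i d, ?_, rfl⟩
      rw [List.getD_eq_getElem _ _ i.2]
      exact List.getElem_mem _
  rw [hset, Submodule.mem_span_range_iff_exists_fun]
  constructor
  · rintro ⟨c, rfl⟩
    refine ⟨fun i => if h : i < L.length then c ⟨i, h⟩ else 0, ?_⟩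
    rw [Finset.sum_range]
    refine Finset.sum_congr rfl fun i _ => ?_
    simp
  · rintro ⟨c, rfl⟩
    refine ⟨fun i => c i, ?_⟩
    rw [Finset.sum_range]

theorem mem_msp (n : ℕ) (L : List (List K)) (a : Matrix (Fin n) (Fin n) K) :
    a ∈ msp n L ↔ ∃ c : ℕ → K, a = ∑ i ∈ Finset.range L.length, c i • mt n (L.getD i []) :=
  mem_span_list L [] (mt n) a

theorem mem_vspan (n : ℕ) (L : List (List K)) (a : Fin n → K) :
    a ∈ vspan n L ↔ ∃ c : ℕ → K, a = ∑ i ∈ Finset.range L.length, c i • vq n (L.getD i []) :=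
  mem_span_list L [] (vq n) a

theorem sum_map_range {M : Type} [AddCommMonoid M] (m : ℕ) (f : ℕ → M) :
    ((List.range m).map f).sum = ∑ i ∈ Finset.range m, f i := by
  induction m with
  | zero => simp
  | succ m ih => rw [List.range_succ, List.map_append, List.sum_append, ih,
      Finset.sum_range_succ]; simp

/-! ### Operations on vectors -/

/-- product -/
def fmul (n : ℕ) (v w : List K) : List K := fl n (mmul n (uf n v) (uf n w))

theorem mt_fmul (n : ℕ) (v w : List K) : mt n (fmul n v w) = mt n v * mt n w := by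
  unfold fmul
  rw [mt_fl, mq_mmul, mq_uf, mq_uf]

theorem fmul_length (n : ℕ) (v w : List K) : (fmul n v w).length = n * n := fl_length n _

/-- identity matrix -/
def idm (n : ℕ) : List (List K) := tab n n fun i j => if i = j then 1 else 0

theorem mq_idm (n : ℕ) : mq n (idm n : List (List K)) = 1 := by
  unfold idm
  rw [mq_tab]
  funext i j
  rw [Matrix.one_apply]
  by_cases h : i = j
  · subst h; simp
  · have : (i : ℕ) ≠ j := fun h' => h (Fin.ext h')
    simp [h, this]

/-- power -/
def fpow (n : ℕ) (v : List K) : ℕ → List K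
  | 0 => fl n (idm n)
  | k + 1 => fmul n (fpow n v k) v

theorem mt_fpow (n : ℕ) (v : List K) (k : ℕ) : mt n (fpow n v k) = mt n v ^ k := by
  induction k with
  | zero => rw [fpow, mt_fl, mq_idm, pow_zero]
  | succ k ih => rw [fpow, mt_fmul, ih, pow_succ]

theorem fpow_length (n : ℕ) (v : List K) (k : ℕ) : (fpow n v k).length = n * n := by
  cases k with
  | zero => exact fl_length n _
  | succ k => exact fmul_length n _ _

/-- difference -/
def fsub (m : ℕ) (v w : List K) : List K := (List.range m).map fun t => v.getD t 0 - w.getD t 0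

theorem fsub_length (m : ℕ) (v w : List K) : (fsub m v w).length = m := by simp [fsub]

theorem vq_fsub (m : ℕ) (v w : List K) : vq m (fsub m v w) = vq m v - vq m w := by
  funext t
  unfold vq fsub
  rw [List.getD_eq_getElem _ _ (by simp)]
  simp

theorem mt_fsub (n : ℕ) (v w : List K) : mt n (fsub (n * n) v w) = mt n v - mt n w := by
  unfold mt
  rw [vq_fsub, map_sub]

/-- linear combination -/
def comb (m : ℕ) (L : List (List K)) (x : List K) : List K :=
  (List.range m).map fun j =>
    ((List.range L.length).map fun t => x.getD t 0 * (L.getD t []).getD j 0).sum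

theorem comb_length (m : ℕ) (L : List (List K)) (x : List K) : (comb m L x).length = m := by
  simp [comb]

theorem vq_comb (m : ℕ) (L : List (List K)) (x : List K) :
    vq m (comb m L x) = ∑ t ∈ Finset.range L.length, x.getD t 0 • vq m (L.getD t []) := by
  funext j
  have h1 : vq m (comb m L x) j =
      ((List.range L.length).map fun t => x.getD t 0 * (L.getD t []).getD j 0).sum := by
    unfold vq comb
    rw [List.getD_eq_getElem _ _ (by simp)]
    simp
  rw [h1, sum_map_range, Finset.sum_apply]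
  rfl

theorem mt_comb (n : ℕ) (L : List (List K)) (x : List K) :
    mt n (comb (n * n) L x) = ∑ t ∈ Finset.range L.length, x.getD t 0 • mt n (L.getD t []) := by
  unfold mt
  rw [vq_comb, map_sum]
  refine Finset.sum_congr rfl fun t _ => ?_
  rw [map_smul]

/-! ### Relations modulo a subspace -/

/-- combinations of `X` lying in the span of `T`, by relations -/
theorem pre {kq : List (List K) → List (List K)}
    (hkq : ∀ (X : List (List K)) (q : ℕ), (∀ r ∈ X, r.length = q) →
      (∀ u ∈ kq X, u.length = X.length ∧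
        ∑ i : Fin X.length, u.getD i 0 • vq q (X.getD i []) = 0) ∧
      ∀ c : Fin X.length → K, ∑ i, c i • vq q (X.getD i []) = 0 → c ∈ vspan X.length (kq X))
    (q : ℕ) (X T : List (List K)) (hX : ∀ r ∈ X, r.length = q) (hT : ∀ r ∈ T, r.length = q)
    (c : ℕ → K) : ∑ i ∈ Finset.range X.length, c i • vq q (X.getD i []) ∈ vspan q T ↔
      (fun i : Fin X.length => c i) ∈ vspan X.length (kq (X ++ T)) := by
  obtain ⟨h1, h2⟩ := hkq (X ++ T) q (fun r hr => (List.mem_append.1 hr).elim (hX r) (hT r))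
  have hsplit : ∀ d : ℕ → K, ∑ i : Fin (X ++ T).length, d i • vq q ((X ++ T).getD i []) =
      ∑ i ∈ Finset.range X.length, d i • vq q (X.getD i []) +
      ∑ j ∈ Finset.range T.length, d (X.length + j) • vq q (T.getD j []) := by
    intro d
    rw [Fin.sum_univ_eq_sum_range (fun i => d i • vq q ((X ++ T).getD i [])), List.length_append,
      Finset.sum_range_add]
    congr 1
    · refine Finset.sum_congr rfl fun i hi => ?_
      rw [List.getD_append _ _ _ _ (Finset.mem_range.1 hi)]
    · refine Finset.sum_congr rfl fun i _ => ?_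
      rw [List.getD_append_right _ _ _ _ (Nat.le_add_right _ _), Nat.add_sub_cancel_left]
  constructor
  · intro h
    rw [mem_vspan] at h
    obtain ⟨d, hd⟩ := h
    -- the relation
    let e : ℕ → K := fun i => if i < X.length then c i else - d (i - X.length)
    have he : ∑ i : Fin (X ++ T).length, (fun i : Fin (X ++ T).length => e i) i •
        vq q ((X ++ T).getD i []) = 0 := by
      rw [hsplit e]
      have e1 : ∑ i ∈ Finset.range X.length, e i • vq q (X.getD i []) =
          ∑ i ∈ Finset.range X.length, c i • vq q (X.getD i []) := by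
        refine Finset.sum_congr rfl fun i hi => ?_
        simp only [e]
        rw [if_pos (Finset.mem_range.1 hi)]
      have e2 : ∑ j ∈ Finset.range T.length, e (X.length + j) • vq q (T.getD j []) =
          - ∑ j ∈ Finset.range T.length, d j • vq q (T.getD j []) := by
        rw [← Finset.sum_neg_distrib]
        refine Finset.sum_congr rfl fun j _ => ?_
        simp only [e]
        rw [if_neg (by omega), Nat.add_sub_cancel_left, neg_smul]
      rw [e1, e2, hd, add_neg_cancel]
    have h3 := h2 _ he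
    rw [mem_vspan] at h3 ⊢
    obtain ⟨g, hg⟩ := h3
    refine ⟨g, ?_⟩
    funext i
    have h4 := congrFun hg ⟨i, by rw [List.length_append]; omega⟩
    simp only [Finset.sum_apply, Pi.smul_apply] at h4 ⊢
    have h5 : e i = c i := by simp only [e]; rw [if_pos i.2]
    rw [h5] at h4
    exact h4
  · intro h
    have key : ∀ x ∈ vspan X.length (kq (X ++ T)),
        ∑ i : Fin X.length, x i • vq q (X.getD i []) ∈ vspan q T := by
      intro x hx
      unfold vspan at hx
      induction hx using Submodule.span_induction with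
      | mem x hx =>
        obtain ⟨u, hu, rfl⟩ := hx
        have h3 := (h1 u hu).2
        have h3' : ∑ i : Fin (X ++ T).length, (fun i => u.getD i 0) (i : ℕ) •
          vq q ((X ++ T).getD i []) = 0 := h3
        rw [hsplit (fun i => u.getD i 0)] at h3'
        have h4 : ∑ i : Fin X.length, vq X.length u i • vq q (X.getD i []) =
            - ∑ j ∈ Finset.range T.length, u.getD (X.length + j) 0 • vq q (T.getD j []) := by
          have h5 : ∑ i : Fin X.length, vq X.length u i • vq q (X.getD i []) =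
              ∑ i ∈ Finset.range X.length, u.getD i 0 • vq q (X.getD i []) := by
            rw [Finset.sum_range]
            rfl
          rw [eq_neg_iff_add_eq_zero, h5]
          exact h3'
        rw [h4]
        refine Submodule.neg_mem _ ((mem_vspan _ _ _).2 ⟨fun j => u.getD (X.length + j) 0, rfl⟩)
      | zero => simp
      | add x y _ _ hx hy =>
        simp only [Pi.add_apply, add_smul, Finset.sum_add_distrib]
        exact Submodule.add_mem _ hx hy
      | smul r x _ hx =>
        simp only [Pi.smul_apply, smul_eq_mul, mul_smul, ← Finset.smul_sum]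
        exact Submodule.smul_mem _ _ hx
    have h3 := key _ h
    rw [Finset.sum_range]
    exact h3

theorem pre_mt {kq : List (List K) → List (List K)}
    (hkq : ∀ (X : List (List K)) (q : ℕ), (∀ r ∈ X, r.length = q) →
      (∀ u ∈ kq X, u.length = X.length ∧
        ∑ i : Fin X.length, u.getD i 0 • vq q (X.getD i []) = 0) ∧
      ∀ c : Fin X.length → K, ∑ i, c i • vq q (X.getD i []) = 0 → c ∈ vspan X.length (kq X))
    (n : ℕ) (X T : List (List K)) (hX : ∀ r ∈ X, r.length = n * n)
    (hT : ∀ r ∈ T, r.length = n * n)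
    (c : ℕ → K) : ∑ i ∈ Finset.range X.length, c i • mt n (X.getD i []) ∈ msp n T ↔
      (fun i : Fin X.length => c i) ∈ vspan X.length (kq (X ++ T)) := by
  rw [← pre hkq (n * n) X T hX hT c, msp_vspan, map_sum]
  simp only [map_smul, ph_mt]

/-! ### One step -/

/-- one step of both loops -/
def nxt (kq sel : List (List K) → List (List K)) (σ : K ≃+* K) (n : ℕ) (L X T : List (List K)) :
    List (List K) :=
  sel ((kq (X ++ T)).map fun u => comb (n * n) L (u.map σ))

theorem nxt_len {kq sel : List (List K) → List (List K)}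
    (hsel : ∀ (n : ℕ) (L : List (List K)), (∀ v ∈ L, v.length = n) →
      (∀ v ∈ sel L, v ∈ L) ∧ Ind n (sel L) ∧ vspan n (sel L) = vspan n L)
    (σ : K ≃+* K) (n : ℕ) (L X T : List (List K)) :
    (∀ v ∈ nxt kq sel σ n L X T, v.length = n * n) ∧ (nxt kq sel σ n L X T).length ≤ n * n := by
  obtain ⟨h1, h2, -⟩ := hsel (n * n) ((kq (X ++ T)).map fun u => comb (n * n) L (u.map σ)) (by
    intro v hv
    obtain ⟨u, -, rfl⟩ := List.mem_map.1 hv
    exact comb_length _ _ _)
  refine ⟨fun v hv => ?_, ?_⟩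
  · obtain ⟨u, -, rfl⟩ := List.mem_map.1 (h1 v hv)
    exact comb_length _ _ _
  · unfold Ind at h2
    have := h2.fintype_card_le_finrank
    simpa [nxt] using this

theorem msp_sel {sel : List (List K) → List (List K)}
    (hsel : ∀ (n : ℕ) (L : List (List K)), (∀ v ∈ L, v.length = n) →
      (∀ v ∈ sel L, v ∈ L) ∧ Ind n (sel L) ∧ vspan n (sel L) = vspan n L)
    (n : ℕ) (L : List (List K)) (hL : ∀ v ∈ L, v.length = n * n) : msp n (sel L) = msp n L := by
  ext a
  rw [msp_vspan, msp_vspan, (hsel (n * n) L hL).2.2]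

theorem getD_map' {β γ : Type} (L : List β) (f : β → γ) (d : β) (e : γ) {i : ℕ}
    (hi : i < L.length) : (L.map f).getD i e = f (L.getD i d) := by
  rw [List.getD_eq_getElem _ _ (by simpa using hi), List.getD_eq_getElem _ _ hi, List.getElem_map]

theorem getD_map_zero (σ : K ≃+* K) (u : List K) (i : ℕ) : (u.map σ).getD i 0 = σ (u.getD i 0) := by
  by_cases h : i < u.length
  · exact getD_map' u σ 0 0 h
  · rw [List.getD_eq_default _ _ (by simpa using h), List.getD_eq_default _ _ (by simpa using h),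
      map_zero]

theorem mem_nxt {kq sel : List (List K) → List (List K)}
    (hkq : ∀ (X : List (List K)) (q : ℕ), (∀ r ∈ X, r.length = q) →
      (∀ u ∈ kq X, u.length = X.length ∧
        ∑ i : Fin X.length, u.getD i 0 • vq q (X.getD i []) = 0) ∧
      ∀ c : Fin X.length → K, ∑ i, c i • vq q (X.getD i []) = 0 → c ∈ vspan X.length (kq X))
    (hsel : ∀ (n : ℕ) (L : List (List K)), (∀ v ∈ L, v.length = n) →
      (∀ v ∈ sel L, v ∈ L) ∧ Ind n (sel L) ∧ vspan n (sel L) = vspan n L)
    (σ : K ≃+* K) (n : ℕ) (L X T : List (List K)) (hLX : X.length = L.length)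
    (hX : ∀ r ∈ X, r.length = n * n) (hT : ∀ r ∈ T, r.length = n * n)
    (a : Matrix (Fin n) (Fin n) K) :
    a ∈ msp n (nxt kq sel σ n L X T) ↔ ∃ c : ℕ → K,
      a = ∑ i ∈ Finset.range L.length, c i • mt n (L.getD i []) ∧
      ∑ i ∈ Finset.range L.length, σ.symm (c i) • mt n (X.getD i []) ∈ msp n T := by
  unfold nxt
  rw [msp_sel hsel n _ (by
    intro v hv
    obtain ⟨u, -, rfl⟩ := List.mem_map.1 hv
    exact comb_length _ _ _)]
  constructor
  · intro ha
    unfold msp at ha
    induction ha using Submodule.span_induction with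
    | mem a ha =>
      obtain ⟨v, hv, rfl⟩ := ha
      obtain ⟨u, hu, rfl⟩ := List.mem_map.1 hv
      refine ⟨fun i => σ (u.getD i 0), ?_, ?_⟩
      · rw [mt_comb]
        refine Finset.sum_congr rfl fun i _ => ?_
        rw [getD_map_zero]
      · simp only [RingEquiv.symm_apply_apply]
        rw [← hLX, pre_mt hkq n X T hX hT]
        exact Submodule.subset_span ⟨u, hu, rfl⟩
    | zero => exact ⟨fun _ => 0, by simp, by simp⟩
    | add x y _ _ hx hy =>
      obtain ⟨c, rfl, hc⟩ := hx
      obtain ⟨d, rfl, hd⟩ := hy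
      refine ⟨fun i => c i + d i, ?_, ?_⟩
      · simp only [add_smul, Finset.sum_add_distrib]
      · simp only [map_add, add_smul, Finset.sum_add_distrib]
        exact Submodule.add_mem _ hc hd
    | smul r x _ hx =>
      obtain ⟨c, rfl, hc⟩ := hx
      refine ⟨fun i => r * c i, ?_, ?_⟩
      · simp only [mul_smul, Finset.smul_sum]
      · simp only [map_mul, mul_smul, ← Finset.smul_sum]
        exact Submodule.smul_mem _ _ hc
  · rintro ⟨c, rfl, hc⟩
    rw [← hLX] at hc
    rw [pre_mt hkq n X T hX hT (fun i => σ.symm (c i)), mem_vspan] at hc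
    obtain ⟨d, hd⟩ := hc
    have hci : ∀ i ∈ Finset.range L.length, c i =
        ∑ k ∈ Finset.range (kq (X ++ T)).length, σ (d k) * σ (((kq (X ++ T)).getD k []).getD i 0) := by
      intro i hi
      have h1 := congrFun hd ⟨i, by rw [hLX]; exact Finset.mem_range.1 hi⟩
      rw [Finset.sum_apply] at h1
      have h2 := congrArg σ h1
      rw [RingEquiv.apply_symm_apply, map_sum] at h2
      rw [h2]
      refine Finset.sum_congr rfl fun k _ => ?_
      rw [Pi.smul_apply, smul_eq_mul, map_mul]
      rfl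
    have h3 : ∑ i ∈ Finset.range L.length, c i • mt n (L.getD i []) =
        ∑ k ∈ Finset.range (kq (X ++ T)).length, σ (d k) •
          mt n (comb (n * n) L (((kq (X ++ T)).getD k []).map σ)) := by
      rw [Finset.sum_congr rfl fun i hi => by rw [hci i hi]]
      simp only [Finset.sum_smul]
      rw [Finset.sum_comm]
      refine Finset.sum_congr rfl fun k _ => ?_
      rw [mt_comb, Finset.smul_sum]
      refine Finset.sum_congr rfl fun i _ => ?_
      rw [getD_map_zero, smul_smul]
    rw [h3]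
    refine Submodule.sum_mem _ fun k hk => Submodule.smul_mem _ _ (Submodule.subset_span ?_)
    refine ⟨_, List.mem_map.2 ⟨(kq (X ++ T)).getD k [], ?_, rfl⟩, rfl⟩
    rw [List.getD_eq_getElem _ _ (Finset.mem_range.1 hk)]
    exact List.getElem_mem _

/-! ### The algebra -/

/-- right multiplication on flattened matrices -/
def rm (n : ℕ) (M : List (List K)) : List (List K) :=
  tab (n * n) (n * n) fun s t => if s / n = t / n then entry M (s % n) (t % n) else 0

theorem mq_rm (n : ℕ) (M : List (List K)) (s t : Fin (n * n)) :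
    mq (n * n) (rm n M) s t = if (s : ℕ) / n = (t : ℕ) / n then entry M (s % n) (t % n) else 0 := by
  unfold rm
  rw [mq_tab]

theorem ph_mul (n : ℕ) (X : Matrix (Fin n) (Fin n) K) (M : List (List K)) :
    ph K n (X * mq n M) = ph K n X ᵥ* mq (n * n) (rm n M) := by
  funext t
  rw [ph_apply, Matrix.mul_apply, Matrix.vecMul, dotProduct]
  rw [← finProdFinEquiv.sum_comp]
  rw [Fintype.sum_prod_type]
  symm
  rw [Finset.sum_eq_single (finProdFinEquiv.symm t).1]
  · refine Finset.sum_congr rfl fun k _ => ?_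
    rw [ph_apply, Equiv.symm_apply_apply, mq_rm]
    have hn : 0 < n := by have := k.2; omega
    have e1 : ((finProdFinEquiv ((finProdFinEquiv.symm t).1, k) : Fin (n * n)) : ℕ) =
        k + n * (t / n) := by
      simp [finProdFinEquiv, Fin.divNat]
    rw [e1]
    have e2 : ((k : ℕ) + n * (t / n)) / n = (t : ℕ) / n := by
      rw [Nat.add_mul_div_left _ _ hn, Nat.div_eq_of_lt k.2, zero_add]
    have e3 : ((k : ℕ) + n * (t / n)) % n = k := by
      rw [Nat.add_mul_mod_self_left, Nat.mod_eq_of_lt k.2]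
    rw [e2, e3, if_pos rfl]
    rfl
  · intro i _ hi
    refine Finset.sum_eq_zero fun k _ => ?_
    rw [mq_rm]
    have hn : 0 < n := by have := k.2; omega
    have e1 : ((finProdFinEquiv (i, k) : Fin (n * n)) : ℕ) = k + n * i := by
      simp [finProdFinEquiv]
    rw [e1]
    have e2 : ((k : ℕ) + n * i) / n = (i : ℕ) := by
      rw [Nat.add_mul_div_left _ _ hn, Nat.div_eq_of_lt k.2, zero_add]
    rw [e2, if_neg, mul_zero]
    intro h
    apply hi
    apply Fin.ext
    rw [h]
    rfl
  · intro h; exact absurd (Finset.mem_univ _) h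

/-- a subspace containing one, stable under right multiplication by the generators and minimal
is the algebra -/
theorem eq_adjoin {n : ℕ} (s : Set (Matrix (Fin n) (Fin n) K))
    (W : Submodule K (Matrix (Fin n) (Fin n) K)) (h1 : (1 : Matrix (Fin n) (Fin n) K) ∈ W)
    (hs : ∀ m ∈ s, ∀ w ∈ W, w * m ∈ W)
    (hmin : ∀ U : Submodule K (Matrix (Fin n) (Fin n) K), (1 : Matrix (Fin n) (Fin n) K) ∈ U →
      (∀ m ∈ s, ∀ w ∈ U, w * m ∈ U) → W ≤ U) (a : Matrix (Fin n) (Fin n) K) :
    a ∈ W ↔ a ∈ Algebra.adjoin K s := by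
  constructor
  · intro ha
    exact hmin (Subalgebra.toSubmodule (Algebra.adjoin K s)) (Subalgebra.one_mem _)
      (fun m hm w hw => Subalgebra.mul_mem _ hw (Algebra.subset_adjoin hm)) ha
  · intro ha
    have key : ∀ w ∈ W, w * a ∈ W := by
      induction ha using Algebra.adjoin_induction with
      | mem m hm => exact hs m hm
      | algebraMap r =>
        intro w hw
        rw [← Algebra.commutes, ← Algebra.smul_def]
        exact W.smul_mem r hw
      | add x y _ _ hx hy =>
        intro w hw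
        rw [mul_add]
        exact W.add_mem (hx w hw) (hy w hw)
      | mul x y _ _ hx hy =>
        intro w hw
        rw [← mul_assoc]
        exact hy _ (hx w hw)
    simpa using key 1 h1

/-- spanning vectors of the algebra -/
def abas (clo : List (List (List K)) × List (List K) → List (List K)) (n : ℕ)
    (Ms : List (List (List K))) : List (List K) := clo (Ms.map (rm n), [fl n (idm n)])

theorem abas_spec {clo : List (List (List K)) × List (List K) → List (List K)}
    (hclo : ∀ (n : ℕ) (Ms : List (List (List K))) (L : List (List K)), (∀ M ∈ Ms, IsMat n n M) →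
    (∀ v ∈ L, v.length = n) →
    (∀ v ∈ clo (Ms, L), v.length = n) ∧ Ind n (clo (Ms, L)) ∧
    vspan n L ≤ vspan n (clo (Ms, L)) ∧
    (∀ M ∈ Ms, ∀ w ∈ vspan n (clo (Ms, L)), w ᵥ* mq n M ∈ vspan n (clo (Ms, L))) ∧
    ∀ U : Submodule K (Fin n → K), vspan n L ≤ U → (∀ M ∈ Ms, ∀ w ∈ U, w ᵥ* mq n M ∈ U) →
      vspan n (clo (Ms, L)) ≤ U) (n : ℕ) (Ms : List (List (List K))) :
    (∀ v ∈ abas clo n Ms, v.length = n * n) ∧ ∀ a, a ∈ msp n (abas clo n Ms) ↔ a ∈ algOf n Ms := by
  obtain ⟨h1, -, h3, h4, h5⟩ := hclo (n * n) (Ms.map (rm n)) [fl n (idm n)] (by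
    intro M hM
    obtain ⟨M', -, rfl⟩ := List.mem_map.1 hM
    exact isMat_tab _ _ _) (by
    intro v hv
    rw [List.mem_singleton] at hv
    rw [hv]; exact fl_length n _)
  refine ⟨h1, fun a => ?_⟩
  unfold algOf
  have hone : ∀ U : Submodule K (Fin (n * n) → K), vspan (n * n) [fl n (idm n : List (List K))] ≤ U ↔
      ph K n 1 ∈ U := by
    intro U
    unfold vspan
    rw [Submodule.span_le]
    constructor
    · intro h
      apply h
      exact ⟨fl n (idm n), by simp, by rw [← ph_mq, mq_idm]⟩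
    · rintro h _ ⟨v, hv, rfl⟩
      rw [List.mem_singleton] at hv
      rw [hv, ← ph_mq, mq_idm]
      exact h
  refine eq_adjoin _ (msp n (abas clo n Ms)) ?_ ?_ ?_ a
  · unfold abas
    rw [msp_vspan]
    exact (hone _).1 h3
  · rintro _ ⟨M, hM, rfl⟩ w hw
    unfold abas at hw ⊢
    rw [msp_vspan] at hw ⊢
    rw [ph_mul]
    exact h4 _ (List.mem_map.2 ⟨M, hM, rfl⟩) _ hw
  · intro U hU1 hU2 w hw
    unfold abas at hw
    rw [msp_vspan] at hw
    have := h5 (U.map (ph K n : Matrix (Fin n) (Fin n) K →ₗ[K] _)) ((hone _).2 ⟨1, hU1, rfl⟩) (by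
      intro M hM w hw
      obtain ⟨M', hM', rfl⟩ := List.mem_map.1 hM
      obtain ⟨w', hw', rfl⟩ := hw
      change ph K n w' ᵥ* _ ∈ _
      rw [← ph_mul]
      exact ⟨_, hU2 _ ⟨M', hM', rfl⟩ _ hw', rfl⟩) hw
    obtain ⟨w', hw', hww⟩ := this
    have : w' = w := (ph K n).injective hww
    rwa [← this]

/-! ### The commutators -/

/-- commutators of the basis elements -/
def coms (n : ℕ) (Ab : List (List K)) : List (List K) :=
  Ab.flatMap fun a => Ab.map fun b => fsub (n * n) (fmul n a b) (fmul n b a)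

theorem coms_length (n : ℕ) (Ab : List (List K)) : ∀ v ∈ coms n Ab, v.length = n * n := by
  intro v hv
  obtain ⟨a, -, hv⟩ := List.mem_flatMap.1 hv
  obtain ⟨b, -, rfl⟩ := List.mem_map.1 hv
  exact fsub_length _ _ _

theorem msp_coms (n : ℕ) (Ab : List (List K)) (A : Subalgebra K (Matrix (Fin n) (Fin n) K))
    (hA : ∀ a, a ∈ msp n Ab ↔ a ∈ A) : msp n (coms n Ab) = comm A := by
  apply le_antisymm
  · unfold msp
    rw [Submodule.span_le]
    rintro _ ⟨v, hv, rfl⟩
    obtain ⟨a, ha, hv⟩ := List.mem_flatMap.1 hv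
    obtain ⟨b, hb, rfl⟩ := List.mem_map.1 hv
    rw [mt_fsub, mt_fmul, mt_fmul]
    exact Submodule.subset_span ⟨mt n a, (hA _).1 (Submodule.subset_span ⟨a, ha, rfl⟩), mt n b,
      (hA _).1 (Submodule.subset_span ⟨b, hb, rfl⟩), rfl⟩
  · unfold comm
    rw [Submodule.span_le]
    rintro _ ⟨a, ha, b, hb, rfl⟩
    rw [← hA] at ha hb
    have key : ∀ v ∈ Ab, ∀ b ∈ msp n Ab, mt n v * b - b * mt n v ∈ msp n (coms n Ab) := by
      intro v hv b hb
      unfold msp at hb
      induction hb using Submodule.span_induction with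
      | mem x hx =>
        obtain ⟨w, hw, rfl⟩ := hx
        rw [← mt_fmul, ← mt_fmul, ← mt_fsub]
        exact Submodule.subset_span ⟨_, List.mem_flatMap.2 ⟨v, hv, List.mem_map.2 ⟨w, hw, rfl⟩⟩,
          rfl⟩
      | zero => simp
      | add x y _ _ hx hy =>
        rw [mul_add, add_mul, add_sub_add_comm]
        exact Submodule.add_mem _ hx hy
      | smul r x _ hx =>
        rw [mul_smul_comm, smul_mul_assoc, ← smul_sub]
        exact Submodule.smul_mem _ _ hx
    change a * b - b * a ∈ msp n (coms n Ab)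
    unfold msp at ha
    induction ha using Submodule.span_induction with
    | mem x hx =>
      obtain ⟨w, hw, rfl⟩ := hx
      exact key w hw b hb
    | zero => simp
    | add x y _ _ hx hy =>
      rw [mul_add, add_mul, add_sub_add_comm]
      exact Submodule.add_mem _ hx hy
    | smul r x _ hx =>
      rw [mul_smul_comm, smul_mul_assoc, ← smul_sub]
      exact Submodule.smul_mem _ _ hx

theorem comm_le {n : ℕ} (A : Subalgebra K (Matrix (Fin n) (Fin n) K))
    (z : Matrix (Fin n) (Fin n) K) (hz : z ∈ comm A) : z ∈ A := by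
  have : comm A ≤ Subalgebra.toSubmodule A := by
    unfold comm
    rw [Submodule.span_le]
    rintro _ ⟨a, ha, b, hb, rfl⟩
    exact A.sub_mem (A.mul_mem ha hb) (A.mul_mem hb ha)
  exact this hz

/-- powers of sums modulo commutators -/
theorem pow_sum {p : ℕ} [Fact p.Prime] {n : ℕ} (A : Subalgebra K (Matrix (Fin n) (Fin n) K))
    (hfr : ∀ a ∈ A, ∀ b ∈ A, (a + b) ^ p - (a ^ p + b ^ p) ∈ comm A)
    (m : ℕ) (c : ℕ → K) (a : ℕ → Matrix (Fin n) (Fin n) K) (ha : ∀ i < m, a i ∈ A) :
    (∑ i ∈ Finset.range m, c i • a i) ^ p - ∑ i ∈ Finset.range m, c i ^ p • a i ^ p ∈ comm A := by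
  induction m with
  | zero =>
    rw [Finset.sum_range_zero, Finset.sum_range_zero, zero_pow (Fact.out : p.Prime).ne_zero, sub_zero]
    exact Submodule.zero_mem _
  | succ m ih =>
    rw [Finset.sum_range_succ, Finset.sum_range_succ]
    have h1 := ih fun i hi => ha i (by omega)
    have h2 := hfr (∑ i ∈ Finset.range m, c i • a i)
      (A.sum_mem fun i hi => A.smul_mem (ha i (by have := Finset.mem_range.1 hi; omega)) _)
      (c m • a m) (A.smul_mem (ha m (by omega)) _)
    have h3 := Submodule.add_mem _ h1 h2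
    rw [smul_pow] at h3
    convert h3 using 1
    abel

/-! ### The loops -/

/-- one step of the first loop -/
def tstep (kq sel : List (List K) → List (List K)) (σ : K ≃+* K) (p n : ℕ) (Ab T : List (List K)) :
    List (List K) := nxt kq sel σ n Ab (Ab.map fun a => fpow n a p) T

/-- the first loop -/
def tfin (kq sel : List (List K) → List (List K)) (σ : K ≃+* K) (p n : ℕ) (Ab : List (List K))
    (m : ℕ) : List (List K) :=
  (List.range m).foldl (fun T _ => tstep kq sel σ p n Ab T) (sel (coms n Ab))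

theorem tfin_succ (kq sel : List (List K) → List (List K)) (σ : K ≃+* K) (p n : ℕ)
    (Ab : List (List K)) (m : ℕ) :
    tfin kq sel σ p n Ab (m + 1) = tstep kq sel σ p n Ab (tfin kq sel σ p n Ab m) := by
  unfold tfin
  rw [List.range_succ, List.foldl_append]
  rfl

theorem tfin_len {kq sel : List (List K) → List (List K)}
    (hsel : ∀ (n : ℕ) (L : List (List K)), (∀ v ∈ L, v.length = n) →
      (∀ v ∈ sel L, v ∈ L) ∧ Ind n (sel L) ∧ vspan n (sel L) = vspan n L)
    (σ : K ≃+* K) (p n : ℕ) (Ab : List (List K)) (m : ℕ) :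
    (∀ v ∈ tfin kq sel σ p n Ab m, v.length = n * n) ∧
      (tfin kq sel σ p n Ab m).length ≤ n * n := by
  cases m with
  | zero =>
    obtain ⟨h1, h2, -⟩ := hsel (n * n) (coms n Ab) (coms_length n Ab)
    refine ⟨fun v hv => coms_length n Ab v (h1 v hv), ?_⟩
    unfold Ind at h2
    have := h2.fintype_card_le_finrank
    simpa [tfin] using this
  | succ m =>
    rw [tfin_succ]
    exact nxt_len hsel σ n _ _ _

theorem tfin_spec {kq sel : List (List K) → List (List K)}
    (hkq : ∀ (X : List (List K)) (q : ℕ), (∀ r ∈ X, r.length = q) →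
      (∀ u ∈ kq X, u.length = X.length ∧
        ∑ i : Fin X.length, u.getD i 0 • vq q (X.getD i []) = 0) ∧
      ∀ c : Fin X.length → K, ∑ i, c i • vq q (X.getD i []) = 0 → c ∈ vspan X.length (kq X))
    (hsel : ∀ (n : ℕ) (L : List (List K)), (∀ v ∈ L, v.length = n) →
      (∀ v ∈ sel L, v ∈ L) ∧ Ind n (sel L) ∧ vspan n (sel L) = vspan n L)
    (σ : K ≃+* K) (p n : ℕ) [Fact p.Prime] (hσ : ∀ x, σ.symm x = x ^ p) (Ab : List (List K))
    (A : Subalgebra K (Matrix (Fin n) (Fin n) K))
    (hfr : ∀ a ∈ A, ∀ b ∈ A, (a + b) ^ p - (a ^ p + b ^ p) ∈ comm A)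
    (hfr2 : ∀ a ∈ comm A, a ^ p ∈ comm A)
    (hA : ∀ a, a ∈ msp n Ab ↔ a ∈ A) (m : ℕ) (a : Matrix (Fin n) (Fin n) K) :
    a ∈ msp n (tfin kq sel σ p n Ab m) ↔ a ∈ A ∧ a ^ p ^ m ∈ comm A := by
  have hpow : ∀ a ∈ comm A, ∀ m, a ^ p ^ m ∈ comm A := by
    intro a ha m
    induction m with
    | zero => simpa using ha
    | succ m ih => rw [pow_succ, pow_mul]; exact hfr2 _ ih
  induction m generalizing a with
  | zero =>
    have : tfin kq sel σ p n Ab 0 = sel (coms n Ab) := rfl
    rw [this, msp_sel hsel n _ (coms_length n Ab), msp_coms n Ab A hA, pow_zero, pow_one]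
    exact ⟨fun h => ⟨comm_le A a h, h⟩, fun h => h.2⟩
  | succ m ih =>
    have hcle : ∀ z ∈ comm A, z ∈ msp n (tfin kq sel σ p n Ab m) := fun z hz =>
      (ih z).2 ⟨comm_le A z hz, hpow z hz m⟩
    rw [tfin_succ, tstep, mem_nxt hkq hsel σ n Ab _ _ (by simp) (by
      intro r hr
      obtain ⟨v, -, rfl⟩ := List.mem_map.1 hr
      exact fpow_length _ _ _) (tfin_len hsel σ p n Ab m).1]
    have hAb : ∀ i < Ab.length, mt n (Ab.getD i []) ∈ A := by
      intro i hi
      rw [← hA]
      refine Submodule.subset_span ⟨_, ?_, rfl⟩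
      rw [List.getD_eq_getElem _ _ hi]
      exact List.getElem_mem _
    have hps : ∀ c : ℕ → K, ∑ i ∈ Finset.range Ab.length, σ.symm (c i) •
        mt n ((Ab.map fun a => fpow n a p).getD i []) =
        ∑ i ∈ Finset.range Ab.length, c i ^ p • mt n (Ab.getD i []) ^ p := by
      intro c
      refine Finset.sum_congr rfl fun i hi => ?_
      rw [getD_map' Ab _ [] [] (Finset.mem_range.1 hi), mt_fpow, hσ]
    have hdiff : ∀ c : ℕ → K, ((∑ i ∈ Finset.range Ab.length, c i • mt n (Ab.getD i [])) ^ p ∈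
        msp n (tfin kq sel σ p n Ab m) ↔
        ∑ i ∈ Finset.range Ab.length, c i ^ p • mt n (Ab.getD i []) ^ p ∈
          msp n (tfin kq sel σ p n Ab m)) := by
      intro c
      have h1 := hcle _ (pow_sum A hfr Ab.length c (fun i => mt n (Ab.getD i [])) hAb)
      constructor
      · intro h
        have := Submodule.sub_mem _ h h1
        rwa [sub_sub_cancel] at this
      · intro h
        have := Submodule.add_mem _ h1 h
        rwa [sub_add_cancel] at this
    have hstep : a ∈ A ∧ a ^ p ^ (m + 1) ∈ comm A ↔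
        a ∈ A ∧ a ^ p ∈ msp n (tfin kq sel σ p n Ab m) := by
      have ih' := ih (a ^ p)
      rw [← pow_mul, ← pow_succ'] at ih'
      exact ⟨fun h => ⟨h.1, ih'.2 ⟨A.pow_mem h.1 p, h.2⟩⟩, fun h => ⟨h.1, (ih'.1 h.2).2⟩⟩
    rw [hstep]
    constructor
    · rintro ⟨c, rfl, hc⟩
      rw [hps] at hc
      exact ⟨(hA _).1 ((mem_msp _ _ _).2 ⟨c, rfl⟩), (hdiff c).2 hc⟩
    · rintro ⟨ha, hp⟩
      obtain ⟨c, rfl⟩ := (mem_msp _ _ _).1 ((hA a).2 ha)
      refine ⟨c, rfl, ?_⟩
      rw [hps]
      exact (hdiff c).1 hp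

/-- the first loop computes `TT` -/
theorem mem_TT {kq sel : List (List K) → List (List K)}
    (hkq : ∀ (X : List (List K)) (q : ℕ), (∀ r ∈ X, r.length = q) →
      (∀ u ∈ kq X, u.length = X.length ∧
        ∑ i : Fin X.length, u.getD i 0 • vq q (X.getD i []) = 0) ∧
      ∀ c : Fin X.length → K, ∑ i, c i • vq q (X.getD i []) = 0 → c ∈ vspan X.length (kq X))
    (hsel : ∀ (n : ℕ) (L : List (List K)), (∀ v ∈ L, v.length = n) →
      (∀ v ∈ sel L, v ∈ L) ∧ Ind n (sel L) ∧ vspan n (sel L) = vspan n L)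
    (σ : K ≃+* K) (p n : ℕ) [Fact p.Prime] (hσ : ∀ x, σ.symm x = x ^ p) (Ab : List (List K))
    (A : Subalgebra K (Matrix (Fin n) (Fin n) K))
    (hfr : ∀ a ∈ A, ∀ b ∈ A, (a + b) ^ p - (a ^ p + b ^ p) ∈ comm A)
    (hfr2 : ∀ a ∈ comm A, a ^ p ∈ comm A)
    (hA : ∀ a, a ∈ msp n Ab ↔ a ∈ A) (a : Matrix (Fin n) (Fin n) K) :
    a ∈ msp n (tfin kq sel σ p n Ab (n * n)) ↔ a ∈ TT p A := by
  have hS := tfin_spec hkq hsel σ p n hσ Ab A hfr hfr2 hA
  have hmono : ∀ i, msp n (tfin kq sel σ p n Ab i) ≤ msp n (tfin kq sel σ p n Ab (i + 1)) := by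
    intro i z hz
    rw [hS] at hz ⊢
    refine ⟨hz.1, ?_⟩
    rw [pow_succ, pow_mul]
    exact hfr2 _ hz.2
  have hstat : ∀ i, msp n (tfin kq sel σ p n Ab i) = msp n (tfin kq sel σ p n Ab (i + 1)) →
      ∀ j, msp n (tfin kq sel σ p n Ab (i + j)) = msp n (tfin kq sel σ p n Ab i) := by
    intro i hi j
    induction j with
    | zero => rfl
    | succ j ih =>
      apply le_antisymm
      · intro z hz
        rw [← add_assoc, hS] at hz
        rw [hi, hS]
        refine ⟨hz.1, ?_⟩
        have h1 : z ^ p ∈ msp n (tfin kq sel σ p n Ab (i + j)) := by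
          rw [hS, ← pow_mul, ← pow_succ']
          exact ⟨A.pow_mem hz.1 p, hz.2⟩
        rw [ih, hS, ← pow_mul, ← pow_succ'] at h1
        exact h1.2
      · rw [← ih]
        exact hmono (i + j)
  have hex : ∃ i ≤ n * n, msp n (tfin kq sel σ p n Ab i) = msp n (tfin kq sel σ p n Ab (i + 1)) := by
    by_contra hcon
    push Not at hcon
    have hrk : ∀ i ≤ n * n + 1, i ≤ Module.finrank K (msp n (tfin kq sel σ p n Ab i)) := by
      intro i hi
      induction i with
      | zero => exact Nat.zero_le _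
      | succ i ih =>
        have h1 := ih (by omega)
        have h2 : msp n (tfin kq sel σ p n Ab i) < msp n (tfin kq sel σ p n Ab (i + 1)) :=
          lt_of_le_of_ne (hmono i) (hcon i (by omega))
        have h3 := Submodule.finrank_lt_finrank_of_lt h2
        omega
    have h1 := hrk (n * n + 1) le_rfl
    have h2 := Submodule.finrank_le (msp n (tfin kq sel σ p n Ab (n * n + 1)))
    rw [Module.finrank_matrix, Module.finrank_self, Fintype.card_fin] at h2
    omega
  obtain ⟨i, hi, heq⟩ := hex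
  constructor
  · intro h
    rw [hS] at h
    exact ⟨h.1, _, h.2⟩
  · rintro ⟨ha, j, hj⟩
    have h1 : a ∈ msp n (tfin kq sel σ p n Ab j) := (hS j a).2 ⟨ha, hj⟩
    have hle : ∀ k, msp n (tfin kq sel σ p n Ab j) ≤ msp n (tfin kq sel σ p n Ab (j + k)) := by
      intro k
      induction k with
      | zero => exact le_rfl
      | succ k ih => exact ih.trans (hmono _)
    have h2 := hle i h1
    rw [add_comm, hstat i heq j] at h2
    have h3 := hstat i heq (n * n - i)
    rw [Nat.add_sub_cancel' hi] at h3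
    rw [h3]
    exact h2

/-- one step of the second loop -/
def ustep (kq sel : List (List K) → List (List K)) (n : ℕ) (T U : List (List K)) (b : List K) :
    List (List K) := nxt kq sel (RingEquiv.refl K) n U (U.map fun u => fmul n u b) T

theorem mem_ustep {kq sel : List (List K) → List (List K)}
    (hkq : ∀ (X : List (List K)) (q : ℕ), (∀ r ∈ X, r.length = q) →
      (∀ u ∈ kq X, u.length = X.length ∧
        ∑ i : Fin X.length, u.getD i 0 • vq q (X.getD i []) = 0) ∧
      ∀ c : Fin X.length → K, ∑ i, c i • vq q (X.getD i []) = 0 → c ∈ vspan X.length (kq X))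
    (hsel : ∀ (n : ℕ) (L : List (List K)), (∀ v ∈ L, v.length = n) →
      (∀ v ∈ sel L, v ∈ L) ∧ Ind n (sel L) ∧ vspan n (sel L) = vspan n L)
    (n : ℕ) (T U : List (List K)) (hT : ∀ r ∈ T, r.length = n * n) (b : List K)
    (a : Matrix (Fin n) (Fin n) K) :
    a ∈ msp n (ustep kq sel n T U b) ↔ a ∈ msp n U ∧ a * mt n b ∈ msp n T := by
  unfold ustep
  rw [mem_nxt hkq hsel _ n U _ T (by simp) (by
      intro r hr
      obtain ⟨v, -, rfl⟩ := List.mem_map.1 hr
      exact fmul_length _ _ _) hT, mem_msp n U]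
  have h1 : ∀ c : ℕ → K, ∑ i ∈ Finset.range U.length, (RingEquiv.refl K).symm (c i) •
      mt n ((U.map fun u => fmul n u b).getD i []) =
      (∑ i ∈ Finset.range U.length, c i • mt n (U.getD i [])) * mt n b := by
    intro c
    rw [Finset.sum_mul]
    refine Finset.sum_congr rfl fun i hi => ?_
    rw [getD_map' U _ [] [] (Finset.mem_range.1 hi), mt_fmul, smul_mul_assoc]
    rfl
  constructor
  · rintro ⟨c, rfl, hc⟩
    rw [h1] at hc
    exact ⟨⟨c, rfl⟩, hc⟩
  · rintro ⟨⟨c, rfl⟩, hc⟩
    refine ⟨c, rfl, ?_⟩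
    rw [h1]
    exact hc

theorem mem_ufold {kq sel : List (List K) → List (List K)}
    (hkq : ∀ (X : List (List K)) (q : ℕ), (∀ r ∈ X, r.length = q) →
      (∀ u ∈ kq X, u.length = X.length ∧
        ∑ i : Fin X.length, u.getD i 0 • vq q (X.getD i []) = 0) ∧
      ∀ c : Fin X.length → K, ∑ i, c i • vq q (X.getD i []) = 0 → c ∈ vspan X.length (kq X))
    (hsel : ∀ (n : ℕ) (L : List (List K)), (∀ v ∈ L, v.length = n) →
      (∀ v ∈ sel L, v ∈ L) ∧ Ind n (sel L) ∧ vspan n (sel L) = vspan n L)
    (n : ℕ) (T : List (List K)) (hT : ∀ r ∈ T, r.length = n * n) (Bs : List (List K)) :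
    ∀ (U : List (List K)) (a : Matrix (Fin n) (Fin n) K),
    a ∈ msp n (Bs.foldl (fun U b => ustep kq sel n T U b) U) ↔
      a ∈ msp n U ∧ ∀ b ∈ Bs, a * mt n b ∈ msp n T := by
  induction Bs with
  | nil => intro U a; simp
  | cons b Bs ih =>
    intro U a
    rw [List.foldl_cons, ih, mem_ustep hkq hsel n T U hT b a]
    constructor
    · rintro ⟨⟨h1, h2⟩, h3⟩
      refine ⟨h1, fun b' hb' => ?_⟩
      rcases List.mem_cons.1 hb' with rfl | h
      · exact h2
      · exact h3 b' h
    · rintro ⟨h1, h2⟩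
      exact ⟨⟨h1, h2 b (by simp)⟩, fun b' hb' => h2 b' (by simp [hb'])⟩

end Sem

/-! ### Polynomial time -/

section P

variable {K : Type} [Field K] [Finite K] [DecidableEq K] [TEnc K] {α : Type} [TEnc α]

theorem P_fl {n : α → ℕ} {M : α → List (List K)} (hn : UPoly n) (hM : Poly M) :
    Poly (fun a => fl (n a) (M a)) := by
  unfold fl
  refine NPC.Poly.map (F := fun a t => entry (M a) (t / n a) (t % n a)) (hn.mul hn).range ?_
  have h1 : Poly (fun p : α × ℕ => p.1) := NPC.Poly.fst NPC.Poly.id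
  have h2 : Poly (fun p : α × ℕ => p.2) := NPC.Poly.snd NPC.Poly.id
  exact Poly_entryK (hM.comp h1) (NPC.Poly.div h2 (hn.toPoly.comp h1))
    (NPC.Poly.mod h2 (hn.toPoly.comp h1))

theorem P_uf {n : α → ℕ} {v : α → List K} (hn : UPoly n) (hv : Poly v) :
    Poly (fun a => uf (n a) (v a)) := by
  unfold uf
  refine Poly_tabK (f := fun a i j => (v a).getD (j + n a * i) 0) hn hn ?_
  have h1 : Poly (fun p : (α × ℕ) × ℕ => p.1.1) := NPC.Poly.fst (NPC.Poly.fst NPC.Poly.id)
  have h2 : Poly (fun p : (α × ℕ) × ℕ => p.1.2) := NPC.Poly.snd (NPC.Poly.fst NPC.Poly.id)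
  have h3 : Poly (fun p : (α × ℕ) × ℕ => p.2) := NPC.Poly.snd NPC.Poly.id
  exact NPC.Poly.getD (hv.comp h1) (NPC.Poly.add h3 (NPC.Poly.mul (hn.toPoly.comp h1) h2))
    (NPC.Poly.const 0)

theorem P_fmul {n : α → ℕ} {v w : α → List K} (hn : UPoly n) (hv : Poly v) (hw : Poly w) :
    Poly (fun a => fmul (n a) (v a) (w a)) :=
  P_fl hn (Poly_mmulK hn (P_uf hn hv) (P_uf hn hw))

theorem P_idm {n : α → ℕ} (hn : UPoly n) : Poly (fun a => (idm (n a) : List (List K))) := by
  unfold idm
  refine Poly_tabK (f := fun _ i j => if i = j then 1 else 0) hn hn ?_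
  exact NPC.Poly.ite (NPC.Poly.decide_eq (NPC.Poly.snd (NPC.Poly.fst NPC.Poly.id))
    (NPC.Poly.snd NPC.Poly.id)) (NPC.Poly.const _) (NPC.Poly.const _)

theorem P_fpow {n : α → ℕ} {v : α → List K} (hn : UPoly n) (hv : Poly v) (k : ℕ) :
    Poly (fun a => fpow (n a) (v a) k) := by
  induction k with
  | zero => exact P_fl hn (P_idm hn)
  | succ k ih => exact P_fmul hn ih hv

theorem P_fsub {m : α → ℕ} {v w : α → List K} (hm : UPoly m) (hv : Poly v) (hw : Poly w) :
    Poly (fun a => fsub (m a) (v a) (w a)) := by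
  unfold fsub
  refine NPC.Poly.map (F := fun a t => (v a).getD t 0 - (w a).getD t 0) hm.range ?_
  have h1 : Poly (fun p : α × ℕ => p.1) := NPC.Poly.fst NPC.Poly.id
  have h2 : Poly (fun p : α × ℕ => p.2) := NPC.Poly.snd NPC.Poly.id
  exact Poly_subK (NPC.Poly.getD (hv.comp h1) h2 (NPC.Poly.const 0))
    (NPC.Poly.getD (hw.comp h1) h2 (NPC.Poly.const 0))

theorem P_comb {m : α → ℕ} {L : α → List (List K)} {x : α → List K} (hm : UPoly m) (hL : Poly L)
    (hx : Poly x) : Poly (fun a => comb (m a) (L a) (x a)) := by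
  unfold comb
  refine NPC.Poly.map (F := fun a j => ((List.range (L a).length).map fun t =>
    (x a).getD t 0 * ((L a).getD t []).getD j 0).sum) hm.range (Poly_sumK ?_)
  have h1 : Poly (fun p : α × ℕ => p.1) := NPC.Poly.fst NPC.Poly.id
  refine NPC.Poly.map (α := α × ℕ) (F := fun p t =>
    (x p.1).getD t 0 * ((L p.1).getD t []).getD p.2 0) (NPC.Poly.range_length (hL.comp h1)) ?_
  have k1 : Poly (fun p : (α × ℕ) × ℕ => p.1.1) := NPC.Poly.fst (NPC.Poly.fst NPC.Poly.id)
  have k2 : Poly (fun p : (α × ℕ) × ℕ => p.1.2) := NPC.Poly.snd (NPC.Poly.fst NPC.Poly.id)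
  have k3 : Poly (fun p : (α × ℕ) × ℕ => p.2) := NPC.Poly.snd NPC.Poly.id
  exact Poly_mulK (NPC.Poly.getD (hx.comp k1) k3 (NPC.Poly.const 0))
    (NPC.Poly.getD (NPC.Poly.getD (hL.comp k1) k3 (NPC.Poly.const [])) k2 (NPC.Poly.const 0))

theorem P_rm {n : α → ℕ} {M : α → List (List K)} (hn : UPoly n) (hM : Poly M) :
    Poly (fun a => rm (n a) (M a)) := by
  unfold rm
  refine Poly_tabK (f := fun a s t => if s / n a = t / n a then
    entry (M a) (s % n a) (t % n a) else 0) (hn.mul hn) (hn.mul hn) ?_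
  have h1 : Poly (fun p : (α × ℕ) × ℕ => p.1.1) := NPC.Poly.fst (NPC.Poly.fst NPC.Poly.id)
  have h2 : Poly (fun p : (α × ℕ) × ℕ => p.1.2) := NPC.Poly.snd (NPC.Poly.fst NPC.Poly.id)
  have h3 : Poly (fun p : (α × ℕ) × ℕ => p.2) := NPC.Poly.snd NPC.Poly.id
  have h4 := hn.toPoly.comp h1
  exact NPC.Poly.ite (NPC.Poly.decide_eq (NPC.Poly.div h2 h4) (NPC.Poly.div h3 h4))
    (Poly_entryK (hM.comp h1) (NPC.Poly.mod h2 h4) (NPC.Poly.mod h3 h4)) (NPC.Poly.const _)

theorem P_abas {clo : List (List (List K)) × List (List K) → List (List K)} (hc : Poly clo)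
    {n : α → ℕ} {Ms : α → List (List (List K))} (hn : UPoly n) (hM : Poly Ms) :
    Poly (fun a => abas clo (n a) (Ms a)) := by
  unfold abas
  have h1 : Poly (fun p : α × List (List K) => p.1) := NPC.Poly.fst NPC.Poly.id
  exact hc.comp (NPC.Poly.pair
    (NPC.Poly.map (F := fun a M => rm (n a) M) hM (P_rm (hn.comp h1) (NPC.Poly.snd NPC.Poly.id)))
    (NPC.Poly.cons (P_fl hn (P_idm hn)) (NPC.Poly.const [])))

theorem P_coms {n : α → ℕ} {Ab : α → List (List K)} (hn : UPoly n) (hA : Poly Ab) :
    Poly (fun a => coms (n a) (Ab a)) := by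
  unfold coms
  refine NPC.Poly.flatMap (F := fun a x => (Ab a).map fun b =>
    fsub (n a * n a) (fmul (n a) x b) (fmul (n a) b x)) hA ?_
  have h1 : Poly (fun p : α × List K => p.1) := NPC.Poly.fst NPC.Poly.id
  refine NPC.Poly.map (α := α × List K) (F := fun p b =>
    fsub (n p.1 * n p.1) (fmul (n p.1) p.2 b) (fmul (n p.1) b p.2)) (hA.comp h1) ?_
  have k1 : Poly (fun p : (α × List K) × List K => p.1.1) := NPC.Poly.fst (NPC.Poly.fst NPC.Poly.id)
  have k2 : Poly (fun p : (α × List K) × List K => p.1.2) := NPC.Poly.snd (NPC.Poly.fst NPC.Poly.id)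
  have k3 : Poly (fun p : (α × List K) × List K => p.2) := NPC.Poly.snd NPC.Poly.id
  have k4 := hn.comp k1
  exact P_fsub (k4.mul k4) (P_fmul k4 k2 k3) (P_fmul k4 k3 k2)

theorem P_nxt {kq sel : List (List K) → List (List K)} (hk : Poly kq) (hs : Poly sel)
    (σ : K ≃+* K) {n : α → ℕ} {L X T : α → List (List K)} (hn : UPoly n) (hL : Poly L)
    (hX : Poly X) (hT : Poly T) : Poly (fun a => nxt kq sel σ (n a) (L a) (X a) (T a)) := by
  unfold nxt
  refine hs.comp (NPC.Poly.map (F := fun a u => comb (n a * n a) (L a) (u.map σ))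
    (hk.comp (NPC.Poly.append hX hT)) ?_)
  have h1 : Poly (fun p : α × List K => p.1) := NPC.Poly.fst NPC.Poly.id
  have h2 : Poly (fun p : α × List K => p.2) := NPC.Poly.snd NPC.Poly.id
  refine P_comb ((hn.mul hn).comp h1) (hL.comp h1) ?_
  exact NPC.Poly.map (F := fun _ x => σ x) h2 (Poly_fin1 (fun x => σ x) (NPC.Poly.snd NPC.Poly.id))

theorem P_tstep {kq sel : List (List K) → List (List K)} (hk : Poly kq) (hs : Poly sel)
    (σ : K ≃+* K) (p : ℕ) {n : α → ℕ} {Ab T : α → List (List K)} (hn : UPoly n) (hA : Poly Ab)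
    (hT : Poly T) : Poly (fun a => tstep kq sel σ p (n a) (Ab a) (T a)) := by
  unfold tstep
  refine P_nxt hk hs σ hn hA (NPC.Poly.map (F := fun a x => fpow (n a) x p) hA ?_) hT
  exact P_fpow (hn.comp (NPC.Poly.fst NPC.Poly.id)) (NPC.Poly.snd NPC.Poly.id) p

theorem PB_tab (K : Type) [Field K] [Finite K] [TEnc K] {n : α → ℕ} (hn : UPoly n) (B : ℕ) :
    PB (fun a => (n a * n a) * ((n a * n a) * B + 2) + 1) := by
  have h1 : PB (fun a => n a * n a) := PB.of_upoly (hn.mul hn)
  exact ((h1.mul ((h1.mul (PB.const B)).add (PB.const 2))).add (PB.const 1))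

theorem P_tfin {kq sel : List (List K) → List (List K)} (hk : Poly kq) (hs : Poly sel)
    (hsel : ∀ (n : ℕ) (L : List (List K)), (∀ v ∈ L, v.length = n) →
      (∀ v ∈ sel L, v ∈ L) ∧ Ind n (sel L) ∧ vspan n (sel L) = vspan n L)
    (σ : K ≃+* K) (p : ℕ) {n : α → ℕ} {Ab : α → List (List K)} (hn : UPoly n) (hA : Poly Ab) :
    Poly (fun a => tfin kq sel σ p (n a) (Ab a) (n a * n a)) := by
  unfold tfin
  obtain ⟨B, hB⟩ := exists_sz_tab K
  refine Poly_foldRange (n := fun a => n a * n a) (s := fun a => sel (coms (n a) (Ab a)))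
    (F := fun a T _ => tstep kq sel σ p (n a) (Ab a) T) (hn.mul hn) (hs.comp (P_coms hn hA)) ?_
    (fun a => (n a * n a) * ((n a * n a) * B + 2) + 1) (PB_tab K hn B) ?_
  · have h1 : Poly (fun p : α × List (List K) × ℕ => p.1) := NPC.Poly.fst NPC.Poly.id
    exact P_tstep hk hs σ p (hn.comp h1) (hA.comp h1) (NPC.Poly.fst (NPC.Poly.snd NPC.Poly.id))
  · intro a k _
    have h1 := tfin_len (kq := kq) hsel σ p (n a) (Ab a) k
    exact hB _ _ _ h1.2 fun v hv => (h1.1 v hv).le

theorem P_ufold {kq sel : List (List K) → List (List K)} (hk : Poly kq) (hs : Poly sel)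
    (hsel : ∀ (n : ℕ) (L : List (List K)), (∀ v ∈ L, v.length = n) →
      (∀ v ∈ sel L, v ∈ L) ∧ Ind n (sel L) ∧ vspan n (sel L) = vspan n L)
    {n : α → ℕ} {Ab T : α → List (List K)} (hn : UPoly n) (hA : Poly Ab) (hT : Poly T) :
    Poly (fun a => (Ab a).foldl (fun U b => ustep kq sel (n a) (T a) U b) (Ab a)) := by
  obtain ⟨B, hB⟩ := exists_sz_tab K
  refine Poly_foldl (l := Ab) (s := Ab) (F := fun a U b => ustep kq sel (n a) (T a) U b) hA hA ?_
    (fun a => sz (Ab a) + ((n a * n a) * ((n a * n a) * B + 2) + 1))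
    ((PB.sz hA).add (PB_tab K hn B)) ?_
  · have h1 : Poly (fun p : α × List (List K) × List K => p.1) := NPC.Poly.fst NPC.Poly.id
    have h2 : Poly (fun p : α × List (List K) × List K => p.2.1) :=
      NPC.Poly.fst (NPC.Poly.snd NPC.Poly.id)
    have h3 : Poly (fun p : α × List (List K) × List K => p.2.2) :=
      NPC.Poly.snd (NPC.Poly.snd NPC.Poly.id)
    unfold ustep
    refine P_nxt hk hs _ (hn.comp h1) h2 (NPC.Poly.map
      (F := fun (p : α × List (List K) × List K) u => fmul (n p.1) u p.2.2) h2 ?_) (hT.comp h1)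
    exact P_fmul ((hn.comp h1).comp (NPC.Poly.fst NPC.Poly.id)) (NPC.Poly.snd NPC.Poly.id)
      (h3.comp (NPC.Poly.fst NPC.Poly.id))
  · intro a k _
    rcases List.eq_nil_or_concat ((Ab a).take k) with h | ⟨l, b, h⟩
    · rw [h, List.foldl_nil]
      omega
    · rw [h, List.concat_eq_append, List.foldl_concat]
      have h1 := nxt_len (kq := kq) hsel (RingEquiv.refl K) (n a)
        (l.foldl (fun U b => ustep kq sel (n a) (T a) U b) (Ab a))
        ((l.foldl (fun U b => ustep kq sel (n a) (T a) U b) (Ab a)).map fun u => fmul (n a) u b) (T a)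
      have h2 := hB (n a * n a) (n a * n a) _ h1.2 fun v hv => (h1.1 v hv).le
      refine le_trans h2 ?_
      omega

end P

/-! ### The algorithm -/

section Algo

variable {K : Type} [Field K] [Finite K] [DecidableEq K] [TEnc K]

/-- the size of the matrices -/
def dm (Ms : List (List (List K))) : ℕ := (Ms.getD 0 []).length

/-- the algorithm -/
def algo (clo : List (List (List K)) × List (List K) → List (List K))
    (kq sel : List (List K) → List (List K)) (σ : K ≃+* K) (p : ℕ) (Ms : List (List (List K))) :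
    List (List (List K)) × List (List (List K)) :=
  ((abas clo (dm Ms) Ms).map (uf (dm Ms)),
    ((abas clo (dm Ms) Ms).foldl (fun U b => ustep kq sel (dm Ms)
      (tfin kq sel σ p (dm Ms) (abas clo (dm Ms) Ms) (dm Ms * dm Ms)) U b)
      (abas clo (dm Ms) Ms)).map (uf (dm Ms)))

theorem P_algo {clo : List (List (List K)) × List (List K) → List (List K)}
    {kq sel : List (List K) → List (List K)} (hc : Poly clo) (hk : Poly kq) (hs : Poly sel)
    (hsel : ∀ (n : ℕ) (L : List (List K)), (∀ v ∈ L, v.length = n) →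
      (∀ v ∈ sel L, v ∈ L) ∧ Ind n (sel L) ∧ vspan n (sel L) = vspan n L)
    (σ : K ≃+* K) (p : ℕ) : Poly (algo clo kq sel σ p) := by
  have hn : UPoly (dm : List (List (List K)) → ℕ) :=
    UPoly.length (NPC.Poly.getD NPC.Poly.id (NPC.Poly.const 0) (NPC.Poly.const []))
  have hA : Poly (fun Ms : List (List (List K)) => abas clo (dm Ms) Ms) := P_abas hc hn NPC.Poly.id
  have hT := P_tfin hk hs hsel σ p hn hA
  have hU := P_ufold hk hs hsel hn hA hT
  have h1 : Poly (fun q : List (List (List K)) × List K => q.1) := NPC.Poly.fst NPC.Poly.id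
  have h2 := P_uf (hn.comp h1) (NPC.Poly.snd (α := List (List (List K)) × List K) NPC.Poly.id)
  exact NPC.Poly.pair (NPC.Poly.map (F := fun Ms v => uf (dm Ms) v) hA h2)
    (NPC.Poly.map (F := fun Ms v => uf (dm Ms) v) hU h2)

end Algo

end RA

open RA in
theorem ra (K : Type) [Field K] [Finite K] [DecidableEq K] [TEnc K] (hk : K2S K) (hs : SelS K)
    (hc : CloS K) (hf : FRS K) (hj : RJS K) : RAS K := by
  obtain ⟨kq, pkq, hkq⟩ := hk
  obtain ⟨sel, psel, hsel⟩ := hs
  obtain ⟨clo, pclo, hclo⟩ := hc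
  have hp : Fact (ringChar K).Prime := ⟨CharP.prime_ringChar K⟩
  have hch : CharP K (ringChar K) := ringChar.charP K
  let σ : K ≃+* K := (frobeniusEquiv K (ringChar K)).symm
  have hσ : ∀ x, σ.symm x = x ^ (ringChar K) := fun x => rfl
  refine ⟨algo clo kq sel σ (ringChar K), P_algo pclo pkq psel hsel σ _, ?_⟩
  intro n Ms hn hne hMs
  have hdm : dm Ms = n := by
    unfold dm
    obtain ⟨M, t, rfl⟩ := List.exists_cons_of_ne_nil hne
    rw [List.getD_cons_zero]
    exact (hMs M (by simp)).1
  obtain ⟨hlen, hA⟩ := abas_spec hclo n Ms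
  obtain ⟨hfr, hfr2⟩ := hf (ringChar K) n (algOf n Ms)
  have hTT := mem_TT hkq hsel σ (ringChar K) n hσ (abas clo n Ms) (algOf n Ms) hfr hfr2 hA
  have hTlen := (tfin_len (kq := kq) hsel σ (ringChar K) n (abas clo n Ms) (n * n)).1
  unfold algo
  rw [hdm]
  refine ⟨?_, ?_, ?_, ?_⟩
  · intro c hc
    obtain ⟨v, -, rfl⟩ := List.mem_map.1 hc
    exact uf_isMat _ _
  · intro c hc
    obtain ⟨v, -, rfl⟩ := List.mem_map.1 hc
    exact uf_isMat _ _
  · rw [mspan_uf]
    ext a
    exact hA a
  · rw [mspan_uf]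
    ext a
    rw [mem_ufold hkq hsel n _ hTlen, hj (ringChar K) n (algOf n Ms) a, hA]
    refine and_congr_right fun ha => ?_
    constructor
    · intro h b hb
      rw [← hTT]
      rw [← hA] at hb
      unfold msp at hb
      induction hb using Submodule.span_induction with
      | mem x hx =>
        obtain ⟨v, hv, rfl⟩ := hx
        exact h v hv
      | zero => rw [mul_zero]; exact Submodule.zero_mem _
      | add x y _ _ hx hy => rw [mul_add]; exact Submodule.add_mem _ hx hy
      | smul r x _ hx => rw [mul_smul_comm]; exact Submodule.smul_mem _ _ hx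
    · intro h b hb
      rw [hTT]
      exact h _ ((hA _).1 (Submodule.subset_span ⟨b, hb, rfl⟩))

end Pool.Agent.H420_NCF.FF
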