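import Pool.Agent.H420_NCF.Spec2
import Pool.Agent.H420_NCF.FF.Base

/-!
# the radical in positive characteristic, over a finite field (module RJ)
-/

namespace Pool.Agent.H420_NCF.FF

open Pool.Agent.NPC Pool.Agent.NPC.H532
open scoped Matrix

namespace RJ

theorem mem_JJ {k : Type} [Field k] {n : ℕ} {A : Subalgebra k (Matrix (Fin n) (Fin n) k)}
    {a : Matrix (Fin n) (Fin n) k} :
    a ∈ JJ A ↔ ∃ x : A, x ∈ Ring.jacobson A ∧ (x : Matrix (Fin n) (Fin n) k) = a := by
  unfold JJ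
  rw [Submodule.mem_map]
  constructor
  · rintro ⟨x, hx, rfl⟩
    exact ⟨x, hx, rfl⟩
  · rintro ⟨x, hx, rfl⟩
    exact ⟨x, hx, rfl⟩

/-- The trace of a power of a matrix over a finite field. -/
theorem trace_pow {D : Type} [Field D] [Fintype D] {m : ℕ} (M : Matrix (Fin m) (Fin m) D) (t : ℕ) :
    (M ^ (Fintype.card D ^ t)).trace = M.trace := by
  induction t with
  | zero => simp
  | succ t ih => rw [pow_succ, pow_mul, FiniteField.trace_pow_card, ih, FiniteField.pow_card]

/-- The trace of a representation over a finite field vanishes on commutators. -/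
theorem trace_comm {K : Type} [Field K] {n : ℕ} (A : Subalgebra K (Matrix (Fin n) (Fin n) K))
    {D : Type} [Field D] [Algebra K D] {m : ℕ} (ψ : A →ₐ[K] Matrix (Fin m) (Fin m) D)
    (z : Matrix (Fin n) (Fin n) K) (hz : z ∈ comm A) :
    ∃ h : z ∈ A, (ψ ⟨z, h⟩).trace = 0 := by
  unfold comm at hz
  refine Submodule.span_induction (p := fun z _ => ∃ h : z ∈ A, (ψ ⟨z, h⟩).trace = 0)
    ?_ ?_ ?_ ?_ hz
  · rintro z ⟨a, ha, b, hb, rfl⟩
    refine ⟨A.sub_mem (A.mul_mem ha hb) (A.mul_mem hb ha), ?_⟩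
    have : (⟨a * b - b * a, A.sub_mem (A.mul_mem ha hb) (A.mul_mem hb ha)⟩ : A) =
        ⟨a, ha⟩ * ⟨b, hb⟩ - ⟨b, hb⟩ * ⟨a, ha⟩ := rfl
    rw [this, map_sub, map_mul, map_mul, Matrix.trace_sub, Matrix.trace_mul_comm, sub_self]
  · refine ⟨A.zero_mem, ?_⟩
    have : (⟨0, A.zero_mem⟩ : A) = 0 := rfl
    rw [this, map_zero, Matrix.trace_zero]
  · rintro x y _ _ ⟨hx, hx'⟩ ⟨hy, hy'⟩
    refine ⟨A.add_mem hx hy, ?_⟩
    have : (⟨x + y, A.add_mem hx hy⟩ : A) = ⟨x, hx⟩ + ⟨y, hy⟩ := rfl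
    rw [this, map_add, Matrix.trace_add, hx', hy', add_zero]
  · rintro c x _ ⟨hx, hx'⟩
    refine ⟨A.smul_mem hx c, ?_⟩
    have : (⟨c • x, A.smul_mem hx c⟩ : A) = c • ⟨x, hx⟩ := rfl
    rw [this, map_smul, Matrix.trace_smul, hx', smul_zero]

/-- The trace of a representation over a finite field vanishes on `TT`. -/
theorem trace_TT {K : Type} [Field K] [Finite K] (p : ℕ) [Fact p.Prime] [CharP K p] {n : ℕ}
    (A : Subalgebra K (Matrix (Fin n) (Fin n) K)) (hfr : ∀ a ∈ comm A, a ^ p ∈ comm A)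
    {D : Type} [Field D] [Finite D] [Algebra K D] {m : ℕ} (ψ : A →ₐ[K] Matrix (Fin m) (Fin m) D)
    (x : A) (hx : (x : Matrix (Fin n) (Fin n) K) ∈ TT p A) : (ψ x).trace = 0 := by
  obtain ⟨_, j, hj⟩ := hx
  have : Fintype D := Fintype.ofFinite D
  have : CharP D p := charP_of_injective_algebraMap (algebraMap K D).injective p
  obtain ⟨f, _, hf⟩ := FiniteField.card D p
  have hpow : ∀ k : ℕ, (x : Matrix (Fin n) (Fin n) K) ^ p ^ (j + k) ∈ comm A := by
    intro k
    induction k with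
    | zero => exact hj
    | succ k ih =>
      rw [← add_assoc, pow_succ, pow_mul]
      exact hfr _ ih
  have hle : j ≤ (f : ℕ) * j := Nat.le_mul_of_pos_left j f.pos
  have h1 := hpow ((f : ℕ) * j - j)
  rw [Nat.add_sub_cancel' hle, pow_mul, ← hf] at h1
  obtain ⟨h2, h3⟩ := trace_comm A ψ _ h1
  have h4 : (⟨(x : Matrix (Fin n) (Fin n) K) ^ Fintype.card D ^ j, h2⟩ : A) =
      x ^ Fintype.card D ^ j := by
    apply Subtype.ext
    simp
  rw [h4, map_pow, trace_pow] at h3
  exact h3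

end RJ

open RJ in
theorem rj (K : Type) [Field K] [Finite K] (h0 : R0S K) (hf : FRS K) : RJS K := by
  intro p _ _ n A a
  obtain ⟨h1, h2, h3⟩ := h0 n A
  constructor
  · intro ha
    refine ⟨(h1 a ha).1, fun b hb => ?_⟩
    have hab := h1 _ (h2 a ha b hb).1
    refine ⟨hab.1, ?_⟩
    obtain ⟨m, hm⟩ := hab.2
    refine ⟨m, ?_⟩
    have hle : m ≤ p ^ m := (Nat.lt_pow_self (Fact.out : p.Prime).one_lt).le
    have : (a * b) ^ p ^ m = 0 := by
      rw [← Nat.add_sub_cancel' hle, pow_add, hm, zero_mul]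
    rw [this]
    exact Submodule.zero_mem _
  · rintro ⟨ha, hb⟩
    by_contra hna
    have hart : IsArtinianRing A := IsArtinianRing.of_finite K A
    have hss : IsSemisimpleRing (A ⧸ Ring.jacobson A) := inferInstance
    have hfin : Module.Finite K (A ⧸ Ring.jacobson A) :=
      Module.Finite.of_surjective (Ideal.Quotient.mkₐ K (Ring.jacobson A)).toLinearMap
        (Ideal.Quotient.mkₐ_surjective K (Ring.jacobson A))
    obtain ⟨N, D, d, _, _, hDfin, hd, ⟨e⟩⟩ :=
      IsSemisimpleRing.exists_algEquiv_pi_matrix_divisionRing_finite K (A ⧸ Ring.jacobson A)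
    let a' : A := ⟨a, ha⟩
    have hane : (Ideal.Quotient.mk (Ring.jacobson A) a') ≠ 0 := by
      intro h
      rw [Ideal.Quotient.eq_zero_iff_mem] at h
      exact hna (mem_JJ.2 ⟨a', h, rfl⟩)
    have hene : e (Ideal.Quotient.mk (Ring.jacobson A) a') ≠ 0 := by
      intro h
      exact hane ((map_eq_zero_iff e e.injective).1 h)
    obtain ⟨i, hi⟩ : ∃ i, e (Ideal.Quotient.mk (Ring.jacobson A) a') i ≠ 0 := by
      by_contra hcon
      push Not at hcon
      exact hene (funext hcon)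
    obtain ⟨r, s, hrs⟩ : ∃ r s, e (Ideal.Quotient.mk (Ring.jacobson A) a') i r s ≠ 0 := by
      by_contra hcon
      push Not at hcon
      apply hi
      ext r s
      exact hcon r s
    have hDi : Finite (D i) := Module.finite_of_finite K
    let ψ : A →ₐ[K] Matrix (Fin (d i)) (Fin (d i)) (D i) :=
      (Pi.evalAlgHom K (fun i => Matrix (Fin (d i)) (Fin (d i)) (D i)) i).comp
        (e.toAlgHom.comp (Ideal.Quotient.mkₐ K (Ring.jacobson A)))
    obtain ⟨b, hb'⟩ := Ideal.Quotient.mk_surjective (I := Ring.jacobson A)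
      (e.symm (Pi.single i (Matrix.single s r (e (Ideal.Quotient.mk (Ring.jacobson A) a') i r s)⁻¹)))
    have hψb : ψ b = Matrix.single s r (e (Ideal.Quotient.mk (Ring.jacobson A) a') i r s)⁻¹ := by
      change e (Ideal.Quotient.mk (Ring.jacobson A) b) i = _
      rw [hb', AlgEquiv.apply_symm_apply, Pi.single_eq_same]
    have hψ : (ψ (a' * b)).trace = 1 := by
      rw [map_mul, hψb]
      rw [Matrix.trace, Finset.sum_eq_single r]
      · rw [Matrix.diag_apply, Matrix.mul_single_apply_same]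
        exact mul_inv_cancel₀ hrs
      · intro k _ hk
        rw [Matrix.diag_apply, Matrix.mul_single_apply_of_ne _ _ _ _ _ hk]
      · intro h
        exact absurd (Finset.mem_univ r) h
    have hzero : (ψ (a' * b)).trace = 0 :=
      @trace_TT K _ _ p _ _ n A (hf p n A).2 (D i) (littleWedderburn (D i)) _ _ _ ψ (a' * b)
        (hb b b.2)
    rw [hψ] at hzero
    exact one_ne_zero hzero

end Pool.Agent.H420_NCF.FF
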