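import Pool.Agent.H420_NCF.Spec2
import Pool.Agent.H420_NCF.FF.Base

/-!
# reversal of words over a finite field (module Rev)
-/

namespace Pool.Agent.H420_NCF.FF

open Pool.Agent.NPC Pool.Agent.NPC.H532
open scoped Matrix

namespace Rev

section General
variable {k : Type*} [Field k]

/-- Reversal of words. -/
def revW (w : FreeMonoid ℕ) : FreeMonoid ℕ := FreeMonoid.ofList (FreeMonoid.toList w).reverse

theorem revW_injective : Function.Injective revW := by
  intro a b h
  have h1 : (FreeMonoid.toList a).reverse = (FreeMonoid.toList b).reverse := h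
  exact List.reverse_injective h1

/-- Reversal of the words of a polynomial. -/
noncomputable def RR : NC k →ₗ[k] NC k where
  toFun p := MonoidAlgebra.ofCoeff (p.coeff.comapDomain revW revW_injective.injOn)
  map_add' p q := by
    apply MonoidAlgebra.ext; ext w; simp
  map_smul' c p := by
    apply MonoidAlgebra.ext; ext w; simp

theorem cf_RR (w : List ℕ) (p : NC k) : cf w (RR p) = cf w.reverse p := rfl

theorem RR_mon (w : List ℕ) : RR (mon w : NC k) = mon w.reverse := by
  ext v
  rw [cf_RR, cf_mon, cf_mon]
  refine if_congr ?_ rfl rfl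
  constructor
  · rintro rfl; rw [List.reverse_reverse]
  · rintro rfl; rw [List.reverse_reverse]

theorem RR_RR (p : NC k) : RR (RR p) = p := by
  ext w
  rw [cf_RR, cf_RR, List.reverse_reverse]

theorem RR_mul (p q : NC k) : RR (p * q) = RR q * RR p := by
  refine mon_induction (P := fun p => RR (p * q) = RR q * RR p) p
    (by rw [zero_mul, map_zero, mul_zero]) (fun p p' hp hq => ?_) (fun c w => ?_)
  · rw [add_mul, map_add, hp, hq, map_add, mul_add]
  · refine mon_induction (P := fun q => RR (c • mon w * q) = RR q * RR (c • mon w)) q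
      (by rw [mul_zero, map_zero, zero_mul]) (fun p p' hp hq => ?_) (fun d v => ?_)
    · rw [mul_add, map_add, hp, hq, map_add, add_mul]
    · rw [smul_mul_smul_comm, ← mon_append, map_smul, map_smul, map_smul, smul_mul_smul_comm,
        RR_mon, RR_mon, RR_mon, ← mon_append, List.reverse_append, mul_comm c d]

end General

end Rev

open Rev in
theorem rev_ (K : Type) [Field K] [Finite K] [DecidableEq K] [TEnc K] : RevS K := by
  refine ⟨fun f => f.map fun t => (t.1.reverse, t.2), ?_, RR, RR_mul, RR_RR, cf_RR, fun f => ?_⟩
  · exact NPC.Poly.map (F := fun (_ : IP K) (t : List ℕ × K) => (t.1.reverse, t.2)) NPC.Poly.id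
      (NPC.Poly.pair (NPC.Poly.reverse (NPC.Poly.fst (NPC.Poly.snd NPC.Poly.id)))
        (NPC.Poly.snd (NPC.Poly.snd NPC.Poly.id)))
  · unfold pol
    rw [map_list_sum, List.map_map, List.map_map]
    congr 1
    refine List.map_congr_left fun t _ => ?_
    rw [Function.comp_apply, Function.comp_apply, map_smul, RR_mon]

end Pool.Agent.H420_NCF.FF
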