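import Pool.Agent.H420_NCF.Spec2
import Pool.Agent.H420_NCF.FF.Base

/-!
# Selection of independent vectors over a finite field (module SelMod)
-/

namespace Pool.Agent.H420_NCF.FF

open Pool.Agent.NPC Pool.Agent.NPC.H532
open scoped Matrix

namespace SelMod

set_option linter.unusedSectionVars false

variable {K : Type} [Field K] [TEnc K]

/-- One step of the selection. -/
def step (f : List (List K) × List K → Bool) (N kept : List (List K)) (v : List K) :
    List (List K) :=
  bif f (N ++ kept, v) then kept else kept ++ [v]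

/-- The selection. -/
def sel (f : List (List K) × List K → Bool) (a : List (List K) × List (List K)) :
    List (List K) :=
  a.2.foldl (fun kept v => step f a.1 kept v) []

theorem sz_step (f : List (List K) × List K → Bool) (N kept : List (List K)) (v : List K) :
    sz (step f N kept v) ≤ sz kept + sz v + 1 := by
  unfold step
  have h1 := sz_append kept [v]
  rw [sz_list_cons, sz_list_nil] at h1
  cases f (N ++ kept, v)
  · rw [cond_false]; omega
  · rw [cond_true]; omega

theorem sz_fold (f : List (List K) × List K → Bool) (N : List (List K)) :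
    ∀ (L kept : List (List K)),
      sz (L.foldl (fun kept v => step f N kept v) kept) + 1 ≤ sz kept + sz L
  | [], kept => by simp
  | v :: L, kept => by
    rw [List.foldl_cons]
    have h1 := sz_fold f N L (step f N kept v)
    have h2 := sz_step f N kept v
    rw [sz_list_cons]
    omega

theorem poly_sel (f : List (List K) × List K → Bool) (hf : Poly f) : Poly (sel f) := by
  have h1 : Poly (fun p : (List (List K) × List (List K)) × List (List K) × List K =>
      step f p.1.1 p.2.1 p.2.2) := by
    refine NPC.Poly.cond (hf.comp (NPC.Poly.pair (NPC.Poly.append (NPC.Poly.fst (NPC.Poly.fst NPC.Poly.id))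
      (NPC.Poly.fst (NPC.Poly.snd NPC.Poly.id))) (NPC.Poly.snd (NPC.Poly.snd NPC.Poly.id)))) (NPC.Poly.fst (NPC.Poly.snd NPC.Poly.id)) ?_
    exact NPC.Poly.append (NPC.Poly.fst (NPC.Poly.snd NPC.Poly.id))
      (NPC.Poly.cons (NPC.Poly.snd (NPC.Poly.snd NPC.Poly.id)) (NPC.Poly.const []))
  refine Poly_foldl (F := fun (a : List (List K) × List (List K)) kept v => step f a.1 kept v)
    (l := fun a : List (List K) × List (List K) => a.2)
    (s := fun _ => []) (NPC.Poly.snd NPC.Poly.id) (NPC.Poly.const []) h1 (fun a => sz a.2)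
    (PB.sz (NPC.Poly.snd NPC.Poly.id)) ?_
  intro a k _
  have h2 := sz_fold f a.1 (a.2.take k) []
  have h3 := NPC.Poly.sz_take_le a.2 k
  rw [sz_list_nil] at h2
  omega

theorem vspan_nil (n : ℕ) : vspan n ([] : List (List K)) = ⊥ := by
  unfold vspan
  rw [Submodule.span_eq_bot]
  rintro _ ⟨v, hv, _⟩
  simp at hv

theorem vspan_append (n : ℕ) (N L : List (List K)) : vspan n (N ++ L) = vspan n N ⊔ vspan n L := by
  unfold vspan
  rw [← Submodule.span_union]
  congr 1
  ext w
  simp only [Set.mem_ofPred_eq, Set.mem_union, List.mem_append]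
  constructor
  · rintro ⟨v, hv | hv, rfl⟩
    · exact Or.inl ⟨v, hv, rfl⟩
    · exact Or.inr ⟨v, hv, rfl⟩
  · rintro (⟨v, hv, rfl⟩ | ⟨v, hv, rfl⟩)
    · exact ⟨v, Or.inl hv, rfl⟩
    · exact ⟨v, Or.inr hv, rfl⟩

theorem vspan_single (n : ℕ) (v : List K) : vspan n [v] = Submodule.span K {vq n v} := by
  unfold vspan
  congr 1
  ext w
  simp

theorem vspan_cons (n : ℕ) (v : List K) (L : List (List K)) :
    vspan n (v :: L) = Submodule.span K {vq n v} ⊔ vspan n L := by
  rw [← vspan_single, ← vspan_append]; rfl

theorem mem_vspan_sum (n : ℕ) (L : List (List K)) (c : ℕ → K) :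
    ∑ i ∈ Finset.range L.length, c i • vq n (L.getD i []) ∈ vspan n L := by
  refine Submodule.sum_mem _ fun i hi => Submodule.smul_mem _ _ (Submodule.subset_span ?_)
  rw [Finset.mem_range] at hi
  refine ⟨L.getD i [], ?_, rfl⟩
  rw [List.getD_eq_getElem _ _ hi]
  exact List.getElem_mem hi

/-- Independence modulo the span of `N`. -/
def IndM (n : ℕ) (N L : List (List K)) : Prop :=
  ∀ c : ℕ → K, ∑ i ∈ Finset.range L.length, c i • vq n (L.getD i []) ∈ vspan n N →
    ∀ i < L.length, c i = 0

theorem IndM.snoc {n : ℕ} {N L : List (List K)} (h : IndM n N L) {v : List K}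
    (hv : vq n v ∉ vspan n (N ++ L)) : IndM n N (L ++ [v]) := by
  intro c hc
  rw [List.length_append, List.length_singleton, Finset.sum_range_succ] at hc
  have h1 : ∑ i ∈ Finset.range L.length, c i • vq n ((L ++ [v]).getD i []) =
      ∑ i ∈ Finset.range L.length, c i • vq n (L.getD i []) := by
    refine Finset.sum_congr rfl fun i hi => ?_
    rw [Finset.mem_range] at hi
    rw [List.getD_append _ _ _ _ hi]
  have h2 : (L ++ [v]).getD L.length [] = v := by
    rw [List.getD_append_right _ _ _ _ le_rfl]; simp
  rw [h1, h2] at hc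
  have h3 : c L.length = 0 := by
    by_contra hne
    apply hv
    rw [vspan_append]
    have h4 : c L.length • vq n v ∈ vspan n N ⊔ vspan n L := by
      have h5 := Submodule.sub_mem _ (Submodule.mem_sup_left (T := vspan n L) hc)
        (Submodule.mem_sup_right (S := vspan n N) (mem_vspan_sum n L c))
      rwa [add_sub_cancel_left] at h5
    have h6 := Submodule.smul_mem _ (c L.length)⁻¹ h4
    rwa [smul_smul, inv_mul_cancel₀ hne, one_smul] at h6
  rw [h3, zero_smul, add_zero] at hc
  intro i hi
  rw [List.length_append, List.length_singleton] at hi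
  rcases Nat.lt_succ_iff_lt_or_eq.1 hi with hi | hi
  · exact h c hc i hi
  · rw [hi]; exact h3

theorem inv (f : List (List K) × List K → Bool) (n : ℕ)
    (hf : ∀ (L : List (List K)) (v : List K), (∀ w ∈ L, w.length = n) → v.length = n →
      (f (L, v) = true ↔ vq n v ∈ vspan n L)) (N : List (List K)) (hK : ∀ v ∈ N, v.length = n) :
    ∀ (L kept : List (List K)), (∀ v ∈ L, v.length = n) → (∀ v ∈ kept, v.length = n) →
      (∀ v ∈ L.foldl (fun kept v => step f N kept v) kept, v ∈ kept ∨ v ∈ L) ∧
      (IndM n N kept → IndM n N (L.foldl (fun kept v => step f N kept v) kept)) ∧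
      vspan n N ⊔ vspan n (L.foldl (fun kept v => step f N kept v) kept) =
        vspan n N ⊔ vspan n kept ⊔ vspan n L ∧
      kept <+: L.foldl (fun kept v => step f N kept v) kept
  | [], kept, _, _ => by
    rw [List.foldl_nil, vspan_nil, sup_bot_eq]
    exact ⟨fun v hv => Or.inl hv, fun h => h, rfl, List.prefix_rfl⟩
  | v :: L, kept, hL, hkept => by
    rw [List.foldl_cons]
    have hv : v.length = n := hL v (by simp)
    have hL' : ∀ v ∈ L, v.length = n := fun w hw => hL w (by simp [hw])
    have hcat : ∀ w ∈ N ++ kept, w.length = n := by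
      intro w hw
      rcases List.mem_append.1 hw with h | h
      · exact hK w h
      · exact hkept w h
    have hfv := hf (N ++ kept) v hcat hv
    by_cases hm : f (N ++ kept, v) = true
    · have hs : step f N kept v = kept := by unfold step; rw [hm, cond_true]
      rw [hs]
      obtain ⟨i1, i2, i3, i4⟩ := inv f n hf N hK L kept hL' hkept
      refine ⟨fun w hw => ?_, i2, ?_, i4⟩
      · rcases i1 w hw with h | h
        · exact Or.inl h
        · exact Or.inr (List.mem_cons_of_mem _ h)
      · rw [i3, vspan_cons]
        have h1 : Submodule.span K {vq n v} ≤ vspan n N ⊔ vspan n kept := by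
          rw [Submodule.span_singleton_le_iff_mem, ← vspan_append]
          exact hfv.1 hm
        rw [← sup_assoc, sup_eq_left.2 h1]
    · have hs : step f N kept v = kept ++ [v] := by
        unfold step
        rw [Bool.not_eq_true] at hm
        rw [hm, cond_false]
      rw [hs]
      have hkept' : ∀ w ∈ kept ++ [v], w.length = n := by
        intro w hw
        rcases List.mem_append.1 hw with h | h
        · exact hkept w h
        · rw [List.mem_singleton.1 h]; exact hv
      obtain ⟨i1, i2, i3, i4⟩ := inv f n hf N hK L (kept ++ [v]) hL' hkept'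
      refine ⟨fun w hw => ?_, fun h => i2 (h.snoc (fun h' => hm (hfv.2 h'))), ?_,
        (List.prefix_append _ _).trans i4⟩
      · rcases i1 w hw with h | h
        · rcases List.mem_append.1 h with h | h
          · exact Or.inl h
          · rw [List.mem_singleton.1 h]; exact Or.inr (by simp)
        · exact Or.inr (List.mem_cons_of_mem _ h)
      · rw [i3, vspan_cons, vspan_append, vspan_single]
        simp only [sup_assoc]

end SelMod

theorem selMod (K : Type) [Field K] [Finite K] [DecidableEq K] [TEnc K] (h : MemS K) : SelModS K ∧ SelS K := by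
  obtain ⟨f, hf, hmem⟩ := h
  have key : ∀ (n : ℕ) (N L : List (List K)), (∀ v ∈ N, v.length = n) → (∀ v ∈ L, v.length = n) →
    (∀ v ∈ SelMod.sel f (N, L), v ∈ L) ∧
    (∀ c : Fin (SelMod.sel f (N, L)).length → K,
      ∑ i, c i • vq n ((SelMod.sel f (N, L)).getD i []) ∈ vspan n N → c = 0) ∧
    vspan n N ⊔ vspan n (SelMod.sel f (N, L)) = vspan n N ⊔ vspan n L ∧
    ∀ v L', L = v :: L' → vq n v ∉ vspan n N → (SelMod.sel f (N, L)).head? = some v := by
    intro n N L hK hL
    obtain ⟨i1, i2, i3, i4⟩ := SelMod.inv f n (hmem n) N hK L [] hL (by simp)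
    refine ⟨fun v hv => ?_, fun c hc => ?_, ?_, fun v L' hLv hv => ?_⟩
    · rcases i1 v hv with h | h
      · simp at h
      · exact h
    · have h1 := i2 (fun c _ i hi => absurd hi (by simp))
        (fun i => if h : i < (SelMod.sel f (N, L)).length then c ⟨i, h⟩ else 0)
      have h2 : ∑ i ∈ Finset.range (SelMod.sel f (N, L)).length,
          (if h : i < (SelMod.sel f (N, L)).length then c ⟨i, h⟩ else 0) •
            vq n ((SelMod.sel f (N, L)).getD i []) =
          ∑ i, c i • vq n ((SelMod.sel f (N, L)).getD i []) := by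
        rw [Finset.sum_range]
        refine Finset.sum_congr rfl fun i _ => ?_
        rw [dif_pos i.2]
      have h3 := h1 (by
        change ∑ i ∈ Finset.range (SelMod.sel f (N, L)).length,
          (if h : i < (SelMod.sel f (N, L)).length then c ⟨i, h⟩ else 0) •
            vq n ((SelMod.sel f (N, L)).getD i []) ∈ vspan n N
        rw [h2]; exact hc)
      funext i
      have h4 := h3 i i.2
      simpa using h4
    · change vspan n N ⊔ vspan n (SelMod.sel f (N, L)) = _ at i3
      rw [i3, SelMod.vspan_nil, sup_bot_eq]
    · subst hLv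
      have h1 : SelMod.step f N [] v = [v] := by
        unfold SelMod.step
        have h2 : ¬ f (N ++ [], v) = true := by
          rw [hmem n (N ++ []) v (by simpa using hK) (hL v (by simp))]
          simpa using hv
        rw [Bool.not_eq_true] at h2
        rw [h2, cond_false]; rfl
      obtain ⟨-, -, -, j4⟩ := SelMod.inv f n (hmem n) N hK L' [v]
        (fun w hw => hL w (by simp [hw])) (by simpa using hL v (by simp))
      have h3 : SelMod.sel f (N, v :: L') =
          L'.foldl (fun kept v => SelMod.step f N kept v) [v] := by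
        unfold SelMod.sel
        change List.foldl _ [] (v :: L') = _
        rw [List.foldl_cons, h1]
      rw [h3]
      obtain ⟨t, ht⟩ := j4
      rw [← ht]; rfl
  refine ⟨⟨SelMod.sel f, SelMod.poly_sel f hf, key⟩, fun L => SelMod.sel f ([], L),
    (SelMod.poly_sel f hf).comp (NPC.Poly.pair (NPC.Poly.const []) NPC.Poly.id), fun n L hL => ?_⟩
  obtain ⟨k1, k2, k3, -⟩ := key n [] L (by simp) hL
  refine ⟨k1, ?_, ?_⟩
  · unfold Ind
    rw [Fintype.linearIndependent_iff]
    intro c hc i
    have := k2 c (by rw [hc]; exact Submodule.zero_mem _)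
    rw [this]; rfl
  · rwa [SelMod.vspan_nil, bot_sup_eq, bot_sup_eq] at k3

end Pool.Agent.H420_NCF.FF
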