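import Pool.Agent.H420_NCF.Spec2
import Pool.Agent.H420_NCF.FF.Base

/-!
# the largest left factor with nonzero constant term, over a finite field (module Split)
-/

namespace Pool.Agent.H420_NCF.FF

open Pool.Agent.NPC Pool.Agent.NPC.H532
open scoped Matrix

namespace Split

section Basic
variable {K : Type} [Field K]

/-- The reversal map preserves the lower degree. -/
theorem isLow_rev {R : NC K →ₗ[K] NC K} (hR : ∀ w p, cf w (R p) = cf w.reverse p) {p : NC K}
    {m : ℕ} (h : IsLow p m) : IsLow (R p) m := by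
  obtain ⟨⟨w, hw, hw'⟩, h2⟩ := h
  refine ⟨⟨w.reverse, by rw [List.length_reverse, hw], ?_⟩, fun v hv => ?_⟩
  · rwa [hR, List.reverse_reverse]
  · rw [hR]; exact h2 _ (by rwa [List.length_reverse])

theorem isLow_zero {p : NC K} (h : eps p ≠ 0) : IsLow p 0 :=
  ⟨⟨[], rfl, h⟩, fun w hw => absurd hw (Nat.not_lt_zero _)⟩

theorem eps_of_isLow_zero {p : NC K} (h : IsLow p 0) : eps p ≠ 0 := by
  obtain ⟨⟨w, hw, hw'⟩, _⟩ := h
  rw [List.length_eq_zero_iff] at hw
  rw [hw] at hw'
  exact hw'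

/-- The words with nonzero coefficient. -/
def cand [DecidableEq K] (f : IP K) : List (List ℕ) :=
  (ws f).filter fun w => !decide (cof f w = 0)

/-- A shortest word with nonzero coefficient. -/
def mu [DecidableEq K] (f : IP K) : List ℕ :=
  ((cand f).filter fun w => (cand f).all fun w' => decide (w.length ≤ w'.length)).getD 0 []

theorem mem_cand [DecidableEq K] {f : IP K} {w : List ℕ} :
    w ∈ cand f ↔ w ∈ ws f ∧ cof f w ≠ 0 := by
  simp [cand]

theorem mu_spec [DecidableEq K] {f : IP K} {m : ℕ} (hcf : ∀ w : List ℕ, cf w (pol f) = cof f w)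
    (hws : ∀ w : List ℕ, cof f w ≠ 0 → w ∈ ws f) (h : IsLow (pol f) m) :
    (mu f).length = m ∧ cf (mu f) (pol f) ≠ 0 := by
  obtain ⟨⟨w, hw, hw'⟩, h2⟩ := h
  have hge : ∀ v ∈ cand f, m ≤ v.length := by
    intro v hv
    by_contra hlt
    rw [mem_cand] at hv
    exact hv.2 (by rw [← hcf]; exact h2 v (by omega))
  have hwc : w ∈ cand f := mem_cand.2 ⟨hws w (by rwa [← hcf]), by rwa [← hcf]⟩
  have hne : w ∈ (cand f).filter fun w => (cand f).all fun w' => decide (w.length ≤ w'.length) := by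
    rw [List.mem_filter]
    refine ⟨hwc, ?_⟩
    rw [List.all_eq_true]
    intro v hv
    rw [decide_eq_true_eq, hw]
    exact hge v hv
  have hmem : mu f ∈ (cand f).filter fun w => (cand f).all fun w' => decide (w.length ≤ w'.length) := by
    unfold mu
    have hpos := List.length_pos_of_mem hne
    rw [List.getD_eq_getElem _ _ hpos]
    exact List.getElem_mem _
  rw [List.mem_filter, List.all_eq_true] at hmem
  have h3 := hmem.2 w hwc
  rw [decide_eq_true_eq, hw] at h3
  refine ⟨le_antisymm h3 (hge _ hmem.1), ?_⟩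
  rw [hcf]
  exact (mem_cand.1 hmem.1).2

end Basic

section
variable {K : Type} [Field K] [Finite K] [DecidableEq K] [TEnc K]
variable {α : Type} [TEnc α]

theorem Poly_cand (hws : Poly (ws : IP K → _)) (hcof : Poly (fun p : IP K × List ℕ => cof p.1 p.2)) :
    Poly (fun f : IP K => cand f) := by
  unfold cand
  refine NPC.Poly.filter (p := fun (f : IP K) w => !decide (cof f w = 0)) hws ?_
  exact NPC.Poly.not (NPC.Poly.decide_eq hcof (NPC.Poly.const 0))

theorem Poly_mu (hws : Poly (ws : IP K → _)) (hcof : Poly (fun p : IP K × List ℕ => cof p.1 p.2)) :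
    Poly (fun f : IP K => mu f) := by
  unfold mu
  have hc := Poly_cand hws hcof
  refine NPC.Poly.getD (NPC.Poly.filter (p := fun (f : IP K) w =>
    (cand f).all fun w' => decide (w.length ≤ w'.length)) hc ?_) (NPC.Poly.const 0)
    (NPC.Poly.const [])
  refine NPC.Poly.all (α := IP K × List ℕ) (l := fun q => cand q.1)
    (p := fun q w' => decide (q.2.length ≤ w'.length)) (hc.comp (NPC.Poly.fst NPC.Poly.id)) ?_
  exact NPC.Poly.decide_le (NPC.Poly.length (NPC.Poly.snd (NPC.Poly.fst NPC.Poly.id)))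
    (NPC.Poly.length (NPC.Poly.snd NPC.Poly.id))

end

end Split

open Split in
theorem split_ (K : Type) [Field K] [Finite K] [DecidableEq K] [TEnc K] (hH : HStepS K)
    (hr : RevS K) (hd : DivS K) (hv : VTS K) : SplitS K := by
  obtain ⟨H, hHp, hH⟩ := hH
  obtain ⟨rv, hrv, R, hRmul, hRR, hRcf, hRpol⟩ := hr
  obtain ⟨dv, hdvp, hdv⟩ := hd
  obtain ⟨hwsp, _, hcofp, _, _, _, hcf, _, _, hws, _⟩ := hv
  refine ⟨fun p => (rv (H (rv p, mu (rv p), [])).2, rv (dv (rv p, (H (rv p, mu (rv p), [])).2))),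
    ?_, ?_⟩
  · have h1 : Poly (fun p : IP K => (H (rv p, mu (rv p), [])).2) :=
      NPC.Poly.snd (hHp.comp (NPC.Poly.pair hrv (NPC.Poly.pair ((Poly_mu hwsp hcofp).comp hrv)
        (NPC.Poly.const []))))
    exact NPC.Poly.pair (hrv.comp h1) (hrv.comp (hdvp.comp (NPC.Poly.pair hrv h1)))
  · intro p m hm hlow
    have hlow' : IsLow (pol (rv p)) m := by rw [hRpol]; exact isLow_rev hRcf hlow
    obtain ⟨hμ1, hμ2⟩ := mu_spec (hcf (rv p)) (hws (rv p)) hlow'
    set μ := mu (rv p) with hμ
    have hμ0 : μ ≠ [] := by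
      intro h0; rw [h0, List.length_nil] at hμ1; omega
    have hH1 := hH (rv p) μ [] (by rw [List.append_nil, hμ1]; exact hlow')
      (by rw [List.append_nil]; exact hμ2) hμ0
    have hgood : Good (pol (rv p)) μ.length :=
      ⟨pol (rv p), 1, by rw [mul_one], by rw [hμ1]; exact hlow'⟩
    obtain ⟨hh1, ⟨g, hg⟩, hmax⟩ := hH1.2 hgood
    set h := (H (rv p, μ, [])).2 with hh
    obtain ⟨c, hc0, hc⟩ := hdv (rv p) h g hlow'.ne_zero hg
    rw [List.length_nil] at hh1
    refine ⟨⟨c, hc0, ?_⟩, ?_, ?_⟩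
    · change pol (rv h) * pol (rv (dv (rv p, h))) = c • pol p
      rw [hRpol, hRpol, hc, map_smul, mul_smul_comm, ← hRmul, ← hg, hRpol, hRR]
    · change eps (pol (rv h)) ≠ 0
      rw [hRpol, eps_def, hRcf, List.reverse_nil]
      exact eps_of_isLow_zero hh1
    · intro b' a' hba hb'
      change ∃ t, pol (rv h) = b' * t
      have h1 : pol (rv p) = R a' * R b' := by rw [hRpol, hba, hRmul]
      have hb0 : IsLow (R b') 0 := isLow_rev hRcf (isLow_zero hb')
      have ha0 : R a' ≠ 0 := by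
        intro h0
        rw [h0, zero_mul] at h1
        exact hlow'.ne_zero h1
      obtain ⟨e, he⟩ := exists_isLow ha0
      have h2 := he.mul hb0
      rw [← h1, add_zero] at h2
      have h3 := h2.unique hlow'
      obtain ⟨t, ht⟩ := hmax (R a') (R b') h1 ⟨e, by omega, he⟩
      exact ⟨R t, by rw [hRpol, ht, hRmul, hRR]⟩

end Pool.Agent.H420_NCF.FF
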