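import Pool.Agent.H420_NCF.Spec2
import Pool.Agent.H420_NCF.FF.Base

/-!
# from matrices to the maximal ideals of the centre modulo the radical, over a finite field (module TA)
-/

set_option linter.unusedSectionVars false

namespace Pool.Agent.H420_NCF.FF

open Pool.Agent.NPC Pool.Agent.NPC.H532
open scoped Matrix

namespace TA

/-! ### Sums over lists -/

theorem sum_map_range {M : Type} [AddCommMonoid M] (m : ℕ) (f : ℕ → M) :
    ((List.range m).map f).sum = ∑ i ∈ Finset.range m, f i := by
  induction m with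
  | zero => simp
  | succ m ih => rw [List.range_succ, List.map_append, List.sum_append, ih,
      Finset.sum_range_succ]; simp

section Math

variable {K : Type} [Field K] [Finite K] [DecidableEq K] [TEnc K]

/-! ### Flattening -/

/-- flatten a matrix -/
def fl (n : ℕ) (M : List (List K)) : List K :=
  (List.range (n * n)).map fun t => entry M (t / n) (t % n)

/-- the matrix with a given flattening -/
def uf (n : ℕ) (v : List K) : List (List K) := tab n n fun i j => v.getD (j + n * i) 0

theorem fl_length (n : ℕ) (M : List (List K)) : (fl n M).length = n * n := by simp [fl]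

theorem mq_tab' (n : ℕ) (f : ℕ → ℕ → K) (i j : Fin n) : mq n (tab n n f) i j = f i j := by
  rw [mq_tab]

/-- the flattening as a linear equivalence -/
noncomputable def ph (n : ℕ) : Matrix (Fin n) (Fin n) K ≃ₗ[K] (Fin (n * n) → K) where
  toFun X t := X (finProdFinEquiv.symm t).1 (finProdFinEquiv.symm t).2
  invFun v i j := v (finProdFinEquiv (i, j))
  left_inv X := by
    funext i j
    simp
  right_inv v := by
    funext t
    change v (finProdFinEquiv (finProdFinEquiv.symm t)) = v t
    rw [Equiv.apply_symm_apply]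
  map_add' X Y := rfl
  map_smul' c X := rfl

theorem ph_apply (n : ℕ) (X : Matrix (Fin n) (Fin n) K) (t : Fin (n * n)) :
    ph n X t = X (finProdFinEquiv.symm t).1 (finProdFinEquiv.symm t).2 := rfl

theorem ph_symm_apply (n : ℕ) (v : Fin (n * n) → K) (i j : Fin n) :
    (ph n).symm v i j = v (finProdFinEquiv (i, j)) := rfl

theorem ph_mq (n : ℕ) (M : List (List K)) : ph n (mq n M) = vq (n * n) (fl n M) := by
  funext t
  rw [ph_apply]
  unfold mq vq fl
  rw [List.getD_eq_getElem _ _ (by simp)]
  simp [finProdFinEquiv, Fin.divNat, Fin.modNat]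

theorem mq_uf (n : ℕ) (v : List K) : mq n (uf n v) = (ph n).symm (vq (n * n) v) := by
  funext i j
  rw [ph_symm_apply]
  unfold uf
  rw [mq_tab']
  unfold vq
  simp [finProdFinEquiv]

theorem ph_mspan (n : ℕ) (L : List (List (List K))) :
    (mspan n L).map (ph (K := K) n).toLinearMap = vspan (n * n) (L.map (fl n)) := by
  unfold mspan vspan
  rw [Submodule.map_span]
  congr 1
  ext w
  constructor
  · rintro ⟨_, ⟨v, hv, rfl⟩, rfl⟩
    exact ⟨fl n v, List.mem_map.2 ⟨v, hv, rfl⟩, ph_mq n v⟩
  · rintro ⟨v, hv, rfl⟩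
    obtain ⟨M, hM, rfl⟩ := List.mem_map.1 hv
    exact ⟨_, ⟨M, hM, rfl⟩, ph_mq n M⟩

theorem mem_mspan_iff (n : ℕ) (L : List (List (List K))) (a : Matrix (Fin n) (Fin n) K) :
    a ∈ mspan n L ↔ ph n a ∈ vspan (n * n) (L.map (fl n)) := by
  rw [← ph_mspan]
  constructor
  · intro h; exact ⟨a, h, rfl⟩
  · rintro ⟨b, hb, hba⟩
    have : b = a := (ph n).injective hba
    rwa [← this]

theorem mem_span_list {V : Type} [AddCommGroup V] [Module K V] {β : Type} (L : List β) (d : β)
    (g : β → V) (a : V) : a ∈ Submodule.span K {w | ∃ v ∈ L, w = g v} ↔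
      ∃ c : ℕ → K, a = ∑ i ∈ Finset.range L.length, c i • g (L.getD i d) := by
  have hset : {w | ∃ v ∈ L, w = g v} = Set.range (fun i : Fin L.length => g (L.getD i d)) := by
    ext w
    constructor
    · rintro ⟨v, hv, rfl⟩
      obtain ⟨i, hi, rfl⟩ := List.getElem_of_mem hv
      refine ⟨⟨i, hi⟩, ?_⟩
      simp only
      rw [List.getD_eq_getElem _ _ hi]
    · rintro ⟨i, rfl⟩
      refine ⟨L.getD i d, ?_, rfl⟩
      rw [List.getD_eq_getElem _ _ i.2]
      exact List.getElem_mem _
  rw [hset, Submodule.mem_span_range_iff_exists_fun]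
  constructor
  · rintro ⟨c, rfl⟩
    refine ⟨fun i => if h : i < L.length then c ⟨i, h⟩ else 0, ?_⟩
    rw [Finset.sum_range]
    refine Finset.sum_congr rfl fun i _ => ?_
    simp
  · rintro ⟨c, rfl⟩
    refine ⟨fun i => c i, ?_⟩
    rw [Finset.sum_range]

theorem mem_mspan (n : ℕ) (L : List (List (List K))) (a : Matrix (Fin n) (Fin n) K) :
    a ∈ mspan n L ↔ ∃ c : ℕ → K, a = ∑ i ∈ Finset.range L.length, c i • mq n (L.getD i []) :=
  mem_span_list L [] (mq n) a

theorem mem_vspan (n : ℕ) (L : List (List K)) (a : Fin n → K) :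
    a ∈ vspan n L ↔ ∃ c : ℕ → K, a = ∑ i ∈ Finset.range L.length, c i • vq n (L.getD i []) :=
  mem_span_list L [] (vq n) a

/-! ### Combinations -/

/-- combination of a list of matrices -/
def comb (n : ℕ) (L : List (List (List K))) (x : List K) : List (List K) :=
  tab n n fun i j => ((List.range L.length).map fun t => x.getD t 0 * entry (L.getD t []) i j).sum

theorem mq_comb (n : ℕ) (L : List (List (List K))) (x : List K) :
    mq n (comb n L x) = ∑ t ∈ Finset.range L.length, x.getD t 0 • mq n (L.getD t []) := by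
  funext i j
  unfold comb
  rw [mq_tab', sum_map_range, Matrix.sum_apply]
  refine Finset.sum_congr rfl fun t _ => ?_
  rw [Matrix.smul_apply, smul_eq_mul]
  rfl

/-- preimages of subspaces under linear maps on spans of matrices -/
theorem kerspan {kq : List (List K) → List (List K)}
    (hkq : ∀ (X : List (List K)) (q : ℕ), (∀ r ∈ X, r.length = q) →
      (∀ u ∈ kq X, u.length = X.length ∧ ∑ i : Fin X.length, u.getD i 0 • vq q (X.getD i []) = 0) ∧
      ∀ c : Fin X.length → K, ∑ i, c i • vq q (X.getD i []) = 0 → c ∈ vspan X.length (kq X))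
    (n q : ℕ) (L : List (List (List K))) (T R : List (List K)) (hT : T.length = L.length)
    (hTq : ∀ r ∈ T, r.length = q) (hRq : ∀ r ∈ R, r.length = q)
    (lam : Matrix (Fin n) (Fin n) K →ₗ[K] (Fin q → K))
    (hlam : ∀ i < L.length, vq q (T.getD i []) = lam (mq n (L.getD i [])))
    (a : Matrix (Fin n) (Fin n) K) :
    a ∈ mspan n ((kq (T ++ R)).map (comb n L)) ↔ a ∈ mspan n L ∧ lam a ∈ vspan q R := by
  obtain ⟨h1, h2⟩ := hkq (T ++ R) q (by
    intro r hr
    rcases List.mem_append.1 hr with h | h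
    · exact hTq r h
    · exact hRq r h)
  have hsplit : ∀ c : ℕ → K, ∑ i : Fin (T ++ R).length, c i • vq q ((T ++ R).getD i []) =
      lam (∑ t ∈ Finset.range L.length, c t • mq n (L.getD t [])) +
      ∑ t ∈ Finset.range R.length, c (L.length + t) • vq q (R.getD t []) := by
    intro c
    rw [← Finset.sum_range (fun i => c i • vq q ((T ++ R).getD i [])), List.length_append,
      Finset.sum_range_add, hT, map_sum]
    congr 1
    · refine Finset.sum_congr rfl fun t ht => ?_
      rw [Finset.mem_range] at ht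
      rw [map_smul, ← hlam t ht, List.getD_append _ _ _ _ (by rw [hT]; exact ht)]
    · refine Finset.sum_congr rfl fun t _ => ?_
      rw [List.getD_append_right _ _ _ _ (by omega), hT, Nat.add_sub_cancel_left]
  constructor
  · intro ha
    unfold mspan at ha
    induction ha using Submodule.span_induction with
    | mem x hx =>
      obtain ⟨M, hM, rfl⟩ := hx
      obtain ⟨u, hu, rfl⟩ := List.mem_map.1 hM
      constructor
      · rw [mem_mspan]
        exact ⟨fun t => u.getD t 0, mq_comb n L u⟩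
      · have h3 := (h1 u hu).2
        rw [hsplit (fun t => u.getD t 0), ← mq_comb] at h3
        rw [eq_neg_of_add_eq_zero_left h3]
        refine Submodule.neg_mem _ ?_
        rw [mem_vspan]
        exact ⟨fun t => u.getD (L.length + t) 0, rfl⟩
    | zero => exact ⟨Submodule.zero_mem _, by rw [map_zero]; exact Submodule.zero_mem _⟩
    | add x y _ _ hx hy =>
      exact ⟨Submodule.add_mem _ hx.1 hy.1, by rw [map_add]; exact Submodule.add_mem _ hx.2 hy.2⟩
    | smul c x _ hx =>
      exact ⟨Submodule.smul_mem _ _ hx.1, by rw [map_smul]; exact Submodule.smul_mem _ _ hx.2⟩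
  · rintro ⟨ha, hl⟩
    rw [mem_mspan] at ha
    obtain ⟨c, rfl⟩ := ha
    rw [mem_vspan] at hl
    obtain ⟨d, hd⟩ := hl
    set c' : ℕ → K := fun i => if i < L.length then c i else - d (i - L.length) with hc'
    have e1 : ∑ t ∈ Finset.range L.length, c' t • mq n (L.getD t []) =
        ∑ t ∈ Finset.range L.length, c t • mq n (L.getD t []) := by
      refine Finset.sum_congr rfl fun t ht => ?_
      rw [hc']
      simp only
      rw [if_pos (Finset.mem_range.1 ht)]
    have h3 : ∑ i : Fin (T ++ R).length, c' i • vq q ((T ++ R).getD i []) = 0 := by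
      rw [hsplit, e1, hd, ← Finset.sum_add_distrib]
      refine Finset.sum_eq_zero fun t _ => ?_
      rw [hc']
      simp
    have h5 := h2 (fun i => c' i) h3
    let TT : (Fin (T ++ R).length → K) →ₗ[K] Matrix (Fin n) (Fin n) K :=
      Fintype.linearCombination K (fun i : Fin (T ++ R).length =>
        if (i : ℕ) < L.length then mq n (L.getD i []) else 0)
    have hTT : ∀ c : ℕ → K, TT (fun i => c i) =
        ∑ t ∈ Finset.range L.length, c t • mq n (L.getD t []) := by
      intro c
      change ∑ i : Fin (T ++ R).length, c i • (if (i : ℕ) < L.length then mq n (L.getD i []) else 0)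
        = _
      rw [← Finset.sum_range (fun i => c i • (if i < L.length then mq n (L.getD i []) else 0)),
        List.length_append, Finset.sum_range_add, hT]
      have e2 : ∑ x ∈ Finset.range R.length, c (L.length + x) •
          (if L.length + x < L.length then mq n (L.getD (L.length + x) []) else 0) = 0 :=
        Finset.sum_eq_zero fun x _ => by rw [if_neg (by omega), smul_zero]
      rw [e2, add_zero]
      refine Finset.sum_congr rfl fun t ht => ?_
      rw [if_pos (Finset.mem_range.1 ht)]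
    have h6 : TT (fun i => c' i) ∈ (vspan (T ++ R).length (kq (T ++ R))).map TT := ⟨_, h5, rfl⟩
    rw [hTT, e1] at h6
    unfold vspan at h6
    rw [Submodule.map_span] at h6
    unfold mspan
    refine Submodule.span_mono ?_ h6
    rintro _ ⟨_, ⟨u, hu, rfl⟩, rfl⟩
    refine ⟨comb n L u, List.mem_map.2 ⟨u, hu, rfl⟩, ?_⟩
    rw [mq_comb]
    exact hTT fun t => u.getD t 0

/-- identity matrix -/
def idm (K : Type) [Field K] (n : ℕ) : List (List K) := tab n n fun i j => if i = j then 1 else 0

theorem mq_idm (n : ℕ) : mq n (idm K n) = 1 := by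
  funext i j
  unfold idm
  rw [mq_tab', Matrix.one_apply]
  by_cases h : i = j
  · subst h; simp
  · have : (i : ℕ) ≠ j := fun h' => h (Fin.ext h')
    simp [h, this]

/-- difference of matrices -/
def msub (n : ℕ) (A B : List (List K)) : List (List K) :=
  tab n n fun i j => entry A i j - entry B i j

theorem mq_msub (n : ℕ) (A B : List (List K)) : mq n (msub n A B) = mq n A - mq n B := by
  funext i j
  unfold msub
  rw [mq_tab', Matrix.sub_apply]
  rfl

theorem getD_map' {β γ : Type} (L : List β) (f : β → γ) (d : β) (e : γ) {i : ℕ}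
    (hi : i < L.length) : (L.map f).getD i e = f (L.getD i d) := by
  rw [List.getD_eq_getElem _ _ (by simpa using hi), List.getD_eq_getElem _ _ hi, List.getElem_map]

/-! ### Blocks -/

/-- the blocks of a long vector -/
def pr {m N : ℕ} (j : Fin m) : (Fin (m * N) → K) →ₗ[K] (Fin N → K) where
  toFun w s := w (finProdFinEquiv (j, s))
  map_add' _ _ := rfl
  map_smul' _ _ := rfl

/-- the inclusion of a block -/
def inc {m N : ℕ} (j : Fin m) : (Fin N → K) →ₗ[K] (Fin (m * N) → K) where
  toFun x t := if (finProdFinEquiv.symm t).1 = j then x (finProdFinEquiv.symm t).2 else 0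
  map_add' x y := by
    funext t
    simp only [Pi.add_apply]
    split_ifs <;> simp
  map_smul' c x := by
    funext t
    simp only [Pi.smul_apply, RingHom.id_apply]
    split_ifs <;> simp

theorem pr_inc {m N : ℕ} (j j' : Fin m) (x : Fin N → K) :
    pr j (inc j' x) = if j = j' then x else 0 := by
  funext s
  change (if (finProdFinEquiv.symm (finProdFinEquiv (j, s))).1 = j' then
    x (finProdFinEquiv.symm (finProdFinEquiv (j, s))).2 else 0) = _
  rw [Equiv.symm_apply_apply]
  by_cases h : j = j' <;> simp [h]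

theorem sum_inc_pr {m N : ℕ} (w : Fin (m * N) → K) : ∑ j : Fin m, inc j (pr j w) = w := by
  funext t
  rw [Finset.sum_apply]
  change ∑ j : Fin m, (if (finProdFinEquiv.symm t).1 = j then
    w (finProdFinEquiv (j, (finProdFinEquiv.symm t).2)) else 0) = w t
  rw [Finset.sum_ite_eq, if_pos (Finset.mem_univ _), Prod.mk.eta, Equiv.apply_symm_apply]

/-- a row with one block -/
def brow (m N : ℕ) (j : ℕ) (v : List K) : List K :=
  (List.range (m * N)).map fun t => if t / N = j then v.getD (t % N) 0 else 0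

theorem vq_brow (m N : ℕ) (j : Fin m) (v : List K) : vq (m * N) (brow m N j v) = inc j (vq N v) := by
  funext t
  unfold brow
  change ((List.range (m * N)).map fun t => if t / N = (j : ℕ) then v.getD (t % N) 0 else 0).getD t 0
    = if (finProdFinEquiv.symm t).1 = j then v.getD ((finProdFinEquiv.symm t).2 : ℕ) 0 else 0
  rw [List.getD_eq_getElem _ _ (by simp)]
  simp only [List.getElem_map, List.getElem_range]
  by_cases h : (finProdFinEquiv.symm t).1 = j
  · have h' : (t : ℕ) / N = j := by
      rw [← h]; rfl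
    rw [if_pos h, if_pos h']
    rfl
  · have h' : ¬ (t : ℕ) / N = j := by
      intro h2; apply h; apply Fin.ext; rw [← h2]; rfl
    rw [if_neg h, if_neg h']

/-- all the rows with one block from a list -/
def brows (m N : ℕ) (J : List (List K)) : List (List K) :=
  (List.range m).flatMap fun j => J.map fun v => brow m N j v

theorem mem_brows (m N : ℕ) (J : List (List K)) (w : Fin (m * N) → K) :
    w ∈ vspan (m * N) (brows m N J) ↔ ∀ j : Fin m, pr j w ∈ vspan N J := by
  constructor
  · intro hw j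
    unfold vspan at hw
    induction hw using Submodule.span_induction with
    | mem x hx =>
      obtain ⟨v, hv, rfl⟩ := hx
      unfold brows at hv
      obtain ⟨j', hj', hv'⟩ := List.mem_flatMap.1 hv
      obtain ⟨y, hy, rfl⟩ := List.mem_map.1 hv'
      have hj'' := List.mem_range.1 hj'
      have := vq_brow m N ⟨j', hj''⟩ y
      simp only at this
      rw [this, pr_inc]
      split_ifs
      · exact Submodule.subset_span ⟨y, hy, rfl⟩
      · exact Submodule.zero_mem _
    | zero => rw [map_zero]; exact Submodule.zero_mem _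
    | add a b _ _ ha hb => rw [map_add]; exact Submodule.add_mem _ ha hb
    | smul c a _ ha => rw [map_smul]; exact Submodule.smul_mem _ _ ha
  · intro h
    rw [← sum_inc_pr w]
    refine Submodule.sum_mem _ fun j _ => ?_
    have h1 := Submodule.mem_map_of_mem (f := inc j) (h j)
    unfold vspan at h1
    rw [Submodule.map_span] at h1
    refine Submodule.span_mono ?_ h1
    rintro _ ⟨_, ⟨v, hv, rfl⟩, rfl⟩
    exact ⟨brow m N j v, List.mem_flatMap.2 ⟨j, List.mem_range.2 j.2, List.mem_map.2 ⟨v, hv, rfl⟩⟩,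
      (vq_brow m N j v).symm⟩

/-! ### The centre modulo the radical -/

/-- the commutators of a matrix with the matrices of a list, flattened -/
def crow (n : ℕ) (Ab : List (List (List K))) (a : List (List K)) : List K :=
  (List.range (Ab.length * (n * n))).map fun t =>
    (fl n (msub n (mmul n a (Ab.getD (t / (n * n)) [])) (mmul n (Ab.getD (t / (n * n)) []) a))).getD
      (t % (n * n)) 0

/-- the commutators as a linear map -/
noncomputable def lamC (n : ℕ) (Ab : List (List (List K))) :
    Matrix (Fin n) (Fin n) K →ₗ[K] (Fin (Ab.length * (n * n)) → K) where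
  toFun a t := ph n (a * mq n (Ab.getD (finProdFinEquiv.symm t).1 []) -
    mq n (Ab.getD (finProdFinEquiv.symm t).1 []) * a) (finProdFinEquiv.symm t).2
  map_add' a b := by
    funext t
    have e : ∀ M : Matrix (Fin n) (Fin n) K, (a + b) * M - M * (a + b) =
        (a * M - M * a) + (b * M - M * b) := by
      intro M
      rw [add_mul, mul_add]; abel
    rw [e, map_add]
    rfl
  map_smul' c a := by
    funext t
    have e : ∀ M : Matrix (Fin n) (Fin n) K, (c • a) * M - M * (c • a) =
        c • (a * M - M * a) := by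
      intro M
      rw [smul_mul_assoc, mul_smul_comm, smul_sub]
    rw [e, map_smul]
    rfl

theorem pr_lamC (n : ℕ) (Ab : List (List (List K))) (j : Fin Ab.length)
    (a : Matrix (Fin n) (Fin n) K) :
    pr j (lamC n Ab a) = ph n (a * mq n (Ab.getD j []) - mq n (Ab.getD j []) * a) := by
  funext s
  change ph n (a * mq n (Ab.getD (finProdFinEquiv.symm (finProdFinEquiv (j, s))).1 []) -
    mq n (Ab.getD (finProdFinEquiv.symm (finProdFinEquiv (j, s))).1 []) * a)
      (finProdFinEquiv.symm (finProdFinEquiv (j, s))).2 = _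
  rw [Equiv.symm_apply_apply]

theorem vq_crow (n : ℕ) (Ab : List (List (List K))) (a : List (List K)) :
    vq (Ab.length * (n * n)) (crow n Ab a) = lamC n Ab (mq n a) := by
  funext t
  change (crow n Ab a).getD t 0 = ph n (mq n a * mq n (Ab.getD (finProdFinEquiv.symm t).1 []) -
    mq n (Ab.getD (finProdFinEquiv.symm t).1 []) * mq n a) (finProdFinEquiv.symm t).2
  rw [← mq_mmul, ← mq_mmul, ← mq_msub, ph_mq]
  unfold crow
  rw [List.getD_eq_getElem _ _ (by simp)]
  simp only [List.getElem_map, List.getElem_range]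
  rfl

/-- a spanning family of the centre modulo the radical -/
def cb (kq : List (List K) → List (List K)) (n : ℕ) (Ab Jb : List (List (List K))) :
    List (List (List K)) :=
  (kq (Ab.map (crow n Ab) ++ brows Ab.length (n * n) (Jb.map (fl n)))).map (comb n Ab)

theorem basis_mem (n : ℕ) (A : Subalgebra K (Matrix (Fin n) (Fin n) K)) (Ab : List (List (List K)))
    (hAb : ∀ a, a ∈ mspan n Ab ↔ a ∈ A) (i : ℕ) (hi : i < Ab.length) :
    mq n (Ab.getD i []) ∈ A := by
  rw [← hAb]
  unfold mspan
  refine Submodule.subset_span ⟨Ab.getD i [], ?_, rfl⟩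
  rw [List.getD_eq_getElem _ _ hi]
  exact List.getElem_mem _

theorem mem_cb {kq : List (List K) → List (List K)}
    (hkq : ∀ (X : List (List K)) (q : ℕ), (∀ r ∈ X, r.length = q) →
      (∀ u ∈ kq X, u.length = X.length ∧ ∑ i : Fin X.length, u.getD i 0 • vq q (X.getD i []) = 0) ∧
      ∀ c : Fin X.length → K, ∑ i, c i • vq q (X.getD i []) = 0 → c ∈ vspan X.length (kq X))
    (n : ℕ) (A : Subalgebra K (Matrix (Fin n) (Fin n) K)) (Ab Jb : List (List (List K)))
    (hAb : ∀ a, a ∈ mspan n Ab ↔ a ∈ A) (hJ : ∀ a, a ∈ mspan n Jb ↔ a ∈ JJ A)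
    (a : Matrix (Fin n) (Fin n) K) : a ∈ mspan n (cb kq n Ab Jb) ↔ a ∈ CC A := by
  unfold cb
  rw [kerspan hkq n (Ab.length * (n * n)) Ab (Ab.map (crow n Ab)) _ (by simp) (by
      intro r hr
      obtain ⟨a, -, rfl⟩ := List.mem_map.1 hr
      simp [crow]) (by
      intro r hr
      obtain ⟨j, -, hr'⟩ := List.mem_flatMap.1 hr
      obtain ⟨v, -, rfl⟩ := List.mem_map.1 hr'
      simp [brow]) (lamC n Ab) (by
      intro i hi
      rw [getD_map' Ab _ [] [] hi, vq_crow]) a, hAb, mem_brows]
  simp only [pr_lamC, ← mem_mspan_iff, hJ]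
  constructor
  · rintro ⟨ha, hl⟩
    refine ⟨ha, fun b hb => ?_⟩
    rw [← hAb, mem_mspan] at hb
    obtain ⟨c, rfl⟩ := hb
    rw [Finset.mul_sum, Finset.sum_mul, ← Finset.sum_sub_distrib]
    refine Submodule.sum_mem _ fun i hi => ?_
    rw [mul_smul_comm, smul_mul_assoc, ← smul_sub]
    exact Submodule.smul_mem _ _ (hl ⟨i, Finset.mem_range.1 hi⟩)
  · rintro ⟨ha, hc⟩
    exact ⟨ha, fun j => hc _ (basis_mem n A Ab hAb j j.2)⟩

/-! ### A basis of the centre modulo the radical -/

section
variable {n : ℕ} (A : Subalgebra K (Matrix (Fin n) (Fin n) K))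

theorem one_mem_CC : (1 : Matrix (Fin n) (Fin n) K) ∈ CC A :=
  ⟨A.one_mem, fun a _ => by rw [one_mul, mul_one, sub_self]; exact (JJ A).zero_mem⟩

theorem mul_mem_CC (h0 : R0S K) {c d : Matrix (Fin n) (Fin n) K} (hc : c ∈ CC A)
    (hd : d ∈ CC A) : c * d ∈ CC A := by
  obtain ⟨-, h2, -⟩ := h0 n A
  refine ⟨A.mul_mem hc.1 hd.1, fun a ha => ?_⟩
  have e : c * d * a - a * (c * d) = c * (d * a - a * d) + (c * a - a * c) * d := by
    noncomm_ring
  rw [e]
  exact (JJ A).add_mem (h2 _ (hd.2 a ha) c hc.1).2 (h2 _ (hc.2 a ha) d hd.1).1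

theorem one_notMem_JJ (h0 : R0S K) (hn : 0 < n) : (1 : Matrix (Fin n) (Fin n) K) ∉ JJ A := by
  intro h
  obtain ⟨h1, -, -⟩ := h0 n A
  have h2 := (h1 1 h).2
  have : Nonempty (Fin n) := ⟨⟨0, hn⟩⟩
  have : Nontrivial (Matrix (Fin n) (Fin n) K) := inferInstance
  obtain ⟨m, hm⟩ := h2
  rw [one_pow] at hm
  exact one_ne_zero hm

end

/-- basis of the centre modulo the radical -/
def b0 (sel : List (List K) × List (List K) → List (List K)) (n : ℕ)
    (Jb Cb : List (List (List K))) : List (List (List K)) :=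
  (sel (Jb.map (fl n), (idm K n :: Cb).map (fl n))).map (uf n)

/-- what is needed about the basis -/
structure BasisC (n : ℕ) (A : Subalgebra K (Matrix (Fin n) (Fin n) K)) (r : ℕ)
    (B : ℕ → Matrix (Fin n) (Fin n) K) : Prop where
  pos : 0 < r
  mem : ∀ i < r, B i ∈ CC A
  ind : ∀ c : ℕ → K, ∑ i ∈ Finset.range r, c i • B i ∈ JJ A → ∀ i < r, c i = 0
  span : ∀ a ∈ CC A, ∃ c : ℕ → K, a - ∑ i ∈ Finset.range r, c i • B i ∈ JJ A
  one : B 0 = 1

theorem b0_spec {sel : List (List K) × List (List K) → List (List K)}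
    (hsel : ∀ (n : ℕ) (N L : List (List K)), (∀ v ∈ N, v.length = n) → (∀ v ∈ L, v.length = n) →
    (∀ v ∈ sel (N, L), v ∈ L) ∧
    (∀ c : Fin (sel (N, L)).length → K,
      ∑ i, c i • vq n ((sel (N, L)).getD i []) ∈ vspan n N → c = 0) ∧
    vspan n N ⊔ vspan n (sel (N, L)) = vspan n N ⊔ vspan n L ∧
    ∀ v L', L = v :: L' → vq n v ∉ vspan n N → (sel (N, L)).head? = some v)
    (h0 : R0S K) (n : ℕ) (hn : 0 < n) (A : Subalgebra K (Matrix (Fin n) (Fin n) K))
    (Jb Cb : List (List (List K))) (hJ : ∀ a, a ∈ mspan n Jb ↔ a ∈ JJ A)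
    (hC : ∀ a, a ∈ mspan n Cb ↔ a ∈ CC A) :
    BasisC n A (b0 sel n Jb Cb).length (fun i => mq n ((b0 sel n Jb Cb).getD i [])) := by
  obtain ⟨h1, h2, h3, h4⟩ := hsel (n * n) (Jb.map (fl n)) ((idm K n :: Cb).map (fl n)) (by
    intro v hv
    obtain ⟨M, -, rfl⟩ := List.mem_map.1 hv
    exact fl_length n _) (by
    intro v hv
    obtain ⟨M, -, rfl⟩ := List.mem_map.1 hv
    exact fl_length n _)
  have hJ' : ∀ a, ph n a ∈ vspan (n * n) (Jb.map (fl n)) ↔ a ∈ JJ A := by
    intro a; rw [← mem_mspan_iff, hJ]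
  have hC' : ∀ a, ph n a ∈ vspan (n * n) ((idm K n :: Cb).map (fl n)) ↔ a ∈ CC A := by
    intro a
    rw [← mem_mspan_iff, ← hC]
    constructor
    · intro h
      have hle : mspan n (idm K n :: Cb) ≤ mspan n Cb := by
        unfold mspan
        rw [Submodule.span_le]
        rintro _ ⟨M, hM, rfl⟩
        rcases List.mem_cons.1 hM with rfl | hM
        · rw [mq_idm]
          exact (hC 1).2 (one_mem_CC A)
        · exact Submodule.subset_span ⟨M, hM, rfl⟩
      exact hle h
    · intro h
      refine Submodule.span_mono ?_ h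
      rintro _ ⟨M, hM, rfl⟩
      exact ⟨M, List.mem_cons_of_mem _ hM, rfl⟩
  have hlen : (b0 sel n Jb Cb).length =
      (sel (Jb.map (fl n), (idm K n :: Cb).map (fl n))).length := by
    unfold b0; simp
  have hget : ∀ i < (b0 sel n Jb Cb).length, ph n (mq n ((b0 sel n Jb Cb).getD i [])) =
      vq (n * n) ((sel (Jb.map (fl n), (idm K n :: Cb).map (fl n))).getD i []) := by
    intro i hi
    unfold b0
    rw [getD_map' _ (uf n) [] [] (by rw [← hlen]; exact hi), mq_uf, LinearEquiv.apply_symm_apply]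
  have hsum : ∀ c : ℕ → K, ph n (∑ i ∈ Finset.range (b0 sel n Jb Cb).length,
      c i • mq n ((b0 sel n Jb Cb).getD i [])) =
      ∑ i ∈ Finset.range (sel (Jb.map (fl n), (idm K n :: Cb).map (fl n))).length,
      c i • vq (n * n) ((sel (Jb.map (fl n), (idm K n :: Cb).map (fl n))).getD i []) := by
    intro c
    rw [map_sum, hlen]
    refine Finset.sum_congr rfl fun i hi => ?_
    rw [map_smul, hget i (by rw [hlen]; exact Finset.mem_range.1 hi)]
  have h5 := h4 (fl n (idm K n)) (Cb.map (fl n)) (by simp) (by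
    rw [← ph_mq, mq_idm, hJ']
    exact one_notMem_JJ A h0 hn)
  have hpos : 0 < (b0 sel n Jb Cb).length := by
    rw [hlen]
    rcases hs : sel (Jb.map (fl n), (idm K n :: Cb).map (fl n)) with _ | ⟨v, t⟩
    · rw [hs] at h5; simp at h5
    · simp
  refine ⟨hpos, ?_, ?_, ?_, ?_⟩
  · intro i hi
    rw [← hC', hget i hi]
    unfold vspan
    refine Submodule.subset_span ⟨_, h1 _ ?_, rfl⟩
    rw [List.getD_eq_getElem _ _ (by rw [← hlen]; exact hi)]
    exact List.getElem_mem _
  · intro c hc i hi
    rw [← hJ', hsum, Finset.sum_range] at hc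
    have := h2 (fun i => c i) hc
    exact congrFun this ⟨i, by rw [← hlen]; exact hi⟩
  · intro a ha
    have h6 : ph n a ∈ vspan (n * n) (Jb.map (fl n)) ⊔
        vspan (n * n) (sel (Jb.map (fl n), (idm K n :: Cb).map (fl n))) := by
      rw [h3]
      exact Submodule.mem_sup_right ((hC' a).2 ha)
    obtain ⟨x, hx, y, hy, hxy⟩ := Submodule.mem_sup.1 h6
    rw [mem_vspan] at hy
    obtain ⟨c, rfl⟩ := hy
    refine ⟨c, ?_⟩
    rw [← hJ', map_sub, hsum, ← hxy, add_sub_cancel_right]
    exact hx
  · apply (ph n).injective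
    rw [hget 0 hpos]
    rcases hs : sel (Jb.map (fl n), (idm K n :: Cb).map (fl n)) with _ | ⟨v, t⟩
    · rw [hs] at h5; simp at h5
    · rw [hs] at h5
      simp only [List.head?_cons, Option.some.injEq] at h5
      rw [h5, List.getD_cons_zero, ← ph_mq, mq_idm]

/-! ### Structure constants -/

/-- the coordinates of the product of two basis elements -/
def cc (co : List (List K) × List K → List K) (n : ℕ) (B Jb : List (List (List K)))
    (i j : ℕ) : List K :=
  co ((B ++ Jb).map (fl n), fl n (mmul n (B.getD i []) (B.getD j [])))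

/-- the structure constants as a list of matrices -/
def gam (co : List (List K) × List K → List K) (n : ℕ) (B Jb : List (List (List K))) :
    List (List (List K)) :=
  (List.range B.length).map fun i => tab B.length B.length fun j l => (cc co n B Jb i j).getD l 0

theorem gm_gam (co : List (List K) × List K → List K) (n : ℕ) (B Jb : List (List (List K)))
    {i j l : ℕ} (hi : i < B.length) (hj : j < B.length) (hl : l < B.length) :
    gm (gam co n B Jb) i j l = (cc co n B Jb i j).getD l 0 := by
  unfold gm gam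
  rw [List.getD_eq_getElem (List.map _ _) _ (by simpa using hi)]
  simp only [List.getElem_map, List.getElem_range]
  rw [entry_tab _ hj hl]

theorem cc_spec {co : List (List K) × List K → List K}
    (hco : ∀ (n : ℕ) (L : List (List K)) (v : List K), (∀ w ∈ L, w.length = n) → v.length = n →
      vq n v ∈ vspan n L → (co (L, v)).length = L.length ∧
        vq n v = ∑ i : Fin L.length, (co (L, v)).getD i 0 • vq n (L.getD i []))
    (h0 : R0S K) (n : ℕ) (A : Subalgebra K (Matrix (Fin n) (Fin n) K))
    (B Jb : List (List (List K))) (hJ : ∀ a, a ∈ mspan n Jb ↔ a ∈ JJ A)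
    (hB : BasisC n A B.length (fun i => mq n (B.getD i [])))
    {i j : ℕ} (hi : i < B.length) (hj : j < B.length) :
    mq n (B.getD i []) * mq n (B.getD j []) -
      ∑ l ∈ Finset.range B.length, (cc co n B Jb i j).getD l 0 • mq n (B.getD l []) ∈ JJ A := by
  have hmem : vq (n * n) (fl n (mmul n (B.getD i []) (B.getD j []))) ∈
      vspan (n * n) ((B ++ Jb).map (fl n)) := by
    rw [← ph_mq, ← mem_mspan_iff, mq_mmul]
    obtain ⟨c, hc⟩ := hB.span _ (mul_mem_CC A h0 (hB.mem i hi) (hB.mem j hj))
    have h1 : ∑ l ∈ Finset.range B.length, c l • mq n (B.getD l []) ∈ mspan n (B ++ Jb) := by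
      refine Submodule.sum_mem _ fun l hl => Submodule.smul_mem _ _ ?_
      rw [Finset.mem_range] at hl
      refine Submodule.subset_span ⟨B.getD l [], ?_, rfl⟩
      rw [List.getD_eq_getElem _ _ hl]
      exact List.mem_append_left _ (List.getElem_mem _)
    rw [← hJ] at hc
    have h2 : mspan n Jb ≤ mspan n (B ++ Jb) := by
      refine Submodule.span_mono ?_
      rintro _ ⟨M, hM, rfl⟩
      exact ⟨M, List.mem_append_right _ hM, rfl⟩
    have h3 := (mspan n (B ++ Jb)).add_mem (h2 hc) h1
    rwa [sub_add_cancel] at h3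
  obtain ⟨-, h3⟩ := hco (n * n) ((B ++ Jb).map (fl n))
    (fl n (mmul n (B.getD i []) (B.getD j []))) (by
      intro w hw
      obtain ⟨M, -, rfl⟩ := List.mem_map.1 hw
      exact fl_length n _) (fl_length n _) hmem
  change vq (n * n) (fl n (mmul n (B.getD i []) (B.getD j []))) =
    ∑ t : Fin ((B ++ Jb).map (fl n)).length, (cc co n B Jb i j).getD t 0 •
      vq (n * n) (((B ++ Jb).map (fl n)).getD t []) at h3
  rw [← Finset.sum_range (fun t => (cc co n B Jb i j).getD t 0 •
      vq (n * n) (((B ++ Jb).map (fl n)).getD t []))] at h3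
  have h4 : ∀ t ∈ Finset.range ((B ++ Jb).map (fl n)).length,
      (cc co n B Jb i j).getD t 0 • vq (n * n) (((B ++ Jb).map (fl n)).getD t []) =
      ph n ((cc co n B Jb i j).getD t 0 • mq n ((B ++ Jb).getD t [])) := by
    intro t ht
    rw [Finset.mem_range, List.length_map] at ht
    rw [map_smul, ph_mq, getD_map' _ (fl n) [] [] ht]
  rw [Finset.sum_congr rfl h4, ← map_sum, ← ph_mq, (ph n).injective.eq_iff,
    mq_mmul, List.length_map, List.length_append, Finset.sum_range_add] at h3
  rw [h3]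
  have h5 : ∑ l ∈ Finset.range B.length, (cc co n B Jb i j).getD l 0 •
      mq n ((B ++ Jb).getD l []) = ∑ l ∈ Finset.range B.length,
      (cc co n B Jb i j).getD l 0 • mq n (B.getD l []) := by
    refine Finset.sum_congr rfl fun l hl => ?_
    rw [Finset.mem_range] at hl
    rw [List.getD_append _ _ _ _ hl]
  rw [h5, add_sub_cancel_left, ← hJ]
  refine Submodule.sum_mem _ fun l hl => Submodule.smul_mem _ _ ?_
  rw [Finset.mem_range] at hl
  refine Submodule.subset_span ⟨_, ?_, rfl⟩
  rw [List.getD_append_right _ _ _ _ (by omega), Nat.add_sub_cancel_left,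
    List.getD_eq_getElem _ _ hl]
  exact List.getElem_mem _

/-- the output for given bases -/
def outF (co : List (List K) × List K → List K)
    (sp : List (List (List K)) → List (List (List K))) (n : ℕ)
    (B Jb : List (List (List K))) : List (List (List (List K))) :=
  (sp (gam co n B Jb)).map fun P => Jb ++ P.map (comb n B)

theorem mspan_append (n : ℕ) (L L' : List (List (List K))) :
    mspan n (L ++ L') = mspan n L ⊔ mspan n L' := by
  unfold mspan
  rw [← Submodule.span_union]
  congr 1
  ext w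
  constructor
  · rintro ⟨v, hv, rfl⟩
    rcases List.mem_append.1 hv with h | h
    · exact Or.inl ⟨v, h, rfl⟩
    · exact Or.inr ⟨v, h, rfl⟩
  · rintro (⟨v, hv, rfl⟩ | ⟨v, hv, rfl⟩)
    · exact ⟨v, List.mem_append_left _ hv, rfl⟩
    · exact ⟨v, List.mem_append_right _ hv, rfl⟩

theorem mspan_comb (n : ℕ) (B : List (List (List K))) (P : List (List K)) :
    mspan n (P.map (comb n B)) = (vspan B.length P).map
      (Fintype.linearCombination K fun i : Fin B.length => mq n (B.getD i [])) := by
  unfold mspan vspan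
  rw [Submodule.map_span]
  congr 1
  have key : ∀ v : List K, mq n (comb n B v) =
      Fintype.linearCombination K (fun i : Fin B.length => mq n (B.getD i [])) (vq B.length v) := by
    intro v
    rw [mq_comb, Finset.sum_range, Fintype.linearCombination_apply]
    rfl
  ext w
  constructor
  · rintro ⟨M, hM, rfl⟩
    obtain ⟨v, hv, rfl⟩ := List.mem_map.1 hM
    exact ⟨_, ⟨v, hv, rfl⟩, (key v).symm⟩
  · rintro ⟨_, ⟨v, hv, rfl⟩, rfl⟩
    exact ⟨_, List.mem_map.2 ⟨v, hv, rfl⟩, (key v).symm⟩

theorem outF_spec {co : List (List K) × List K → List K}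
    (hco : ∀ (n : ℕ) (L : List (List K)) (v : List K), (∀ w ∈ L, w.length = n) → v.length = n →
      vq n v ∈ vspan n L → (co (L, v)).length = L.length ∧
        vq n v = ∑ i : Fin L.length, (co (L, v)).getD i 0 • vq n (L.getD i []))
    {sp : List (List (List K)) → List (List (List K))}
    (hsp : ∀ (r : ℕ) (γ : List (List (List K))) (E : Type) [CommRing E] [Algebra K E]
      (b : Module.Basis (Fin r) K E), IsReduced E → IsOrder r γ E b →
      (∀ P ∈ sp γ, (∀ v ∈ P, v.length = r) ∧ IsMaxP b (vspan r P)) ∧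
      ∀ x : Fin r → K, (∀ P ∈ sp γ, x ∈ vspan r P) → x = 0)
    (h0 : R0S K) (hT : TMS K) (n : ℕ) (hn : 0 < n)
    (A : Subalgebra K (Matrix (Fin n) (Fin n) K))
    (B Jb : List (List (List K))) (hJ : ∀ a, a ∈ mspan n Jb ↔ a ∈ JJ A)
    (hJm : ∀ M ∈ Jb, IsMat n n M)
    (hb : BasisC n A B.length (fun i => mq n (B.getD i []))) :
    (∀ m ∈ outF co sp n B Jb, (∀ c ∈ m, IsMat n n c) ∧ IsMaxC A (mspan n m)) ∧
    ∀ a ∈ CC A, (∀ m ∈ outF co sp n B Jb, a ∈ mspan n m) → a ∈ JJ A := by
  have hJs : mspan n Jb = JJ A := Submodule.ext hJ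
  obtain ⟨E, iE, iA, b, hred, hone, hmul, hmax⟩ := hT n B.length A
    (fun i => mq n (B.getD i []))
    (fun i j l => gm (gam co n B Jb) i j l) ⟨0, hb.pos⟩ hn (fun i => hb.mem i i.2) hb.one
    (by
      intro v hv
      have h1 := hb.ind (fun i => if h : i < B.length then v ⟨i, h⟩ else 0) (by
        rw [Finset.sum_range]
        convert hv using 3 with i
        simp)
      funext i
      have := h1 i i.2
      simpa using this)
    (by
      intro c hc
      obtain ⟨v, hv⟩ := hb.span c hc
      refine ⟨fun i => v i, ?_⟩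
      rw [Finset.sum_range] at hv
      exact hv)
    (by
      intro i j
      have h1 := cc_spec hco h0 n A B Jb hJ hb i.2 j.2
      rw [Finset.sum_range] at h1
      convert h1 using 3 with l
      rw [gm_gam co n B Jb i.2 j.2 l.2])
  have hord : IsOrder B.length (gam co n B Jb) E b := by
    refine ⟨hb.pos, by simp [gam], ?_, hone, hmul⟩
    intro M hM
    unfold gam at hM
    obtain ⟨i, -, rfl⟩ := List.mem_map.1 hM
    exact isMat_tab _ _ _
  obtain ⟨h2, h3⟩ := hsp B.length (gam co n B Jb) E b hred hord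
  have hms : ∀ P : List (List K), mspan n (Jb ++ P.map (comb n B)) =
      JJ A ⊔ (vspan B.length P).map (Fintype.linearCombination K
        fun i : Fin B.length => mq n (B.getD i [])) := by
    intro P
    rw [mspan_append, hJs, mspan_comb]
  constructor
  · intro m hm
    unfold outF at hm
    obtain ⟨P, hP, rfl⟩ := List.mem_map.1 hm
    constructor
    · intro c hc
      rcases List.mem_append.1 hc with h | h
      · exact hJm c h
      · obtain ⟨v, -, rfl⟩ := List.mem_map.1 h
        exact isMat_tab _ _ _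
    · rw [hms]
      exact hmax _ (h2 P hP).2
  · intro a ha hall
    obtain ⟨c, hc⟩ := hb.span a ha
    have hx : (fun i : Fin B.length => c i) = 0 := by
      refine h3 _ fun P hP => ?_
      have h4 := hall _ (List.mem_map.2 ⟨P, hP, rfl⟩)
      rw [hms] at h4
      obtain ⟨j, hj, y', ⟨y, hy, rfl⟩, hjy⟩ := Submodule.mem_sup.1 h4
      have h5 : ∑ i ∈ Finset.range B.length,
          (c i - if h : i < B.length then y ⟨i, h⟩ else 0) • mq n (B.getD i []) ∈
          JJ A := by
        have h6 : ∑ i ∈ Finset.range B.length,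
          (c i - if h : i < B.length then y ⟨i, h⟩ else 0) • mq n (B.getD i []) =
          j - (a - ∑ i ∈ Finset.range B.length, c i • mq n (B.getD i [])) := by
          rw [← hjy, Fintype.linearCombination_apply]
          simp only [sub_smul, Finset.sum_sub_distrib]
          have h7 : ∑ i ∈ Finset.range B.length,
              (if h : i < B.length then y ⟨i, h⟩ else 0) • mq n (B.getD i []) =
              ∑ i : Fin B.length, y i • mq n (B.getD i []) := by
            rw [Finset.sum_range]
            refine Finset.sum_congr rfl fun i _ => ?_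
            simp
          rw [h7]
          abel
        rw [h6]
        exact (JJ A).sub_mem hj hc
      have h8 := hb.ind _ h5
      have h9 : (fun i : Fin B.length => c i) = y := by
        funext i
        have := h8 i i.2
        simpa [sub_eq_zero] using this
      rw [h9]
      exact hy
    have h10 : ∑ i ∈ Finset.range B.length, c i • mq n (B.getD i []) = 0 := by
      rw [Finset.sum_range]
      refine Finset.sum_eq_zero fun i _ => ?_
      have : c i = 0 := congrFun hx i
      rw [this, zero_smul]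
    simp only [h10, sub_zero] at hc
    exact hc

end Math

/-! ### Polynomial time -/

section
variable {K : Type} [Field K] [Finite K] [DecidableEq K] [TEnc K] {α : Type} [TEnc α]

theorem P_fl {n : α → ℕ} {M : α → List (List K)} (hn : UPoly n) (hM : Poly M) :
    Poly (fun a => fl (n a) (M a)) := by
  unfold fl
  refine NPC.Poly.map (F := fun a t => entry (M a) (t / n a) (t % n a)) (hn.mul hn).range ?_
  have h1 : Poly (fun p : α × ℕ => p.1) := NPC.Poly.fst NPC.Poly.id
  have h2 : Poly (fun p : α × ℕ => p.2) := NPC.Poly.snd NPC.Poly.id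
  exact Poly_entryK (hM.comp h1) (NPC.Poly.div h2 (hn.toPoly.comp h1))
    (NPC.Poly.mod h2 (hn.toPoly.comp h1))

theorem P_uf {n : α → ℕ} {v : α → List K} (hn : UPoly n) (hv : Poly v) :
    Poly (fun a => uf (n a) (v a)) := by
  unfold uf
  refine Poly_tabK (f := fun a i j => (v a).getD (j + n a * i) 0) hn hn ?_
  have h1 : Poly (fun p : (α × ℕ) × ℕ => p.1.1) := NPC.Poly.fst (NPC.Poly.fst NPC.Poly.id)
  have h2 : Poly (fun p : (α × ℕ) × ℕ => p.1.2) := NPC.Poly.snd (NPC.Poly.fst NPC.Poly.id)
  have h3 : Poly (fun p : (α × ℕ) × ℕ => p.2) := NPC.Poly.snd NPC.Poly.id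
  exact NPC.Poly.getD (hv.comp h1) (NPC.Poly.add h3 (NPC.Poly.mul (hn.toPoly.comp h1) h2))
    (NPC.Poly.const 0)

theorem P_comb {n : α → ℕ} {L : α → List (List (List K))} {x : α → List K} (hn : UPoly n)
    (hL : Poly L) (hx : Poly x) : Poly (fun a => comb (n a) (L a) (x a)) := by
  unfold comb
  refine Poly_tabK (f := fun a i j => ((List.range (L a).length).map fun t =>
    (x a).getD t 0 * entry ((L a).getD t []) i j).sum) hn hn (Poly_sumK ?_)
  have h1 : Poly (fun p : (α × ℕ) × ℕ => p.1.1) := NPC.Poly.fst (NPC.Poly.fst NPC.Poly.id)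
  refine NPC.Poly.map (α := (α × ℕ) × ℕ)
    (F := fun p t => (x p.1.1).getD t 0 * entry ((L p.1.1).getD t []) p.1.2 p.2)
    (NPC.Poly.range_length (hL.comp h1)) ?_
  have k1 : Poly (fun p : ((α × ℕ) × ℕ) × ℕ => p.1.1.1) :=
    NPC.Poly.fst (NPC.Poly.fst (NPC.Poly.fst NPC.Poly.id))
  have k2 : Poly (fun p : ((α × ℕ) × ℕ) × ℕ => p.1.1.2) :=
    NPC.Poly.snd (NPC.Poly.fst (NPC.Poly.fst NPC.Poly.id))
  have k3 : Poly (fun p : ((α × ℕ) × ℕ) × ℕ => p.1.2) := NPC.Poly.snd (NPC.Poly.fst NPC.Poly.id)
  have k4 : Poly (fun p : ((α × ℕ) × ℕ) × ℕ => p.2) := NPC.Poly.snd NPC.Poly.id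
  exact Poly_mulK (NPC.Poly.getD (hx.comp k1) k4 (NPC.Poly.const 0))
    (Poly_entryK (NPC.Poly.getD (hL.comp k1) k4 (NPC.Poly.const [])) k2 k3)

theorem P_idm {n : α → ℕ} (hn : UPoly n) : Poly (fun a => idm K (n a)) := by
  unfold idm
  refine Poly_tabK (f := fun _ i j => if i = j then 1 else 0) hn hn ?_
  exact NPC.Poly.ite (NPC.Poly.decide_eq (NPC.Poly.snd (NPC.Poly.fst NPC.Poly.id))
    (NPC.Poly.snd NPC.Poly.id)) (NPC.Poly.const _) (NPC.Poly.const _)

theorem P_msub {n : α → ℕ} {A B : α → List (List K)} (hn : UPoly n) (hA : Poly A) (hB : Poly B) :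
    Poly (fun a => msub (n a) (A a) (B a)) := by
  unfold msub
  refine Poly_tabK (f := fun a i j => entry (A a) i j - entry (B a) i j) hn hn ?_
  have h1 : Poly (fun p : (α × ℕ) × ℕ => p.1.1) := NPC.Poly.fst (NPC.Poly.fst NPC.Poly.id)
  have h2 : Poly (fun p : (α × ℕ) × ℕ => p.1.2) := NPC.Poly.snd (NPC.Poly.fst NPC.Poly.id)
  have h3 : Poly (fun p : (α × ℕ) × ℕ => p.2) := NPC.Poly.snd NPC.Poly.id
  exact Poly_subK (Poly_entryK (hA.comp h1) h2 h3) (Poly_entryK (hB.comp h1) h2 h3)

theorem P_crow {n : α → ℕ} {Ab : α → List (List (List K))} {x : α → List (List K)}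
    (hn : UPoly n) (hA : Poly Ab) (hx : Poly x) : Poly (fun a => crow (n a) (Ab a) (x a)) := by
  unfold crow
  refine NPC.Poly.map (F := fun a t => (fl (n a) (msub (n a) (mmul (n a) (x a)
    ((Ab a).getD (t / (n a * n a)) [])) (mmul (n a) ((Ab a).getD (t / (n a * n a)) []) (x a)))).getD
      (t % (n a * n a)) 0) ((UPoly.length hA).mul (hn.mul hn)).range ?_
  have k1 : Poly (fun p : α × ℕ => p.1) := NPC.Poly.fst NPC.Poly.id
  have k2 : Poly (fun p : α × ℕ => p.2) := NPC.Poly.snd NPC.Poly.id
  have k3 := hn.comp k1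
  have k4 : Poly (fun p : α × ℕ => n p.1 * n p.1) := (hn.mul hn).toPoly.comp k1
  have k5 := NPC.Poly.getD (hA.comp k1) (NPC.Poly.div k2 k4) (NPC.Poly.const [])
  exact NPC.Poly.getD (P_fl k3 (P_msub k3 (Poly_mmulK k3 (hx.comp k1) k5)
    (Poly_mmulK k3 k5 (hx.comp k1)))) (NPC.Poly.mod k2 k4) (NPC.Poly.const 0)

theorem P_brow {m N j : α → ℕ} {v : α → List K} (hm : UPoly m) (hN : UPoly N) (hj : Poly j)
    (hv : Poly v) : Poly (fun a => brow (m a) (N a) (j a) (v a)) := by
  unfold brow
  refine NPC.Poly.map (F := fun a t => if t / N a = j a then (v a).getD (t % N a) 0 else 0)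
    (hm.mul hN).range ?_
  have k1 : Poly (fun p : α × ℕ => p.1) := NPC.Poly.fst NPC.Poly.id
  have k2 : Poly (fun p : α × ℕ => p.2) := NPC.Poly.snd NPC.Poly.id
  have k4 := hN.toPoly.comp k1
  exact NPC.Poly.ite (NPC.Poly.decide_eq (NPC.Poly.div k2 k4) (hj.comp k1))
    (NPC.Poly.getD (hv.comp k1) (NPC.Poly.mod k2 k4) (NPC.Poly.const 0)) (NPC.Poly.const 0)

theorem P_brows {m N : α → ℕ} {J : α → List (List K)} (hm : UPoly m) (hN : UPoly N)
    (hJ : Poly J) : Poly (fun a => brows (m a) (N a) (J a)) := by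
  unfold brows
  have k1 : Poly (fun p : α × ℕ => p.1) := NPC.Poly.fst NPC.Poly.id
  have k2 : Poly (fun p : (α × ℕ) × List K => p.1.1) := NPC.Poly.fst (NPC.Poly.fst NPC.Poly.id)
  refine NPC.Poly.flatMap (F := fun a j => (J a).map fun v => brow (m a) (N a) j v) hm.range ?_
  refine NPC.Poly.map (α := α × ℕ) (F := fun p v => brow (m p.1) (N p.1) p.2 v) (hJ.comp k1) ?_
  exact P_brow (hm.comp k2) (hN.comp k2) (NPC.Poly.snd (NPC.Poly.fst NPC.Poly.id))
    (NPC.Poly.snd NPC.Poly.id)

theorem P_mfl {n : α → ℕ} {Ab : α → List (List (List K))} (hn : UPoly n) (hA : Poly Ab) :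
    Poly (fun a => (Ab a).map (fl (n a))) := by
  have h1 : Poly (fun p : α × List (List K) => p.1) := NPC.Poly.fst NPC.Poly.id
  exact NPC.Poly.map (F := fun a x => fl (n a) x) hA (P_fl (hn.comp h1) (NPC.Poly.snd NPC.Poly.id))

theorem P_cb {kq : List (List K) → List (List K)} (hk : Poly kq) {n : α → ℕ}
    {Ab Jb : α → List (List (List K))} (hn : UPoly n) (hA : Poly Ab) (hJ : Poly Jb) :
    Poly (fun a => cb kq (n a) (Ab a) (Jb a)) := by
  unfold cb
  have h1 : Poly (fun p : α × List K => p.1) := NPC.Poly.fst NPC.Poly.id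
  have h2 : Poly (fun p : α × List (List K) => p.1) := NPC.Poly.fst NPC.Poly.id
  refine NPC.Poly.map (F := fun a x => comb (n a) (Ab a) x) (hk.comp (NPC.Poly.append ?_
    (P_brows (UPoly.length hA) (hn.mul hn) (P_mfl hn hJ))))
    (P_comb (hn.comp h1) (hA.comp h1) (NPC.Poly.snd NPC.Poly.id))
  exact NPC.Poly.map (F := fun a x => crow (n a) (Ab a) x) hA
    (P_crow (hn.comp h2) (hA.comp h2) (NPC.Poly.snd NPC.Poly.id))

theorem P_b0 {sel : List (List K) × List (List K) → List (List K)} (hs : Poly sel) {n : α → ℕ}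
    {Jb Cb : α → List (List (List K))} (hn : UPoly n) (hJ : Poly Jb) (hC : Poly Cb) :
    Poly (fun a => b0 sel (n a) (Jb a) (Cb a)) := by
  unfold b0
  have h1 : Poly (fun p : α × List K => p.1) := NPC.Poly.fst NPC.Poly.id
  refine NPC.Poly.map (F := fun a x => uf (n a) x) (hs.comp (NPC.Poly.pair (P_mfl hn hJ)
    (P_mfl (Ab := fun a => idm K (n a) :: Cb a) hn (NPC.Poly.cons (P_idm hn) hC)))) ?_
  exact P_uf (hn.comp h1) (NPC.Poly.snd NPC.Poly.id)

theorem P_cc {co : List (List K) × List K → List K} (hco : Poly co) {n : α → ℕ}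
    {B Jb : α → List (List (List K))} {i j : α → ℕ} (hn : UPoly n) (hB : Poly B) (hJ : Poly Jb)
    (hi : Poly i) (hj : Poly j) : Poly (fun a => cc co (n a) (B a) (Jb a) (i a) (j a)) := by
  unfold cc
  exact hco.comp (NPC.Poly.pair (P_mfl (Ab := fun a => B a ++ Jb a) hn (NPC.Poly.append hB hJ))
    (P_fl hn (Poly_mmulK hn (NPC.Poly.getD hB hi (NPC.Poly.const []))
      (NPC.Poly.getD hB hj (NPC.Poly.const [])))))

theorem P_gam {co : List (List K) × List K → List K} (hco : Poly co) {n : α → ℕ}
    {B Jb : α → List (List (List K))} (hn : UPoly n) (hB : Poly B) (hJ : Poly Jb) :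
    Poly (fun a => gam co (n a) (B a) (Jb a)) := by
  unfold gam
  refine NPC.Poly.map (F := fun a i => tab (B a).length (B a).length fun j l =>
    (cc co (n a) (B a) (Jb a) i j).getD l 0) (NPC.Poly.range_length hB) ?_
  have hl := (UPoly.length hB).comp (NPC.Poly.fst (NPC.Poly.id (α := α × ℕ)))
  refine Poly_tabK (α := α × ℕ) (m := fun p => (B p.1).length) (n := fun p => (B p.1).length)
    (f := fun p j l => (cc co (n p.1) (B p.1) (Jb p.1) p.2 j).getD l 0) hl hl ?_
  have k1 : Poly (fun p : ((α × ℕ) × ℕ) × ℕ => p.1.1.1) :=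
    NPC.Poly.fst (NPC.Poly.fst (NPC.Poly.fst NPC.Poly.id))
  have k2 : Poly (fun p : ((α × ℕ) × ℕ) × ℕ => p.1.1.2) :=
    NPC.Poly.snd (NPC.Poly.fst (NPC.Poly.fst NPC.Poly.id))
  have k3 : Poly (fun p : ((α × ℕ) × ℕ) × ℕ => p.1.2) := NPC.Poly.snd (NPC.Poly.fst NPC.Poly.id)
  have k4 : Poly (fun p : ((α × ℕ) × ℕ) × ℕ => p.2) := NPC.Poly.snd NPC.Poly.id
  exact NPC.Poly.getD (P_cc hco (hn.comp k1) (hB.comp k1) (hJ.comp k1) k2 k3) k4
    (NPC.Poly.const 0)

theorem P_outF {co : List (List K) × List K → List K} (hco : Poly co)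
    {sp : List (List (List K)) → List (List (List K))} (hsp : Poly sp) {n : α → ℕ}
    {B Jb : α → List (List (List K))} (hn : UPoly n) (hB : Poly B) (hJ : Poly Jb) :
    Poly (fun a => outF co sp (n a) (B a) (Jb a)) := by
  unfold outF
  have h1 : Poly (fun p : α × List (List K) => p.1) := NPC.Poly.fst NPC.Poly.id
  have h2 : Poly (fun p : (α × List (List K)) × List K => p.1.1) :=
    NPC.Poly.fst (NPC.Poly.fst NPC.Poly.id)
  refine NPC.Poly.map (F := fun a P => Jb a ++ P.map (comb (n a) (B a)))
    (hsp.comp (P_gam hco hn hB hJ)) (NPC.Poly.append (hJ.comp h1) ?_)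
  refine NPC.Poly.map (α := α × List (List K)) (F := fun p v =>
    comb (n p.1) (B p.1) v) (NPC.Poly.snd NPC.Poly.id) ?_
  exact P_comb (hn.comp h2) (hB.comp h2) (NPC.Poly.snd NPC.Poly.id)

end

/-! ### The algorithm -/

section
variable {K : Type} [Field K]

/-- the size of the matrices -/
def dm (Ms : List (List (List K))) : ℕ := (Ms.getD 0 []).length

/-- the algorithm -/
def algo (ra : List (List (List K)) → List (List (List K)) × List (List (List K)))
    (kq : List (List K) → List (List K))
    (sel : List (List K) × List (List K) → List (List K))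
    (co : List (List K) × List K → List K)
    (sp : List (List (List K)) → List (List (List K)))
    (Ms : List (List (List K))) : List (List (List (List K))) :=
  outF co sp (dm Ms) (b0 sel (dm Ms) (ra Ms).2 (cb kq (dm Ms) (ra Ms).1 (ra Ms).2)) (ra Ms).2

end

theorem P_algo {K : Type} [Field K] [Finite K] [DecidableEq K] [TEnc K]
    {ra : List (List (List K)) → List (List (List K)) × List (List (List K))}
    {kq : List (List K) → List (List K)}
    {sel : List (List K) × List (List K) → List (List K)}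
    {co : List (List K) × List K → List K}
    {sp : List (List (List K)) → List (List (List K))} (h1 : Poly ra) (h2 : Poly kq)
    (h3 : Poly sel) (h4 : Poly co) (h5 : Poly sp) : Poly (algo ra kq sel co sp) := by
  have hn : UPoly (dm (K := K)) :=
    UPoly.length (NPC.Poly.getD NPC.Poly.id (NPC.Poly.const 0) (NPC.Poly.const []))
  have hA := NPC.Poly.fst h1
  have hJ := NPC.Poly.snd h1
  have hC := P_cb h2 hn hA hJ
  exact P_outF h4 h5 hn (P_b0 h3 hn hJ hC) hJ

end TA

theorem ta (K : Type) [Field K] [Finite K] [DecidableEq K] [TEnc K] (hk : K2S K) (hsel : SelModS K) (hco : CoS K) (h0 : R0S K) (hra : RAS K)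
    (hE : E1S K) (hT : TMS K) : TAS K := by
  obtain ⟨ra, pra, hra⟩ := hra
  obtain ⟨kq, pkq, hkq⟩ := hk
  obtain ⟨sel, psel, hsel⟩ := hsel
  obtain ⟨co, pco, hco⟩ := hco
  obtain ⟨sp, psp, hsp⟩ := hE
  refine ⟨TA.algo ra kq sel co sp, TA.P_algo pra pkq psel pco psp, ?_⟩
  intro n Ms hn hne hMs
  have hdm : TA.dm Ms = n := by
    unfold TA.dm
    obtain ⟨M, t, rfl⟩ := List.exists_cons_of_ne_nil hne
    rw [List.getD_cons_zero]
    exact (hMs M (by simp)).1
  unfold TA.algo
  rw [hdm]
  obtain ⟨-, h2, h3, h4⟩ := hra n Ms hn hne hMs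
  have hA : ∀ a, a ∈ mspan n (ra Ms).1 ↔ a ∈ algOf n Ms := by
    intro a; rw [h3]; exact Iff.rfl
  have hJ : ∀ a, a ∈ mspan n (ra Ms).2 ↔ a ∈ JJ (algOf n Ms) := by
    intro a; rw [h4]
  exact TA.outF_spec hco hsp h0 hT n hn (algOf n Ms) _ _ hJ h2
    (TA.b0_spec hsel h0 n hn (algOf n Ms) _ _ hJ (TA.mem_cb hkq n (algOf n Ms) _ _ hA hJ))

end Pool.Agent.H420_NCF.FF
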