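import Pool.Agent.H420_NCF.Spec2
import Pool.Agent.H420_NCF.FF.Base

/-!
# Coordinates of polynomials and matrices of the operators
-/

namespace Pool.Agent.H420_NCF.FF

open Pool.Agent.NPC Pool.Agent.NPC.H532
open scoped Matrix

namespace VT

set_option linter.unusedSectionVars false

variable {α β γ : Type} [TEnc α] [TEnc β] [TEnc γ]

/-! ### Polynomial time: suffixes and removal of repetitions -/

omit [TEnc β] in
theorem foldr_tails (l : List β) :
    l.foldr (fun x s => (x :: s.head?.getD []) :: s) [[]] = l.tails := by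
  induction l with
  | nil => rfl
  | cons a l ih =>
    rw [List.foldr_cons, ih]
    cases l <;> simp

theorem sz_tails_le (l : List β) : sz l.tails ≤ (sz l + 1) * (sz l + 1) + 1 := by
  have h1 := sz_le_length_mul l.tails (sz l) (by
    intro s hs
    rw [List.mem_tails] at hs
    obtain ⟨t, rfl⟩ := hs
    have := sz_append t s
    have := sz_pos t
    omega)
  have h2 := length_lt_sz l
  rw [List.length_tails] at h1
  have h3 : (l.length + 1) * (sz l + 1) ≤ (sz l + 1) * (sz l + 1) :=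
    Nat.mul_le_mul_right _ (by omega)
  omega

theorem Poly_tails {l : α → List β} (hl : Poly l) : Poly (fun a => (l a).tails) := by
  obtain ⟨r, hr⟩ := hl.sz_le
  refine (NPC.Poly.foldr (s := fun _ => ([[]] : List (List β)))
    (F := fun _ x s => (x :: s.head?.getD []) :: s) hl (NPC.Poly.const _)
    (NPC.Poly.cons (NPC.Poly.cons (NPC.Poly.fst (NPC.Poly.snd NPC.Poly.id))
      (NPC.Poly.head?_getD (NPC.Poly.snd (NPC.Poly.snd NPC.Poly.id)) [])) (NPC.Poly.snd (NPC.Poly.snd NPC.Poly.id)))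
    ((r + Polynomial.C 1) * (r + Polynomial.C 1) + Polynomial.C 1) ?_).congr fun a =>
      foldr_tails (l a)
  intro a k _
  rw [foldr_tails]
  refine (sz_tails_le _).trans ?_
  have h1 := NPC.Poly.sz_drop_le (l a) k
  have h2 := hr a
  simp only [Polynomial.eval_add, Polynomial.eval_mul, Polynomial.eval_C]
  have h3 : sz ((l a).drop k) + 1 ≤ r.eval (sz a) + 1 := by omega
  have := Nat.mul_le_mul h3 h3
  omega

omit [TEnc β] in
theorem foldr_dedup [DecidableEq β] (l : List β) :
    l.foldr (fun x s => if x ∈ s then s else x :: s) [] = l.dedup := by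
  induction l with
  | nil => rfl
  | cons a l ih =>
    rw [List.foldr_cons, ih]
    by_cases h : a ∈ l
    · rw [List.dedup_cons_of_mem h, if_pos (List.mem_dedup.2 h)]
    · rw [List.dedup_cons_of_notMem h, if_neg (fun h' => h (List.mem_dedup.1 h'))]

theorem sz_sublist {l l' : List β} (h : l.Sublist l') : sz l ≤ sz l' := by
  induction h with
  | slnil => exact le_rfl
  | cons a _ ih => simp; omega
  | cons_cons a _ ih => simp; omega

theorem Poly_dedup [DecidableEq β] {l : α → List β} (hl : Poly l) :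
    Poly (fun a => (l a).dedup) := by
  obtain ⟨r, hr⟩ := hl.sz_le
  have h2 : Poly (fun p : α × β × List β => p.2.1) := NPC.Poly.fst (NPC.Poly.snd NPC.Poly.id)
  have h3 : Poly (fun p : α × β × List β => p.2.2) := NPC.Poly.snd (NPC.Poly.snd NPC.Poly.id)
  refine (NPC.Poly.foldr (s := fun _ => ([] : List β))
    (F := fun _ x s => if x ∈ s then s else x :: s) hl (NPC.Poly.const _)
    (NPC.Poly.ite (NPC.Poly.decide_mem h2 h3) h3 (NPC.Poly.cons h2 h3)) r ?_).congr fun a =>
      foldr_dedup (l a)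
  intro a k _
  rw [foldr_dedup]
  exact (sz_sublist (List.dedup_sublist _)).trans ((NPC.Poly.sz_drop_le (l a) k).trans (hr a))

section K

variable {K : Type} [Field K] [Finite K] [DecidableEq K] [TEnc K]

theorem Poly_ws : Poly (ws : IP K → _) := by
  unfold ws
  exact Poly_dedup (NPC.Poly.flatMap (l := fun p : IP K => p) (F := fun _ t => t.1.tails) NPC.Poly.id
    (Poly_tails (NPC.Poly.fst (NPC.Poly.snd NPC.Poly.id))))

theorem Poly_lets : Poly (lets : IP K → _) := by
  unfold lets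
  exact Poly_dedup (NPC.Poly.flatMap (l := fun p : IP K => p) (F := fun _ t => t.1) NPC.Poly.id
    (NPC.Poly.fst (NPC.Poly.snd NPC.Poly.id)))

theorem Poly_cof {f : α → IP K} {w : α → List ℕ} (hf : Poly f) (hw : Poly w) :
    Poly (fun a => cof (f a) (w a)) := by
  unfold cof
  refine Poly_sumK ?_
  refine NPC.Poly.map (F := fun (_ : α) (t : List ℕ × K) => t.2) ?_ (NPC.Poly.snd (NPC.Poly.snd NPC.Poly.id))
  exact NPC.Poly.filter (p := fun a t => decide (t.1 = w a)) hf
    (NPC.Poly.decide_eq (NPC.Poly.fst (NPC.Poly.snd NPC.Poly.id)) (hw.comp (NPC.Poly.fst NPC.Poly.id)))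

theorem Poly_vecOf {l : α → List (List ℕ)} {f : α → IP K} (hl : Poly l) (hf : Poly f) :
    Poly (fun a => vecOf (l a) (f a)) := by
  unfold vecOf
  exact NPC.Poly.map (F := fun a w => cof (f a) w) hl
    (Poly_cof (hf.comp (NPC.Poly.fst NPC.Poly.id)) (NPC.Poly.snd NPC.Poly.id))

theorem Poly_toIP {l : α → List (List ℕ)} {v : α → List K} (hl : Poly l) (hv : Poly v) :
    Poly (fun a => toIP (l a) (v a)) := by
  unfold toIP
  exact NPC.Poly.filter (p := fun _ t => !decide (t.2 = 0)) (NPC.Poly.zip hl hv)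
    (NPC.Poly.not (NPC.Poly.decide_eq (NPC.Poly.snd (NPC.Poly.snd NPC.Poly.id)) (NPC.Poly.const 0)))

theorem Poly_tm : Poly (fun p : IP K × List ℕ × List ℕ × ℕ => tm p.1 p.2.1 p.2.2.1 p.2.2.2) := by
  unfold tm
  have hws : Poly (fun p : IP K × List ℕ × List ℕ × ℕ => ws p.1) := Poly_ws.comp (NPC.Poly.fst NPC.Poly.id)
  refine NPC.Poly.map (α := IP K × List ℕ × List ℕ × ℕ)
    (F := fun p v => (ws p.1).map fun y =>
      cof p.1 (p.2.1 ++ p.2.2.1) * (if v = p.2.2.2 :: y then 1 else 0) -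
        (if v = p.2.2.1 then 1 else 0) * cof p.1 (p.2.1 ++ p.2.2.2 :: y)) hws ?_
  refine NPC.Poly.map (α := (IP K × List ℕ × List ℕ × ℕ) × List ℕ)
    (F := fun q y =>
      cof q.1.1 (q.1.2.1 ++ q.1.2.2.1) * (if q.2 = q.1.2.2.2 :: y then 1 else 0) -
        (if q.2 = q.1.2.2.1 then 1 else 0) * cof q.1.1 (q.1.2.1 ++ q.1.2.2.2 :: y))
    (hws.comp (NPC.Poly.fst NPC.Poly.id)) ?_
  have a1 : Poly (fun s : ((IP K × List ℕ × List ℕ × ℕ) × List ℕ) × List ℕ => s.1.1.1) :=
    NPC.Poly.fst (NPC.Poly.fst (NPC.Poly.fst NPC.Poly.id))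
  have a2 : Poly (fun s : ((IP K × List ℕ × List ℕ × ℕ) × List ℕ) × List ℕ => s.1.1.2.1) :=
    NPC.Poly.fst (NPC.Poly.snd (NPC.Poly.fst (NPC.Poly.fst NPC.Poly.id)))
  have a3 : Poly (fun s : ((IP K × List ℕ × List ℕ × ℕ) × List ℕ) × List ℕ => s.1.1.2.2.1) :=
    NPC.Poly.fst (NPC.Poly.snd (NPC.Poly.snd (NPC.Poly.fst (NPC.Poly.fst NPC.Poly.id))))
  have a4 : Poly (fun s : ((IP K × List ℕ × List ℕ × ℕ) × List ℕ) × List ℕ => s.1.1.2.2.2) :=
    NPC.Poly.snd (NPC.Poly.snd (NPC.Poly.snd (NPC.Poly.fst (NPC.Poly.fst NPC.Poly.id))))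
  have a5 : Poly (fun s : ((IP K × List ℕ × List ℕ × ℕ) × List ℕ) × List ℕ => s.1.2) :=
    NPC.Poly.snd (NPC.Poly.fst NPC.Poly.id)
  have a6 : Poly (fun s : ((IP K × List ℕ × List ℕ × ℕ) × List ℕ) × List ℕ => s.2) :=
    NPC.Poly.snd NPC.Poly.id
  exact Poly_subK
    (Poly_mulK (Poly_cof a1 (NPC.Poly.append a2 a3))
      (NPC.Poly.ite (NPC.Poly.decide_eq a5 (NPC.Poly.cons a4 a6)) (NPC.Poly.const 1) (NPC.Poly.const 0)))
    (Poly_mulK (NPC.Poly.ite (NPC.Poly.decide_eq a5 a3) (NPC.Poly.const 1) (NPC.Poly.const 0))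
      (Poly_cof a1 (NPC.Poly.append a2 (NPC.Poly.cons a4 a6))))

/-! ### Coefficients of polynomials given as lists -/

theorem pol_nil : pol ([] : IP K) = 0 := rfl

theorem pol_cons (t : List ℕ × K) (p : IP K) : pol (t :: p) = t.2 • (mon t.1 : NC K) + pol p := by
  simp [pol]

theorem cof_nil (w : List ℕ) : cof ([] : IP K) w = 0 := rfl

theorem cof_cons (t : List ℕ × K) (p : IP K) (w : List ℕ) :
    cof (t :: p) w = (if t.1 = w then t.2 else 0) + cof p w := by
  unfold cof
  by_cases h : t.1 = w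
  · rw [List.filter_cons_of_pos (by simpa using h), List.map_cons, List.sum_cons, if_pos h]
  · rw [List.filter_cons_of_neg (by simpa using h), if_neg h, zero_add]

theorem cf_pol (f : IP K) (w : List ℕ) : cf w (pol f) = cof f w := by
  induction f with
  | nil => rw [pol_nil, cof_nil, map_zero]
  | cons t f ih =>
    rw [pol_cons, cof_cons, map_add, map_smul, ih, cf_mon, smul_eq_mul]
    split_ifs <;> simp

theorem exists_of_cof {f : IP K} {w : List ℕ} (h : cof f w ≠ 0) : ∃ t ∈ f, t.1 = w := by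
  by_contra hcon
  push Not at hcon
  apply h
  unfold cof
  rw [List.filter_eq_nil_iff.2 (by
    intro t ht
    simpa using hcon t ht)]
  rfl

theorem mem_ws {f : IP K} {w : List ℕ} : w ∈ ws f ↔ ∃ t ∈ f, w <:+ t.1 := by
  unfold ws
  rw [List.mem_dedup, List.mem_flatMap]
  simp only [List.mem_tails]

theorem mem_lets {f : IP K} {x : ℕ} : x ∈ lets f ↔ ∃ t ∈ f, x ∈ t.1 := by
  unfold lets
  rw [List.mem_dedup, List.mem_flatMap]

theorem nil_mem_ws {f : IP K} (h : f ≠ []) : [] ∈ ws f := by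
  obtain ⟨t, f', rfl⟩ := List.exists_cons_of_ne_nil h
  exact mem_ws.2 ⟨t, by simp, List.nil_suffix⟩

theorem mem_ws_of_cof {f : IP K} {w : List ℕ} (h : cof f w ≠ 0) : w ∈ ws f := by
  obtain ⟨t, ht, rfl⟩ := exists_of_cof h
  exact mem_ws.2 ⟨t, ht, List.suffix_rfl⟩

theorem mem_ws_of_suffix {f : IP K} {v w : List ℕ} (h : w ∈ ws f) (hv : v <:+ w) : v ∈ ws f := by
  obtain ⟨t, ht, hw⟩ := mem_ws.1 h
  exact mem_ws.2 ⟨t, ht, hv.trans hw⟩

theorem of_cons_mem_ws {f : IP K} {x : ℕ} {w : List ℕ} (h : x :: w ∈ ws f) :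
    w ∈ ws f ∧ x ∈ lets f := by
  refine ⟨mem_ws_of_suffix h (List.suffix_cons _ _), ?_⟩
  obtain ⟨t, ht, hw⟩ := mem_ws.1 h
  exact mem_lets.2 ⟨t, ht, hw.subset (by simp)⟩

/-! ### Coordinates -/

theorem phi_apply (l : List (List ℕ)) (v : Fin l.length → K) :
    phi K l v = ∑ i, v i • (mon (l.getD i []) : NC K) := rfl

theorem cf_phi (l : List (List ℕ)) (v : Fin l.length → K) (w : List ℕ) :
    cf w (phi K l v) = ∑ i : Fin l.length, if l.getD i [] = w then v i else 0 := by
  rw [phi_apply, map_sum]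
  refine Finset.sum_congr rfl fun i _ => ?_
  rw [map_smul, cf_mon, smul_eq_mul]
  split_ifs <;> simp

theorem getD_fin (l : List (List ℕ)) (i : Fin l.length) : l.getD i [] = l[(i : ℕ)] :=
  List.getD_eq_getElem _ _ i.2

theorem cf_phi_get {l : List (List ℕ)} (hl : l.Nodup) (v : Fin l.length → K)
    (i : Fin l.length) : cf (l.getD i []) (phi K l v) = v i := by
  rw [cf_phi, Finset.sum_eq_single i]
  · rw [if_pos rfl]
  · intro j _ hj
    rw [if_neg]
    intro h
    rw [getD_fin, getD_fin] at h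
    exact hj (Fin.ext (hl.getElem_inj_iff.1 h))
  · intro h; exact absurd (Finset.mem_univ i) h

theorem cf_phi_of_notMem {l : List (List ℕ)} (v : Fin l.length → K) {w : List ℕ} (hw : w ∉ l) :
    cf w (phi K l v) = 0 := by
  rw [cf_phi]
  refine Finset.sum_eq_zero fun i _ => ?_
  rw [if_neg]
  intro h
  rw [getD_fin] at h
  exact hw (h ▸ List.getElem_mem _)

theorem exists_get {l : List (List ℕ)} {w : List ℕ} (hw : w ∈ l) :
    ∃ i : Fin l.length, l.getD i [] = w := by
  obtain ⟨i, hi, h⟩ := List.getElem_of_mem hw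
  exact ⟨⟨i, hi⟩, by rw [getD_fin]; exact h⟩

theorem phi_injective {l : List (List ℕ)} (hl : l.Nodup) : Function.Injective (phi K l) := by
  intro v v' h
  funext i
  rw [← cf_phi_get hl v i, ← cf_phi_get hl v' i, h]

theorem phi_coeffs {l : List (List ℕ)} (hl : l.Nodup) {p : NC K}
    (hp : ∀ w, cf w p ≠ 0 → w ∈ l) : phi K l (fun i => cf (l.getD i []) p) = p := by
  ext w
  by_cases hw : w ∈ l
  · obtain ⟨i, rfl⟩ := exists_get hw
    rw [cf_phi_get hl]
  · rw [cf_phi_of_notMem _ hw]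
    by_contra h
    exact hw (hp w (Ne.symm h))

theorem mem_range_phi {l : List (List ℕ)} (hl : l.Nodup) (p : NC K) :
    p ∈ LinearMap.range (phi K l) ↔ ∀ w, cf w p ≠ 0 → w ∈ l := by
  constructor
  · rintro ⟨v, rfl⟩ w hw
    by_contra h
    exact hw (cf_phi_of_notMem v h)
  · intro h
    exact ⟨_, phi_coeffs hl h⟩

theorem phi_cons (a : List ℕ) (l : List (List ℕ)) b (v : List K) :
    phi K (a :: l) (vq (a :: l).length (b :: v)) = b • mon a + phi K l (vq l.length v) := by
  rw [phi_apply, phi_apply]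
  exact Fin.sum_univ_succ _

theorem pol_toIP : ∀ (l : List (List ℕ)) (v : List K), v.length = l.length →
    pol (toIP l v) = phi K l (vq l.length v)
  | [], v, _ => by
    rw [phi_apply]
    simp [toIP, pol]
  | a :: l, [], h => by simp at h
  | a :: l, b :: v, h => by
    have h' : v.length = l.length := by simpa using h
    rw [phi_cons, ← pol_toIP l v h']
    unfold toIP
    rw [List.zip_cons_cons]
    by_cases hb : b = 0
    · rw [List.filter_cons_of_neg (by simpa using hb), hb, zero_smul, zero_add]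
    · rw [List.filter_cons_of_pos (by simpa using hb), pol_cons]

theorem phi_vecOf {l : List (List ℕ)} {p : IP K} (hl : l.Nodup) (hp : ∀ w, cof p w ≠ 0 → w ∈ l) :
    phi K l (vq l.length (vecOf l p)) = pol p := by
  have h := phi_coeffs hl (p := pol p) (fun w hw => hp w (by
    intro h0
    rw [cf_pol, h0] at hw
    exact hw rfl))
  rw [← h]
  congr 1
  funext i
  unfold vq vecOf
  rw [cf_pol, List.getD_eq_getElem _ _ (by simp), List.getElem_map, getD_fin]

/-! ### The operators -/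

theorem cf_Top (f : NC K) (u w : List ℕ) (x : ℕ) (p : NC K) (y : List ℕ) :
    cf y (Top f u w x p) = cf (u ++ w) f * cf (x :: y) p - cf w p * cf (u ++ x :: y) f := by
  change cf y (lq x (cf (u ++ w) f • p - cf w p • lqw u f)) = _
  rw [cf_lq, map_sub, map_smul, map_smul, cf_lqw, smul_eq_mul, smul_eq_mul]

theorem isMat_tm (f : IP K) (u w : List ℕ) (x : ℕ) :
    IsMat (ws f).length (ws f).length (tm f u w x) := by
  unfold tm
  refine ⟨by simp, fun v hv => ?_⟩
  rw [List.mem_map] at hv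
  obtain ⟨y, _, rfl⟩ := hv
  simp

theorem mq_tm (f : IP K) (u w : List ℕ) (x : ℕ) (i j : Fin (ws f).length) :
    mq (ws f).length (tm f u w x) i j =
      cof f (u ++ w) * (if (ws f).getD i [] = x :: (ws f).getD j [] then 1 else 0) -
        (if (ws f).getD i [] = w then 1 else 0) * cof f (u ++ x :: (ws f).getD j []) := by
  unfold mq entry tm
  rw [List.getD_eq_getElem (l := List.map _ _) (d := []) (by simp), List.getElem_map,
    List.getD_eq_getElem (l := List.map _ _) (d := 0) (by simp), List.getElem_map,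
    getD_fin, getD_fin]

theorem phi_row (f : IP K) (u w : List ℕ) (x : ℕ) (i : Fin (ws f).length) :
    phi K (ws f) (mq (ws f).length (tm f u w x) i) =
      Top (pol f) u w x (mon ((ws f).getD i [])) := by
  have hn : (ws f).Nodup := List.nodup_dedup _
  ext y
  rw [cf_Top, cf_mon, cf_mon, cf_pol, cf_pol]
  by_cases hy : y ∈ ws f
  · obtain ⟨j, rfl⟩ := exists_get hy
    rw [cf_phi_get hn, mq_tm]
  · rw [cf_phi_of_notMem _ hy]
    have h1 : cof f (u ++ x :: y) = 0 := by
      by_contra h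
      exact hy (mem_ws_of_suffix (mem_ws_of_cof h)
        ((List.suffix_cons x y).trans (List.suffix_append _ _)))
    have h2 : (ws f).getD i [] ≠ x :: y := by
      intro h
      have h3 : (ws f).getD i [] ∈ ws f := by
        rw [getD_fin]; exact List.getElem_mem _
      rw [h] at h3
      exact hy (of_cons_mem_ws h3).1
    rw [h1, if_neg h2]
    simp

theorem phi_tm (f : IP K) (u w : List ℕ) (x : ℕ) (v : Fin (ws f).length → K) :
    phi K (ws f) (v ᵥ* mq (ws f).length (tm f u w x)) = Top (pol f) u w x (phi K (ws f) v) := by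
  have h1 : v ᵥ* mq (ws f).length (tm f u w x) =
      ∑ i, v i • mq (ws f).length (tm f u w x) i := by
    funext j
    rw [Finset.sum_apply]
    rfl
  rw [h1, map_sum, phi_apply, map_sum]
  refine Finset.sum_congr rfl fun i _ => ?_
  rw [map_smul, map_smul, phi_row]

end K

end VT

open VT in
theorem vt (K : Type) [Field K] [Finite K] [DecidableEq K] [TEnc K] : VTS K :=
  ⟨Poly_ws, Poly_lets, Poly_cof (NPC.Poly.fst NPC.Poly.id) (NPC.Poly.snd NPC.Poly.id),
    Poly_vecOf (NPC.Poly.fst NPC.Poly.id) (NPC.Poly.snd NPC.Poly.id),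
    Poly_toIP (NPC.Poly.fst NPC.Poly.id) (NPC.Poly.snd NPC.Poly.id), Poly_tm, cf_pol,
    fun _ => List.nodup_dedup _, fun _ => nil_mem_ws, fun _ _ => mem_ws_of_cof,
    fun _ _ _ => of_cons_mem_ws, fun _ => phi_injective, fun _ p hl => mem_range_phi hl p,
    pol_toIP, fun _ _ => phi_vecOf, fun f u w x => ⟨isMat_tm f u w x, phi_tm f u w x⟩⟩

end Pool.Agent.H420_NCF.FF
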